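import Pool.Agent.L0h56.BQ.Asm
import Pool.Agent.N278.BRJ0

/-! MP_6b977f_mp: equidistribution of directions -/

set_option autoImplicit false
open MeasureTheory Filter Topology Complex Set

namespace Pool.Agent.L0h56.BQ

open Pool.Agent.N661.BR (cov J0 cf)

noncomputable section

/-- the uniform probability measure of directions -/
def unif : Measure ℝ := ENNReal.ofReal (1 / (2 * Real.pi)) •
  volume.restrict (Set.Ioc 0 (2 * Real.pi))

theorem two_pi : (0 : ℝ) < 2 * Real.pi := by positivity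

instance prob : IsProbabilityMeasure unif := by
  constructor
  unfold unif
  rw [Measure.smul_apply, Measure.restrict_apply_univ, Real.volume_Ioc, sub_zero, smul_eq_mul,
    ← ENNReal.ofReal_mul (by positivity), one_div, inv_mul_cancel₀ two_pi.ne', ENNReal.ofReal_one]

theorem integral_unif {E : Type*} [NormedAddCommGroup E] [NormedSpace ℝ E] (g : ℝ → E) :
    ∫ α, g α ∂unif = (1 / (2 * Real.pi)) • ∫ α in (0:ℝ)..(2 * Real.pi), g α := by
  unfold unif
  rw [integral_smul_measure, ENNReal.toReal_ofReal (by positivity),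
    intervalIntegral.integral_of_le two_pi.le]

theorem cf_unif (l : ℤ) (hl : l ≠ 0) : cf unif (2 * l) = 0 := by
  unfold cf
  rw [integral_unif]
  simp_rw [Pool.Agent.N278.BR.sy_zpow]
  rw [intervalIntegral.integral_const_mul]
  have h1 : ∀ x : ℝ, Complex.exp (-(2 * l * x * Complex.I)) =
      Complex.exp (-(2 * (l : ℂ) * Complex.I) * x) := fun x => by
    congr 1
    ring
  simp_rw [h1]
  have hc : (-(2 * (l : ℂ) * Complex.I)) ≠ 0 :=
    neg_ne_zero.2 (mul_ne_zero (mul_ne_zero (by norm_num) (by exact_mod_cast hl)) Complex.I_ne_zero)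
  rw [integral_exp_mul_complex hc]
  have h2 : Complex.exp (-(2 * (l : ℂ) * Complex.I) * ((2 * Real.pi : ℝ) : ℂ)) = 1 := by
    rw [show -(2 * (l : ℂ) * Complex.I) * ((2 * Real.pi : ℝ) : ℂ) =
      ((-2 * l : ℤ) : ℂ) * (2 * Real.pi * Complex.I) by push_cast; ring]
    exact Complex.exp_int_mul_two_pi_mul_I _
  rw [h2]
  simp

theorem cov_unif (w : ℂ) : cov unif w = J0 ‖w‖ :=
  Pool.Agent.N278.BR.J0cov unif prob cf_unif w

/-- the direction of `ν` -/
def dirn (ν : GaussianInt) : ℝ := Complex.arg (GaussianInt.toComplex ν)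

theorem norm_toComplex (ν : GaussianInt) (E : ℕ) (h : ν.norm = E) :
    ‖GaussianInt.toComplex ν‖ = √E := by
  have h1 : ‖GaussianInt.toComplex ν‖ ^ 2 = E := by
    rw [← Complex.normSq_eq_norm_sq, ← GaussianInt.intCast_real_norm, h]
    simp
  rw [← h1, Real.sqrt_sq (norm_nonneg _)]

theorem cos_dirn (ν : GaussianInt) (E : ℕ) (h : ν.norm = E) :
    √E * Real.cos (dirn ν) = ν.re := by
  rw [← norm_toComplex ν E h, dirn, Complex.norm_mul_cos_arg,
    ← GaussianInt.intCast_re]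

theorem sin_dirn (ν : GaussianInt) (E : ℕ) (h : ν.norm = E) :
    √E * Real.sin (dirn ν) = ν.im := by
  rw [← norm_toComplex ν E h, dirn, Complex.norm_mul_sin_arg,
    ← GaussianInt.intCast_im]

instance fact2Pi : Fact (0 < 2 * Real.pi) := ⟨by positivity⟩

theorem fourier_two_pi (n : ℤ) (x : ℝ) :
    fourier n (x : AddCircle (2 * Real.pi)) = Complex.exp (I * (n * x : ℝ)) := by
  rw [fourier_coe_apply]
  congr 1
  have : (Real.pi : ℂ) ≠ 0 := by exact_mod_cast Real.pi_ne_zero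
  push_cast
  field_simp

/-- **Weyl's criterion** for weighted finite sets of directions -/
theorem weyl (S : ℕ → Finset GaussianInt) (w : ℕ → GaussianInt → ℝ) (hw : ∀ n, ∀ ν ∈ S n, 0 ≤ w n ν)
    (h1 : ∀ n, ∑ ν ∈ S n, w n ν = 1)
    (hA : ∀ q : ℤ, q ≠ 0 → Tendsto (fun n => ∑ ν ∈ S n, (w n ν : ℂ) *
      Complex.exp (I * (q * dirn ν : ℝ))) atTop (𝓝 0))
    (g : C(AddCircle (2 * Real.pi), ℂ)) :
    Tendsto (fun n => ∑ ν ∈ S n, (w n ν : ℂ) * g (dirn ν : AddCircle (2 * Real.pi))) atTop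
      (𝓝 (∫ x : ℝ, g (x : AddCircle (2 * Real.pi)) ∂unif)) := by
  have hci : ∀ g : C(AddCircle (2 * Real.pi), ℂ),
      Integrable (fun x : ℝ => g (x : AddCircle (2 * Real.pi))) unif := fun g =>
    Integrable.of_bound (g.continuous.comp (AddCircle.continuous_mk' _)).aestronglyMeasurable ‖g‖
      (Eventually.of_forall fun x => g.norm_coe_le_norm _)
  have hspan : ∀ p ∈ Submodule.span ℂ (Set.range (@fourier (2 * Real.pi))),
      Tendsto (fun n => ∑ ν ∈ S n, (w n ν : ℂ) * p (dirn ν : AddCircle (2 * Real.pi))) atTop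
      (𝓝 (∫ x : ℝ, p (x : AddCircle (2 * Real.pi)) ∂unif)) := by
    intro p hp
    induction hp using Submodule.span_induction with
    | mem p hp =>
      obtain ⟨q, rfl⟩ := hp
      rcases eq_or_ne q 0 with rfl | hq
      · have h2 : ∀ x : AddCircle (2 * Real.pi), fourier 0 x = (1:ℂ) := fun x => fourier_zero
        simp_rw [h2, mul_one]
        rw [integral_const, probReal_univ, one_smul]
        refine tendsto_const_nhds.congr fun n => ?_
        rw [← Complex.ofReal_sum, h1 n, Complex.ofReal_one]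
      · have h3 : ∫ x : ℝ, fourier q (x : AddCircle (2 * Real.pi)) ∂unif = 0 := by
          rw [integral_unif]
          simp_rw [fourier_two_pi]
          have hc : (I * (q : ℂ)) ≠ 0 := mul_ne_zero Complex.I_ne_zero (by exact_mod_cast hq)
          have h4 : ∀ x : ℝ, Complex.exp (I * ((q * x : ℝ) : ℂ)) =
              Complex.exp (I * (q : ℂ) * x) := fun x => by
            congr 1
            push_cast
            ring
          simp_rw [h4]
          rw [integral_exp_mul_complex hc]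
          have h5 : Complex.exp (I * (q : ℂ) * ((2 * Real.pi : ℝ) : ℂ)) = 1 := by
            rw [show I * (q : ℂ) * ((2 * Real.pi : ℝ) : ℂ) = q * (2 * Real.pi * I) by
              push_cast; ring]
            exact Complex.exp_int_mul_two_pi_mul_I q
          rw [h5]
          simp
        rw [h3]
        simp_rw [fourier_two_pi]
        exact hA q hq
    | zero => simp
    | add p p' _ _ hp hp' =>
      simp only [ContinuousMap.add_apply]
      rw [integral_add (hci p) (hci p')]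
      refine (hp.add hp').congr fun n => ?_
      rw [← Finset.sum_add_distrib]
      exact Finset.sum_congr rfl fun ν _ => by ring
    | smul c p _ hp =>
      simp only [ContinuousMap.smul_apply, smul_eq_mul]
      rw [integral_const_mul]
      refine (hp.const_mul c).congr fun n => ?_
      rw [Finset.mul_sum]
      exact Finset.sum_congr rfl fun ν _ => by ring
  rw [Metric.tendsto_nhds]
  intro ε hε
  have hcl : g ∈ (Submodule.span ℂ (Set.range (@fourier (2 * Real.pi)))).topologicalClosure := by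
    rw [span_fourier_closure_eq_top]
    trivial
  rw [← SetLike.mem_coe, Submodule.topologicalClosure_coe, Metric.mem_closure_iff] at hcl
  obtain ⟨p, hp, hd⟩ := hcl (ε / 4) (by positivity)
  rw [dist_eq_norm] at hd
  have h2 := hspan p hp
  rw [Metric.tendsto_nhds] at h2
  filter_upwards [h2 (ε / 4) (by positivity)] with n hn
  rw [dist_eq_norm] at hn ⊢
  have hb : ∀ x : AddCircle (2 * Real.pi), ‖g x - p x‖ ≤ ε / 4 := fun x =>
    ((g - p).norm_coe_le_norm x).trans hd.le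
  have h3 : ‖∑ ν ∈ S n, (w n ν : ℂ) * g (dirn ν : AddCircle (2 * Real.pi)) -
      ∑ ν ∈ S n, (w n ν : ℂ) * p (dirn ν : AddCircle (2 * Real.pi))‖ ≤ ε / 4 := by
    rw [← Finset.sum_sub_distrib]
    calc _ ≤ ∑ ν ∈ S n, ‖(w n ν : ℂ) * g (dirn ν : AddCircle (2 * Real.pi)) -
          (w n ν : ℂ) * p (dirn ν : AddCircle (2 * Real.pi))‖ := norm_sum_le _ _
      _ ≤ ∑ ν ∈ S n, w n ν * (ε / 4) := by
          refine Finset.sum_le_sum fun ν hν => ?_
          rw [← mul_sub, norm_mul, Complex.norm_real, Real.norm_eq_abs, abs_of_nonneg (hw n ν hν)]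
          exact mul_le_mul_of_nonneg_left (hb _) (hw n ν hν)
      _ = ε / 4 := by rw [← Finset.sum_mul, h1 n, one_mul]
  have h4 : ‖(∫ x : ℝ, p (x : AddCircle (2 * Real.pi)) ∂unif) -
      ∫ x : ℝ, g (x : AddCircle (2 * Real.pi)) ∂unif‖ ≤ ε / 4 := by
    rw [← integral_sub (hci p) (hci g)]
    have h5 := norm_integral_le_of_norm_le_const (μ := unif) (C := ε / 4)
      (f := fun x : ℝ => p (x : AddCircle (2 * Real.pi)) - g (x : AddCircle (2 * Real.pi)))
      (Eventually.of_forall fun x => by rw [norm_sub_rev]; exact hb _)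
    simpa using h5
  calc _ = ‖(∑ ν ∈ S n, (w n ν : ℂ) * g (dirn ν : AddCircle (2 * Real.pi)) -
      ∑ ν ∈ S n, (w n ν : ℂ) * p (dirn ν : AddCircle (2 * Real.pi))) +
      (∑ ν ∈ S n, (w n ν : ℂ) * p (dirn ν : AddCircle (2 * Real.pi)) -
        ∫ x : ℝ, p (x : AddCircle (2 * Real.pi)) ∂unif) +
      ((∫ x : ℝ, p (x : AddCircle (2 * Real.pi)) ∂unif) -
      ∫ x : ℝ, g (x : AddCircle (2 * Real.pi)) ∂unif)‖ := by congr 1; ring
    _ ≤ ε / 4 + ε / 4 + ε / 4 :=
      (norm_add_le _ _).trans (add_le_add ((norm_add_le _ _).trans (add_le_add h3 hn.le)) h4)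
    _ < ε := by linarith

/-- the covariance of a weighted finite set of directions -/
theorem weyl_cov (S : ℕ → Finset GaussianInt) (w : ℕ → GaussianInt → ℝ)
    (hw : ∀ n, ∀ ν ∈ S n, 0 ≤ w n ν) (h1 : ∀ n, ∑ ν ∈ S n, w n ν = 1)
    (hA : ∀ q : ℤ, q ≠ 0 → Tendsto (fun n => ∑ ν ∈ S n, (w n ν : ℂ) *
      Complex.exp (I * (q * dirn ν : ℝ))) atTop (𝓝 0)) (x : ℂ) :
    Tendsto (fun n => ∑ ν ∈ S n, w n ν *
      Real.cos (x.re * Real.cos (dirn ν) + x.im * Real.sin (dirn ν))) atTop (𝓝 (J0 ‖x‖)) := by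
  have hper : Function.Periodic (fun α : ℝ =>
      ((Real.cos (x.re * Real.cos α + x.im * Real.sin α) : ℝ) : ℂ)) (2 * Real.pi) := by
    intro α
    simp only [Real.cos_add_two_pi, Real.sin_add_two_pi]
  have hcont : Continuous hper.lift := by
    refine continuous_coinduced_dom.2 ?_
    show Continuous fun α : ℝ => ((Real.cos (x.re * Real.cos α + x.im * Real.sin α) : ℝ) : ℂ)
    fun_prop
  set g : C(AddCircle (2 * Real.pi), ℂ) := ⟨hper.lift, hcont⟩ with hg
  have hgx : ∀ α : ℝ, g (α : AddCircle (2 * Real.pi)) =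
      ((Real.cos (x.re * Real.cos α + x.im * Real.sin α) : ℝ) : ℂ) := fun α => rfl
  have h2 := weyl S w hw h1 hA g
  simp_rw [hgx] at h2
  rw [integral_complex_ofReal] at h2
  have h3 := (Complex.continuous_re.tendsto _).comp h2
  rw [Complex.ofReal_re] at h3
  have h4 : ∫ α, Real.cos (x.re * Real.cos α + x.im * Real.sin α) ∂unif = J0 ‖x‖ :=
    cov_unif x
  rw [h4] at h3
  refine h3.congr fun n => ?_
  show (∑ ν ∈ S n, (w n ν : ℂ) *
      ((Real.cos (x.re * Real.cos (dirn ν) + x.im * Real.sin (dirn ν)) : ℝ) : ℂ)).re = _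
  rw [Complex.re_sum]
  exact Finset.sum_congr rfl fun ν _ => by rw [← Complex.ofReal_mul, Complex.ofReal_re]

/-- the weights are uniformly small -/
theorem weyl_small (S : ℕ → Finset GaussianInt) (w : ℕ → GaussianInt → ℝ)
    (hw : ∀ n, ∀ ν ∈ S n, 0 ≤ w n ν) (h1 : ∀ n, ∑ ν ∈ S n, w n ν = 1)
    (hA : ∀ q : ℤ, q ≠ 0 → Tendsto (fun n => ∑ ν ∈ S n, (w n ν : ℂ) *
      Complex.exp (I * (q * dirn ν : ℝ))) atTop (𝓝 0)) (ε : ℝ) (hε : 0 < ε) :
    ∀ᶠ n in atTop, ∀ ν ∈ S n, w n ν ≤ ε := by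
  obtain ⟨Q, hQ⟩ := exists_nat_gt (2 / ε)
  have hQ0 : (0:ℝ) < Q := lt_trans (by positivity) hQ
  set A : ℕ → ℤ → ℂ := fun n q => ∑ ν ∈ S n, (w n ν : ℂ) * Complex.exp (I * (q * dirn ν : ℝ)) with hAdef
  -- the off-diagonal terms
  have hoff : Tendsto (fun n => ∑ q ∈ Finset.range Q, ∑ q' ∈ Finset.range Q,
      if q = q' then (0:ℝ) else ‖A n ((q : ℤ) - q')‖) atTop (𝓝 0) := by
    have h2 : (0:ℝ) = ∑ q ∈ Finset.range Q, ∑ q' ∈ Finset.range Q, 0 := by simp
    rw [h2]
    refine tendsto_finsetSum _ fun q _ => tendsto_finsetSum _ fun q' _ => ?_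
    by_cases hqq : q = q'
    · simp [hqq]
    · simp only [if_neg hqq]
      have h3 := (hA ((q : ℤ) - q') (by intro h; exact hqq (by exact_mod_cast sub_eq_zero.1 h))).norm
      rwa [norm_zero] at h3
  filter_upwards [hoff.eventually (eventually_le_nhds one_pos)] with n hn
  intro ν₀ hν₀
  set a : ℝ := dirn ν₀ with ha
  have hkey : ∑ ν ∈ S n, (w n ν : ℂ) * ((‖∑ q ∈ Finset.range Q,
      Complex.exp (I * (q * (dirn ν - a) : ℝ))‖ ^ 2 : ℝ) : ℂ) =
      ∑ q ∈ Finset.range Q, ∑ q' ∈ Finset.range Q,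
        Complex.exp (-(I * ((((q : ℤ) - q') * a : ℝ) : ℂ))) * A n ((q : ℤ) - q') := by
    have h2 : ∀ ν, ((‖∑ q ∈ Finset.range Q, Complex.exp (I * (q * (dirn ν - a) : ℝ))‖ ^ 2 : ℝ) : ℂ) =
        ∑ q ∈ Finset.range Q, ∑ q' ∈ Finset.range Q,
          Complex.exp (-(I * ((((q : ℤ) - q') * a : ℝ) : ℂ))) *
            Complex.exp (I * (((q : ℤ) - q' : ℤ) * dirn ν : ℝ)) := by
      intro ν
      rw [← Complex.normSq_eq_norm_sq, ← Complex.mul_conj, map_sum, Finset.sum_mul_sum]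
      refine Finset.sum_congr rfl fun q _ => Finset.sum_congr rfl fun q' _ => ?_
      rw [← Complex.exp_conj, ← Complex.exp_add, ← Complex.exp_add]
      congr 1
      simp only [map_mul, Complex.conj_I, Complex.conj_ofReal]
      push_cast
      ring
    simp_rw [h2, hAdef, Finset.mul_sum]
    rw [Finset.sum_comm]
    refine Finset.sum_congr rfl fun q _ => ?_
    rw [Finset.sum_comm]
    refine Finset.sum_congr rfl fun q' _ => ?_
    refine Finset.sum_congr rfl fun ν _ => ?_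
    ring
  have hlow : w n ν₀ * (Q:ℝ) ^ 2 ≤ ‖∑ ν ∈ S n, (w n ν : ℂ) * ((‖∑ q ∈ Finset.range Q,
      Complex.exp (I * (q * (dirn ν - a) : ℝ))‖ ^ 2 : ℝ) : ℂ)‖ := by
    have h2 : ∑ ν ∈ S n, (w n ν : ℂ) * ((‖∑ q ∈ Finset.range Q,
      Complex.exp (I * (q * (dirn ν - a) : ℝ))‖ ^ 2 : ℝ) : ℂ) =
      ((∑ ν ∈ S n, w n ν * ‖∑ q ∈ Finset.range Q,
        Complex.exp (I * (q * (dirn ν - a) : ℝ))‖ ^ 2 : ℝ) : ℂ) := by
      push_cast
      rfl
    rw [h2, Complex.norm_real, Real.norm_eq_abs, abs_of_nonneg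
      (Finset.sum_nonneg fun ν hν => mul_nonneg (hw n ν hν) (by positivity))]
    have h3 : ‖∑ q ∈ Finset.range Q, Complex.exp (I * (q * (dirn ν₀ - a) : ℝ))‖ ^ 2 =
        (Q:ℝ) ^ 2 := by
      rw [ha, sub_self]
      simp
    calc w n ν₀ * (Q:ℝ) ^ 2 = w n ν₀ * ‖∑ q ∈ Finset.range Q,
          Complex.exp (I * (q * (dirn ν₀ - a) : ℝ))‖ ^ 2 := by rw [h3]
      _ ≤ _ := Finset.single_le_sum (f := fun ν => w n ν * ‖∑ q ∈ Finset.range Q,
          Complex.exp (I * (q * (dirn ν - a) : ℝ))‖ ^ 2)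
          (fun ν hν => mul_nonneg (hw n ν hν) (by positivity)) hν₀
  have hup : ‖∑ q ∈ Finset.range Q, ∑ q' ∈ Finset.range Q,
        Complex.exp (-(I * ((((q : ℤ) - q') * a : ℝ) : ℂ))) * A n ((q : ℤ) - q')‖ ≤ Q + 1 := by
    have h2 : ∀ q ∈ Finset.range Q, ∀ q' ∈ Finset.range Q,
        ‖Complex.exp (-(I * ((((q : ℤ) - q') * a : ℝ) : ℂ))) * A n ((q : ℤ) - q')‖ ≤
        (if q = q' then (1:ℝ) else 0) + if q = q' then (0:ℝ) else ‖A n ((q : ℤ) - q')‖ := by
      intro q _ q' _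
      have h3 : -(I * ((((q : ℤ) - q') * a : ℝ) : ℂ)) = ((-(((q : ℤ) - q') * a) : ℝ) : ℂ) * I := by
        push_cast
        ring
      rw [norm_mul, h3, Complex.norm_exp_ofReal_mul_I, one_mul]
      by_cases hqq : q = q'
      · rw [if_pos hqq, if_pos hqq, hqq, sub_self, add_zero]
        have h4 : A n 0 = 1 := by
          simp only [hAdef]
          simp only [Int.cast_zero, zero_mul, Complex.ofReal_zero, mul_zero, Complex.exp_zero,
            mul_one]
          rw [← Complex.ofReal_sum, h1 n, Complex.ofReal_one]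
        rw [h4, norm_one]
      · rw [if_neg hqq, if_neg hqq, zero_add]
    calc _ ≤ ∑ q ∈ Finset.range Q, ∑ q' ∈ Finset.range Q,
          ‖Complex.exp (-(I * ((((q : ℤ) - q') * a : ℝ) : ℂ))) * A n ((q : ℤ) - q')‖ :=
          (norm_sum_le _ _).trans (Finset.sum_le_sum fun q _ => norm_sum_le _ _)
      _ ≤ ∑ q ∈ Finset.range Q, ∑ q' ∈ Finset.range Q,
          ((if q = q' then (1:ℝ) else 0) + if q = q' then (0:ℝ) else ‖A n ((q : ℤ) - q')‖) :=
          Finset.sum_le_sum fun q hq => Finset.sum_le_sum fun q' hq' => h2 q hq q' hq'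
      _ = Q + ∑ q ∈ Finset.range Q, ∑ q' ∈ Finset.range Q,
          (if q = q' then (0:ℝ) else ‖A n ((q : ℤ) - q')‖) := by
          simp_rw [Finset.sum_add_distrib]
          congr 1
          rw [Finset.sum_congr rfl fun q hq => by rw [Finset.sum_ite_eq, if_pos hq]]
          simp
      _ ≤ Q + 1 := by linarith
  rw [hkey] at hlow
  have h5 := hlow.trans hup
  have hQ1 : (1:ℝ) ≤ Q := by
    have : 0 < Q := by exact_mod_cast hQ0
    exact_mod_cast this
  rw [div_lt_iff₀ hε] at hQ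
  by_contra hcon
  push Not at hcon
  nlinarith

end

end Pool.Agent.L0h56.BQ
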