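import Pool.Agent.L0h56.BQ.Gi

/-! MP_6b977f_mp: Gaussian limits on arbitrary bounded open sets -/

set_option autoImplicit false
open MeasureTheory Filter Topology Complex Set

namespace Pool.Agent.L0h56.BQ

noncomputable section

/-- integrals of periodic nonnegative functions over bounded sets -/
theorem per_bound (Ω : Set ℂ) (hb : Bornology.IsBounded Ω) :
    ∃ C : ℝ, 0 ≤ C ∧ ∀ f : ℂ → ℝ, Continuous f → (∀ z, 0 ≤ f z) →
      (∀ z, f (z + (2:ℝ)) = f z) → (∀ z, f (z + (2:ℝ) * I) = f z) →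
      ∫ z in Ω, f z ≤ C * ∫ z in cell 2, f z := by
  obtain ⟨R, hR⟩ := hb.subset_ball 0
  obtain ⟨N, hN⟩ := exists_nat_gt R
  refine ⟨((N + 1 : ℕ) * 2 : ℝ) ^ 2, by positivity, fun f hf h0 hp1 hp2 => ?_⟩
  set τ : ℂ := ((N + 1 : ℕ) : ℂ) * (2:ℝ) + ((N + 1 : ℕ) : ℂ) * ((2:ℝ) * I) with hτ
  set s : ℝ := ((N + 1) * 2 : ℕ) * 2 with hs
  have hs0 : 0 ≤ s := by positivity
  have hq1 : ∀ (j : ℕ) z, f (z + (j : ℂ) * (2:ℝ)) = f z := by
    intro j
    induction j with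
    | zero => intro z; simp
    | succ j ih =>
      intro z
      rw [← ih z, ← hp1 (z + (j : ℂ) * (2:ℝ))]
      congr 1
      push_cast
      ring
  have hq2 : ∀ (j : ℕ) z, f (z + (j : ℂ) * ((2:ℝ) * I)) = f z := by
    intro j
    induction j with
    | zero => intro z; simp
    | succ j ih =>
      intro z
      rw [← ih z, ← hp2 (z + (j : ℂ) * ((2:ℝ) * I))]
      congr 1
      push_cast
      ring
  have hqτ : ∀ z, f (z + τ) = f z := fun z => by
    rw [hτ, ← add_assoc, hq2, hq1]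
  have hsub : Ω ⊆ (fun z => z + τ) ⁻¹' (cell s) := by
    intro z hz
    have h1 := hR hz
    rw [mem_ball_zero_iff] at h1
    have h2 := (Complex.abs_re_le_norm z).trans h1.le
    have h3 := (Complex.abs_im_le_norm z).trans h1.le
    rw [abs_le] at h2 h3
    have hτr : τ.re = (N + 1) * 2 := by rw [hτ]; simp
    have hτi : τ.im = (N + 1) * 2 := by rw [hτ]; simp
    have hs' : s = (N + 1) * 4 := by rw [hs]; push_cast; ring
    show (z + τ).re ∈ Ioc 0 s ∧ (z + τ).im ∈ Ioc 0 s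
    rw [Complex.add_re, Complex.add_im, hτr, hτi, hs']
    refine ⟨⟨?_, ?_⟩, ?_, ?_⟩ <;> nlinarith
  have hint : IntegrableOn f ((fun z => z + τ) ⁻¹' (cell s)) := by
    refine (hf.continuousOn.integrableOn_compact
      (isCompact_closedBall (0:ℂ) (2 * |s| + ‖τ‖))).mono_set ?_
    intro z hz
    have h1 := cell_sub s hz
    rw [mem_closedBall_zero_iff] at h1 ⊢
    calc ‖z‖ = ‖(z + τ) - τ‖ := by congr 1; ring
      _ ≤ ‖z + τ‖ + ‖τ‖ := norm_sub_le _ _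
      _ ≤ _ := by linarith
  have h1 : ∫ z in Ω, f z ≤ ∫ z in (fun z => z + τ) ⁻¹' (cell s), f z :=
    setIntegral_mono_set hint (Eventually.of_forall fun z => h0 z)
      (Eventually.of_forall fun z hz => hsub hz)
  have h2 : ∫ z in (fun z => z + τ) ⁻¹' (cell s), f z = ∫ z in cell s, f z := by
    have h4 := (measurePreserving_add_right (volume : Measure ℂ) τ).setIntegral_preimage_emb
      (measurableEmbedding_addRight τ) f (cell s)
    rw [← h4]
    exact integral_congr_ae (Eventually.of_forall fun z => (hqτ z).symm)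
  have h3 : ∫ z in cell s, f z = (((N + 1 : ℕ) * 2 : ℝ) ^ 2) * ∫ z in cell 2, f z := by
    have hfc : Continuous fun z => (f z : ℂ) := Complex.continuous_ofReal.comp hf
    have hper : Per 2 fun z => (f z : ℂ) := by
      constructor
      · intro z
        show ((f (z + ((2:ℝ) : ℂ)) : ℝ) : ℂ) = f z
        rw [hp1]
      · intro z
        show ((f (z + ((2:ℝ) : ℂ) * I) : ℝ) : ℂ) = f z
        rw [hp2]
    have h5 := sq_mul 2 (fun z => (f z : ℂ)) hfc hper ((N + 1) * 2)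
    have h6 := cell_int s hs0 _ hfc
    have h7 := cell_int 2 (by norm_num) _ hfc
    have h8 : (((N + 1) * 2 : ℕ) : ℝ) * 2 = s := hs.symm
    rw [h8, ← h6, ← h7] at h5
    have h9 : ∀ S : Set ℂ, ∫ z in S, (f z : ℂ) = ((∫ z in S, f z : ℝ) : ℂ) :=
      fun S => integral_complex_ofReal
    rw [h9, h9] at h5
    have h10 : ((∫ z in cell s, f z : ℝ) : ℂ) =
        (((((N + 1 : ℕ) * 2 : ℝ) ^ 2) * ∫ z in cell 2, f z : ℝ) : ℂ) := by
      rw [h5]
      push_cast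
      ring
    exact_mod_cast h10
  rw [← h3, ← h2]
  exact h1

/-- `L²` norm of a trigonometric polynomial -/
theorem parseval (S : Finset GaussianInt) (c : GaussianInt → ℂ) :
    ∫ z in cell 2, ‖∑ ν ∈ S, c ν * ch ν z‖ ^ 2 = 4 * ∑ ν ∈ S, ‖c ν‖ ^ 2 := by
  classical
  refine real_int ?_
  have h1 : ∀ z, ((‖∑ ν ∈ S, c ν * ch ν z‖ ^ 2 : ℝ) : ℂ) =
      ∑ ν ∈ S, ∑ ν' ∈ S, (c ν * (starRingEnd ℂ) (c ν')) * ch (ν + -ν') z := by
    intro z
    rw [← Complex.normSq_eq_norm_sq, ← Complex.mul_conj, map_sum, Finset.sum_mul_sum]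
    refine Finset.sum_congr rfl fun ν _ => Finset.sum_congr rfl fun ν' _ => ?_
    rw [map_mul, ch_add, ch_neg]
    ring
  simp_rw [h1]
  rw [csum S (fun ν z => ∑ ν' ∈ S, (c ν * (starRingEnd ℂ) (c ν')) * ch (ν + -ν') z)
    (fun ν _ => continuous_finsetSum _ fun ν' _ => continuous_const.mul (ch_cont _))]
  push_cast
  rw [Finset.mul_sum]
  refine Finset.sum_congr rfl fun ν hν => ?_
  rw [csum S (fun ν' z => (c ν * (starRingEnd ℂ) (c ν')) * ch (ν + -ν') z)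
    (fun ν' _ => continuous_const.mul (ch_cont _)), Finset.sum_eq_single ν]
  · rw [integral_const_mul, int_ch, if_pos (add_neg_cancel ν), Complex.mul_conj,
      Complex.normSq_eq_norm_sq]
    push_cast
    ring
  · intro ν' _ hne
    rw [integral_const_mul, int_ch, if_neg, mul_zero]
    intro h
    exact hne (neg_inj.1 (eq_neg_of_add_eq_zero_right h)).symm.symm
  · intro h
    exact absurd hν h

theorem exp_lip (x y : ℝ) : ‖Complex.exp (I * x) - Complex.exp (I * y)‖ ≤ |x - y| := by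
  have h1 : Complex.exp (I * x) - Complex.exp (I * y) =
      Complex.exp (I * y) * (Complex.exp (I * ((x - y : ℝ) : ℂ)) - 1) := by
    rw [mul_sub, mul_one, ← Complex.exp_add]
    congr 2
    push_cast
    ring
  rw [h1, norm_mul, mul_comm I (y : ℂ), Complex.norm_exp_ofReal_mul_I, one_mul,
    ]
  exact Real.norm_exp_I_mul_ofReal_sub_one_le

theorem real_of_sym (S : Finset GaussianInt) (c : GaussianInt → ℂ) (hS : ∀ ν ∈ S, -ν ∈ S)
    (hc : ∀ ν, c (-ν) = (starRingEnd ℂ) (c ν)) (z : ℂ) :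
    ((∑ ν ∈ S, c ν * ch ν z).re : ℂ) = ∑ ν ∈ S, c ν * ch ν z :=
  Y_re (ι := Unit) (fun _ => S) c (fun _ => hS) hc () z

/-- **Gaussian limits**: eigenfunctions of the flat torus with eigenvalues `π² m p^k` and small
coefficients, on every bounded open set -/
theorem gauss_lim {p : ℕ} {ϖ : GaussianInt} (h : Spl p ϖ) (hp1 : 1 < p) (m : ℕ) (hm : 0 < m)
    (k : ℕ → ℕ) (c : ℕ → GaussianInt → ℂ)
    (hc : ∀ n ν, c n (-ν) = (starRingEnd ℂ) (c n ν)) (κ : ℕ → ℝ)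
    (hκ : Tendsto κ atTop (𝓝 0)) (hcκ : ∀ n, ∀ ν ∈ V (m * p ^ k n), ‖c n ν‖ ≤ κ n)
    (v : ℝ) (hv : Tendsto (fun n => ∑ ν ∈ V (m * p ^ k n), ‖c n ν‖ ^ 2) atTop (𝓝 v))
    (Ω : Set ℂ) (ho : IsOpen Ω) (hb : Bornology.IsBounded Ω) :
    Tendsto (fun n => ∫ z in Ω, Complex.exp (I * ∑ ν ∈ V (m * p ^ k n), c n ν * ch ν z)) atTop
      (𝓝 ((volume.real Ω : ℂ) * Complex.exp ((-v / 2 : ℝ)))) := by
  classical
  have hvol : volume Ω ≠ ⊤ := hb.measure_lt_top.ne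
  have : IsFiniteMeasure (volume.restrict Ω) := ⟨by simpa using hvol.lt_top⟩
  obtain ⟨CΩ, hCΩ, hper⟩ := per_bound Ω hb
  set M : ℝ := volume.real Ω with hM
  have hM0 : 0 ≤ M := measureReal_nonneg
  -- bounded variance
  obtain ⟨C0, hC0⟩ : ∃ C0 : ℝ, ∀ᶠ n in atTop, ∑ ν ∈ V (m * p ^ k n), ‖c n ν‖ ^ 2 ≤ C0 :=
    ⟨v + 1, hv.eventually (eventually_le_nhds (by linarith))⟩
  obtain ⟨g, hg⟩ : ∃ g : ℕ, 4 * m < p ^ (g + 1) := by
    obtain ⟨g, hg⟩ := pow_unbounded_of_one_lt (4 * m) hp1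
    exact ⟨g, hg.trans (Nat.pow_lt_pow_right hp1 (Nat.lt_succ_self g))⟩
  suffices hmain : ∀ ε : ℝ, 0 < ε → ε ≤ 1 → ∀ᶠ n in atTop,
      ‖(∫ z in Ω, Complex.exp (I * ∑ ν ∈ V (m * p ^ k n), c n ν * ch ν z)) -
        (M : ℂ) * Complex.exp ((-v / 2 : ℝ))‖ ≤ ((4 * CΩ + M) / 2 + 1 + M + 2 * M) * ε by
    rw [Metric.tendsto_nhds]
    intro ε hε
    set K : ℝ := (4 * CΩ + M) / 2 + 1 + M + 2 * M with hK
    have hK0 : 0 < K := by positivity
    refine (hmain (min 1 (ε / (2 * K))) (by positivity) (min_le_left _ _)).mono fun n hn => ?_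
    rw [dist_eq_norm]
    refine hn.trans_lt ?_
    calc K * min 1 (ε / (2 * K)) ≤ K * (ε / (2 * K)) :=
          mul_le_mul_of_nonneg_left (min_le_right _ _) hK0.le
      _ = ε / 2 := by field_simp
      _ < ε := by linarith
  intro ε hε hε1
  -- period of the gaps
  obtain ⟨D, hD, hgD⟩ : ∃ D : ℕ, 0 < D ∧ (g : ℝ) / D * |C0| ≤ ε ^ 2 / 2 := by
    obtain ⟨D, hD⟩ := exists_nat_gt ((g : ℝ) * |C0| / (ε ^ 2 / 2))
    have hD0 : (0:ℝ) < D := lt_of_le_of_lt (by positivity) hD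
    refine ⟨D, by exact_mod_cast hD0, ?_⟩
    rw [div_lt_iff₀ (by positivity)] at hD
    rw [div_mul_eq_mul_div, div_le_iff₀ hD0]
    linarith
  -- localisation
  obtain ⟨s0, hs0, hloc⟩ := loc Ω ho hvol ε hε
  obtain ⟨A, hA⟩ : ∃ A : ℕ, (2 : ℝ) / ((p ^ A : ℕ) : ℝ) ≤ s0 := by
    obtain ⟨A, hA⟩ := pow_unbounded_of_one_lt (2 / s0) (by exact_mod_cast hp1 : (1:ℝ) < p)
    refine ⟨A, ?_⟩
    have hpA : (0:ℝ) < (p:ℝ) ^ A := by positivity
    rw [div_lt_iff₀ hs0] at hA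
    push_cast
    rw [div_le_iff₀ hpA]
    linarith
  set q : ℕ := (V m).card with hq
  set W0 : ℝ := (q * D + 1) * |C0| with hW0
  have hW00 : 0 ≤ W0 := by positivity
  obtain ⟨δ, hδ0, hδ1, hδ2⟩ : ∃ δ : ℝ, 0 < δ ∧ δ ≤ 1 / 2 ∧
      Real.exp (W0 / 2) * (1 + 5 * W0) * δ ≤ ε := by
    have hK : 0 < Real.exp (W0 / 2) * (1 + 5 * W0) := by positivity
    refine ⟨min (1 / 2) (ε / (Real.exp (W0 / 2) * (1 + 5 * W0))), by positivity,
      min_le_left _ _, ?_⟩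
    calc _ ≤ Real.exp (W0 / 2) * (1 + 5 * W0) * (ε / (Real.exp (W0 / 2) * (1 + 5 * W0))) :=
          mul_le_mul_of_nonneg_left (min_le_right _ _) hK.le
      _ = ε := by field_simp
  -- conditions on `n`
  have hn1 : ∀ᶠ n in atTop, (q * D : ℝ) * κ n ≤ δ := by
    have h1 : Tendsto (fun n => (q * D : ℝ) * κ n) atTop (𝓝 ((q * D : ℝ) * 0)) := hκ.const_mul _
    rw [mul_zero] at h1
    exact h1.eventually (eventually_le_nhds hδ0)
  have hn2 : ∀ᶠ n in atTop, (q * (2 * A) : ℝ) * κ n ^ 2 ≤ ε ^ 2 / 2 := by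
    have h1 : Tendsto (fun n => (q * (2 * A) : ℝ) * κ n ^ 2) atTop
        (𝓝 ((q * (2 * A) : ℝ) * 0 ^ 2)) := (hκ.pow 2).const_mul _
    rw [zero_pow two_ne_zero, mul_zero] at h1
    exact h1.eventually (eventually_le_nhds (by positivity))
  have hn3 : ∀ᶠ n in atTop, |∑ ν ∈ V (m * p ^ k n), ‖c n ν‖ ^ 2 - v| ≤ ε := by
    rw [Metric.tendsto_nhds] at hv
    exact (hv ε hε).mono fun n hn => by rw [Real.dist_eq] at hn; exact hn.le
  filter_upwards [hC0, hn1, hn2, hn3] with n hC0n hn1 hn2 hn3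
  set Vn := V (m * p ^ k n) with hVn
  set cn := c n with hcn
  have hcn' := hc n
  set vn := ∑ ν ∈ Vn, ‖cn ν‖ ^ 2 with hvn
  have hvn0 : 0 ≤ vn := Finset.sum_nonneg fun _ _ => by positivity
  have hvnC : vn ≤ |C0| := hC0n.trans (le_abs_self _)
  obtain ⟨t₀, ht₀, hgap⟩ := gap_shift ϖ (k n) D g hD Vn (fun ν => ‖cn ν‖ ^ 2)
    (fun ν _ => by positivity)
  set G := Good ϖ m p (k n) A D g t₀ with hG
  have hGV : G ⊆ Vn := Finset.filter_subset _ _
  set B := Bl ϖ m p (k n) A D g t₀ with hB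
  set s := Finset.range (k n + D) with hs
  have hmaps : ∀ ν ∈ G, blk ϖ (k n) D t₀ ν ∈ s := by
    intro ν _
    rw [hs, Finset.mem_range]
    unfold blk
    have h1 := idx_le ϖ (k n) ν
    exact (Nat.div_le_self _ _).trans_lt (by omega)
  have hBG : ∀ (f : GaussianInt → ℝ), ∑ b ∈ s, ∑ ν ∈ B b, f ν = ∑ ν ∈ G, f ν := fun f =>
    Finset.sum_fiberwise_of_maps_to hmaps f
  have hBGc : ∀ (f : GaussianInt → ℂ), ∑ b ∈ s, ∑ ν ∈ B b, f ν = ∑ ν ∈ G, f ν := fun f =>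
    Finset.sum_fiberwise_of_maps_to hmaps f
  have hBsub : ∀ b, B b ⊆ G := fun b => Finset.filter_subset _ _
  have hcard : ∀ b, ((B b).card : ℝ) ≤ q * D := fun b => by
    exact_mod_cast h.card_Bl m (k n) A D g t₀ b hD
  have hsym : ∀ b, ∀ ν ∈ B b, -ν ∈ B b := fun b ν hν => Bl_neg m (k n) A D g t₀ b ν hν
  -- the bad frequencies
  set Bad := Vn \ G with hBad
  have hbad : ∑ ν ∈ Bad, ‖cn ν‖ ^ 2 ≤ ε ^ 2 := by
    have h1 : Bad ⊆ Vn.filter (fun ν => ¬ g ≤ (idx ϖ (k n) ν + t₀) % D) ∪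
        Vn.filter fun ν => ¬ (A ≤ idx ϖ (k n) ν ∧ idx ϖ (k n) ν + A ≤ k n) := by
      intro ν hν
      rw [hBad, Finset.mem_sdiff] at hν
      rw [Finset.mem_union, Finset.mem_filter, Finset.mem_filter]
      by_cases h2 : g ≤ (idx ϖ (k n) ν + t₀) % D
      · right
        refine ⟨hν.1, fun h3 => hν.2 ?_⟩
        rw [hG]
        exact Finset.mem_filter.2 ⟨hν.1, h3.1, h3.2, h2⟩
      · left
        exact ⟨hν.1, h2⟩
    have h2 : ∑ ν ∈ Vn.filter (fun ν => ¬ (A ≤ idx ϖ (k n) ν ∧ idx ϖ (k n) ν + A ≤ k n)),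
        ‖cn ν‖ ^ 2 ≤ ε ^ 2 / 2 := by
      calc _ ≤ ∑ ν ∈ Vn.filter (fun ν => ¬ (A ≤ idx ϖ (k n) ν ∧ idx ϖ (k n) ν + A ≤ k n)),
            κ n ^ 2 := Finset.sum_le_sum fun ν hν =>
              pow_le_pow_left₀ (norm_nonneg _) (hcκ n ν (Finset.mem_filter.1 hν).1) 2
        _ = ((Vn.filter fun ν => ¬ (A ≤ idx ϖ (k n) ν ∧ idx ϖ (k n) ν + A ≤ k n)).card : ℝ) *
            κ n ^ 2 := by rw [Finset.sum_const, nsmul_eq_mul]
        _ ≤ (q * (2 * A) : ℝ) * κ n ^ 2 := by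
            refine mul_le_mul_of_nonneg_right ?_ (sq_nonneg _)
            exact_mod_cast h.card_ext m (k n) A
        _ ≤ ε ^ 2 / 2 := hn2
    have h3 : ∑ ν ∈ Vn.filter (fun ν => ¬ g ≤ (idx ϖ (k n) ν + t₀) % D), ‖cn ν‖ ^ 2 ≤
        ε ^ 2 / 2 := by
      refine hgap.trans (le_trans ?_ hgD)
      exact mul_le_mul_of_nonneg_left hvnC (by positivity)
    calc ∑ ν ∈ Bad, ‖cn ν‖ ^ 2 ≤ ∑ ν ∈ Vn.filter (fun ν => ¬ g ≤ (idx ϖ (k n) ν + t₀) % D) ∪
        Vn.filter (fun ν => ¬ (A ≤ idx ϖ (k n) ν ∧ idx ϖ (k n) ν + A ≤ k n)), ‖cn ν‖ ^ 2 :=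
          Finset.sum_le_sum_of_subset_of_nonneg h1 fun _ _ _ => by positivity
      _ ≤ _ := by
          have h4 := Finset.sum_union_inter
            (s₁ := Vn.filter (fun ν => ¬ g ≤ (idx ϖ (k n) ν + t₀) % D))
            (s₂ := Vn.filter fun ν => ¬ (A ≤ idx ϖ (k n) ν ∧ idx ϖ (k n) ν + A ≤ k n))
            (f := fun ν => ‖cn ν‖ ^ 2)
          have h5 : 0 ≤ ∑ ν ∈ Vn.filter (fun ν => ¬ g ≤ (idx ϖ (k n) ν + t₀) % D) ∩
            Vn.filter (fun ν => ¬ (A ≤ idx ϖ (k n) ν ∧ idx ϖ (k n) ν + A ≤ k n)), ‖cn ν‖ ^ 2 :=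
            Finset.sum_nonneg fun _ _ => by positivity
          linarith
  have hsplit : vn = ∑ ν ∈ G, ‖cn ν‖ ^ 2 + ∑ ν ∈ Bad, ‖cn ν‖ ^ 2 := by
    rw [hBad, add_comm, hvn]
    exact (Finset.sum_sdiff hGV).symm
  set vg := ∑ ν ∈ G, ‖cn ν‖ ^ 2 with hvg
  have hvg0 : 0 ≤ vg := Finset.sum_nonneg fun _ _ => by positivity
  have hvgb : ∑ b ∈ s, vb B cn b = vg := hBG fun ν => ‖cn ν‖ ^ 2
  -- the central limit theorem
  have hnbad0 : 0 ≤ ∑ ν ∈ Bad, ‖cn ν‖ ^ 2 := Finset.sum_nonneg fun _ _ => by positivity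
  have hXg : ∀ z, ∑ b ∈ s, Y B cn b z = ∑ ν ∈ G, cn ν * ch ν z := fun z =>
    hBGc fun ν => cn ν * ch ν z
  have hclt := clt B cn hsym hcn' s
    (fun b _ => h.zero_notMem m (k n) A D g t₀ b hm) (h.diss m (k n) A D g t₀ hg ht₀ s)
    δ W0 hδ0 hδ1 ?_ ?_ ?_
  rotate_left
  · intro b _ z
    calc ‖Y B cn b z‖ ≤ ∑ ν ∈ B b, ‖cn ν * ch ν z‖ := norm_sum_le _ _
      _ ≤ ∑ ν ∈ B b, κ n := by
        refine Finset.sum_le_sum fun ν hν => ?_
        rw [norm_mul, norm_ch, mul_one]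
        exact hcκ n ν (hGV (hBsub b hν))
      _ = (B b).card * κ n := by rw [Finset.sum_const, nsmul_eq_mul]
      _ ≤ (q * D : ℝ) * κ n := by
        rcases (B b).eq_empty_or_nonempty with h1 | ⟨ν, hν⟩
        · rw [h1, Finset.card_empty, Nat.cast_zero, zero_mul]
          rcases Vn.eq_empty_or_nonempty with h2 | ⟨ν, hν⟩
          · have h3 : (V m).card = 0 := by
              rw [Finset.card_eq_zero, Finset.eq_empty_iff_forall_notMem]
              intro μ hμ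
              have h4 : ϖ ^ k n * μ ∈ Vn := by
                rw [hVn, mem_V, Zsqrtd.norm_mul, mem_V.1 hμ]
                have h5 := h.norm_pow_mul (k n) 0
                rw [pow_zero, mul_one, add_zero] at h5
                rw [h5]
                push_cast
                ring
              rw [h2] at h4
              simp at h4
            rw [hq, h3]
            simp
          · have h3 : 0 ≤ κ n := (norm_nonneg _).trans (hcκ n ν hν)
            positivity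
        · have h3 : 0 ≤ κ n := (norm_nonneg _).trans (hcκ n ν (hGV (hBsub b hν)))
          exact mul_le_mul_of_nonneg_right (hcard b) h3
      _ ≤ δ := hn1
  · intro z
    calc ∑ b ∈ s, ‖Y B cn b z‖ ^ 2 ≤ ∑ b ∈ s, (q * D : ℝ) * ∑ ν ∈ B b, ‖cn ν‖ ^ 2 := by
          refine Finset.sum_le_sum fun b _ => ?_
          have h1 : ‖Y B cn b z‖ ≤ ∑ ν ∈ B b, ‖cn ν‖ := by
            refine (norm_sum_le _ _).trans (Finset.sum_le_sum fun ν _ => ?_)
            rw [norm_mul, norm_ch, mul_one]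
          calc ‖Y B cn b z‖ ^ 2 ≤ (∑ ν ∈ B b, ‖cn ν‖) ^ 2 :=
                pow_le_pow_left₀ (norm_nonneg _) h1 2
            _ ≤ (B b).card * ∑ ν ∈ B b, ‖cn ν‖ ^ 2 := sq_sum_le_card_mul_sum_sq
            _ ≤ _ := mul_le_mul_of_nonneg_right (hcard b)
                (Finset.sum_nonneg fun _ _ => by positivity)
      _ = (q * D : ℝ) * vg := by
          rw [← Finset.mul_sum, hBG fun ν => ‖cn ν‖ ^ 2]
      _ ≤ W0 := by
          rw [hW0]
          have h1 : vg ≤ |C0| := by linarith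
          have h2 : (q * D : ℝ) * vg ≤ (q * D : ℝ) * |C0| :=
            mul_le_mul_of_nonneg_left h1 (by positivity)
          have h3 := abs_nonneg C0
          nlinarith
  · rw [hvgb, hW0]
    have h1 : vg ≤ |C0| := by linarith
    have h2 : 0 ≤ (q * D : ℝ) * |C0| := by positivity
    linarith
  rw [hvgb] at hclt
  simp_rw [hXg] at hclt
  have hclt2 := hclt.trans hδ2
  -- the localised integral
  set F : ℂ → ℂ := fun z => Complex.exp (I * ∑ ν ∈ G, cn ν * ch ν z) with hF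
  have hGsym : ∀ ν ∈ G, -ν ∈ G := by
    intro ν hν
    have h1 : ν ∈ B (blk ϖ (k n) D t₀ ν) := Finset.mem_filter.2 ⟨hν, rfl⟩
    exact hBsub _ (hsym _ ν h1)
  have hVsym : ∀ ν ∈ Vn, -ν ∈ Vn := fun ν hν => neg_mem_V hν
  have hFc : Continuous F := by
    rw [hF]
    exact (continuous_const.mul (continuous_finsetSum _ fun ν _ =>
      continuous_const.mul (ch_cont ν))).cexp
  have hF1 : ∀ z, ‖F z‖ ≤ 1 := fun z => by
    rw [hF]
    show ‖Complex.exp (I * ∑ ν ∈ G, cn ν * ch ν z)‖ ≤ 1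
    rw [← real_of_sym G cn hGsym hcn' z, mul_comm, Complex.norm_exp_ofReal_mul_I]
  have hP0 : 0 < p ^ A := pow_pos h.p_pos A
  have hPerG : ∀ ν ∈ G, Per (2 / ((p ^ A : ℕ) : ℝ)) (ch ν) := fun ν hν =>
    ch_per ν (p ^ A) hP0 (h.good_dvd m (k n) A D g t₀ ν hν)
  have hFper : Per (2 / ((p ^ A : ℕ) : ℝ)) F := by
    constructor
    · intro z
      show Complex.exp _ = Complex.exp _
      congr 2
      exact Finset.sum_congr rfl fun ν hν => by rw [(hPerG ν hν).1 z]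
    · intro z
      show Complex.exp _ = Complex.exp _
      congr 2
      exact Finset.sum_congr rfl fun ν hν => by rw [(hPerG ν hν).2 z]
  have hsA : (0:ℝ) < 2 / ((p ^ A : ℕ) : ℝ) := by
    have : (0:ℝ) < ((p ^ A : ℕ) : ℝ) := by exact_mod_cast hP0
    positivity
  have hl := hloc _ hsA hA F hFc hF1 hFper
  have hscale : sq (2 / ((p ^ A : ℕ) : ℝ)) F / (((2 / ((p ^ A : ℕ) : ℝ) : ℝ)) : ℂ) ^ 2 =
      (∫ z in cell 2, F z) / 4 := by
    have h1 := sq_mul (2 / ((p ^ A : ℕ) : ℝ)) F hFc hFper (p ^ A)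
    have h2 : ((p ^ A : ℕ) : ℝ) * (2 / ((p ^ A : ℕ) : ℝ)) = 2 := by
      have : ((p ^ A : ℕ) : ℝ) ≠ 0 := by exact_mod_cast hP0.ne'
      field_simp
    rw [h2, ← cell_int 2 (by norm_num) F hFc] at h1
    rw [h1]
    have h3 : ((p ^ A : ℕ) : ℂ) ≠ 0 := by exact_mod_cast hP0.ne'
    push_cast at h3 ⊢
    field_simp
    norm_num
  rw [hscale] at hl
  -- the remainder
  have hrem : ‖(∫ z in Ω, Complex.exp (I * ∑ ν ∈ Vn, cn ν * ch ν z)) - ∫ z in Ω, F z‖ ≤
      (4 * CΩ + M) / 2 * ε := by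
    have hVc : Continuous fun z => Complex.exp (I * ∑ ν ∈ Vn, cn ν * ch ν z) :=
      (continuous_const.mul (continuous_finsetSum _ fun ν _ =>
      continuous_const.mul (ch_cont ν))).cexp
    have hV1 : ∀ z, ‖Complex.exp (I * ∑ ν ∈ Vn, cn ν * ch ν z)‖ ≤ 1 := fun z => by
      rw [← real_of_sym Vn cn hVsym hcn' z, mul_comm, Complex.norm_exp_ofReal_mul_I]
    have hi1 : Integrable (fun z => Complex.exp (I * ∑ ν ∈ Vn, cn ν * ch ν z))
        (volume.restrict Ω) :=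
      Integrable.of_bound hVc.aestronglyMeasurable 1 (Eventually.of_forall hV1)
    have hi2 : Integrable F (volume.restrict Ω) :=
      Integrable.of_bound hFc.aestronglyMeasurable 1 (Eventually.of_forall hF1)
    rw [← integral_sub hi1 hi2]
    set Z : ℂ → ℂ := fun z => ∑ ν ∈ Bad, cn ν * ch ν z with hZ
    have hZc : Continuous Z := continuous_finsetSum _ fun ν _ => continuous_const.mul (ch_cont ν)
    have hZi : ∀ f : ℂ → ℝ, Continuous f → Integrable f (volume.restrict Ω) := by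
      intro f hf
      obtain ⟨R, hR⟩ := hb.subset_ball 0
      exact (hf.continuousOn.integrableOn_compact (isCompact_closedBall 0 R)).mono_set
        (hR.trans Metric.ball_subset_closedBall)
    have h1 : ∀ z, ‖Complex.exp (I * ∑ ν ∈ Vn, cn ν * ch ν z) - F z‖ ≤
        (ε⁻¹ * ‖Z z‖ ^ 2 + ε) / 2 := by
      intro z
      have h2 : ∑ ν ∈ Vn, cn ν * ch ν z - ∑ ν ∈ G, cn ν * ch ν z = Z z := by
        rw [hZ, ← Finset.sum_sdiff hGV]
        ring
      have h3 : ‖Complex.exp (I * ∑ ν ∈ Vn, cn ν * ch ν z) - F z‖ ≤ ‖Z z‖ := by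
        rw [← h2, ← real_of_sym Vn cn hVsym hcn' z]
        show ‖_ - Complex.exp (I * ∑ ν ∈ G, cn ν * ch ν z)‖ ≤ _
        rw [← real_of_sym G cn hGsym hcn' z, ← Complex.ofReal_sub, Complex.norm_real,
          Real.norm_eq_abs]
        exact exp_lip _ _
      have h4 : 0 ≤ ε⁻¹ * (‖Z z‖ - ε) ^ 2 := by positivity
      have h5 : ε⁻¹ * (‖Z z‖ - ε) ^ 2 = ε⁻¹ * ‖Z z‖ ^ 2 - 2 * ‖Z z‖ + ε := by
        field_simp
        ring
      linarith
    have hZp : ∀ ν : GaussianInt, Per 2 (ch ν) := by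
      intro ν
      have := ch_per ν 1 one_pos (by simp)
      simpa using this
    have h6 : ∫ z in Ω, ‖Z z‖ ^ 2 ≤ CΩ * (4 * ε ^ 2) := by
      have h7 := hper (fun z => ‖Z z‖ ^ 2) (by fun_prop) (fun z => by positivity)
        (fun z => by
          show ‖Z (z + (2:ℝ))‖ ^ 2 = ‖Z z‖ ^ 2
          congr 2
          exact Finset.sum_congr rfl fun ν _ => by rw [(hZp ν).1 z])
        (fun z => by
          show ‖Z (z + (2:ℝ) * I)‖ ^ 2 = ‖Z z‖ ^ 2
          congr 2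
          exact Finset.sum_congr rfl fun ν _ => by rw [(hZp ν).2 z])
      refine h7.trans (mul_le_mul_of_nonneg_left ?_ hCΩ)
      rw [hZ, parseval]
      linarith
    calc ‖∫ z in Ω, (Complex.exp (I * ∑ ν ∈ Vn, cn ν * ch ν z) - F z)‖
        ≤ ∫ z in Ω, ‖Complex.exp (I * ∑ ν ∈ Vn, cn ν * ch ν z) - F z‖ :=
          norm_integral_le_integral_norm _
      _ ≤ ∫ z in Ω, (ε⁻¹ * ‖Z z‖ ^ 2 + ε) / 2 :=
          integral_mono (hi1.sub hi2).norm (hZi _ (by fun_prop)) h1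
      _ = (ε⁻¹ * (∫ z in Ω, ‖Z z‖ ^ 2) + M * ε) / 2 := by
          rw [integral_div, integral_add (hZi _ (by fun_prop)) (integrable_const _),
            integral_const_mul, setIntegral_const, smul_eq_mul]
      _ ≤ (ε⁻¹ * (CΩ * (4 * ε ^ 2)) + M * ε) / 2 := by gcongr
      _ = (4 * CΩ + M) / 2 * ε := by field_simp
  -- conclusion
  have hstep : ‖(M : ℂ) * ((∫ z in cell 2, F z) / 4) - (M : ℂ) * Complex.exp ((-vg / 2 : ℝ))‖ ≤
      M * ε := by
    have h1 : (M : ℂ) * ((∫ z in cell 2, F z) / 4) - (M : ℂ) * Complex.exp ((-vg / 2 : ℝ)) =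
        (M : ℂ) / 4 * ((∫ z in cell 2, F z) - 4 * Complex.exp ((-vg / 2 : ℝ))) := by ring
    rw [h1, norm_mul, norm_div, Complex.norm_real, Real.norm_eq_abs, abs_of_nonneg hM0]
    have h2 : ‖(4:ℂ)‖ = 4 := by simp
    rw [h2]
    calc M / 4 * ‖(∫ z in cell 2, F z) - 4 * Complex.exp ((-vg / 2 : ℝ))‖ ≤ M / 4 * ε :=
          mul_le_mul_of_nonneg_left hclt2 (by positivity)
      _ ≤ M * ε := by nlinarith
  have hlast : ‖(M : ℂ) * Complex.exp ((-vg / 2 : ℝ)) - (M : ℂ) * Complex.exp ((-v / 2 : ℝ))‖ ≤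
      2 * M * ε := by
    rw [← mul_sub, norm_mul, Complex.norm_real, Real.norm_eq_abs, abs_of_nonneg hM0,
      ← Complex.ofReal_exp, ← Complex.ofReal_exp, ← Complex.ofReal_sub, Complex.norm_real,
      Real.norm_eq_abs]
    have hv0 : 0 ≤ v := ge_of_tendsto' hv fun n => Finset.sum_nonneg fun _ _ => by positivity
    have h1 := exp_diff (-vg / 2) (-v / 2) 0 (by linarith) (by linarith)
    rw [Real.exp_zero, one_mul] at h1
    have h2 : |(-vg / 2) - (-v / 2)| ≤ 2 * ε := by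
      have h3 : (-vg / 2) - (-v / 2) = ((vn - vg) - (vn - v)) / 2 := by ring
      have h4 : |vn - vg| ≤ ε := by
        rw [hsplit, add_sub_cancel_left, abs_of_nonneg hnbad0]
        refine hbad.trans ?_
        nlinarith
      rw [h3, abs_div]
      have h5 := abs_sub (vn - vg) (vn - v)
      rw [abs_of_pos (by norm_num : (0:ℝ) < 2)]
      linarith
    calc M * |Real.exp (-vg / 2) - Real.exp (-v / 2)| ≤ M * (2 * ε) :=
          mul_le_mul_of_nonneg_left (h1.trans h2) hM0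
      _ = 2 * M * ε := by ring
  calc ‖(∫ z in Ω, Complex.exp (I * ∑ ν ∈ Vn, cn ν * ch ν z)) -
        (M : ℂ) * Complex.exp ((-v / 2 : ℝ))‖
      = ‖((∫ z in Ω, Complex.exp (I * ∑ ν ∈ Vn, cn ν * ch ν z)) - ∫ z in Ω, F z) +
        ((∫ z in Ω, F z) - (M : ℂ) * ((∫ z in cell 2, F z) / 4)) +
        ((M : ℂ) * ((∫ z in cell 2, F z) / 4) - (M : ℂ) * Complex.exp ((-vg / 2 : ℝ))) +
        ((M : ℂ) * Complex.exp ((-vg / 2 : ℝ)) - (M : ℂ) * Complex.exp ((-v / 2 : ℝ)))‖ := by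
        congr 1
        ring
    _ ≤ (4 * CΩ + M) / 2 * ε + ε + M * ε + 2 * M * ε := by
        refine (norm_add_le _ _).trans (add_le_add ((norm_add_le _ _).trans (add_le_add
          ((norm_add_le _ _).trans (add_le_add hrem hl)) hstep)) hlast)
    _ = _ := by ring

end

end Pool.Agent.L0h56.BQ
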