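import Pool.Agent.L0h56.BQ.Tri

/-! MP_6b977f_mp: integrals over domains made of unit squares -/

set_option autoImplicit false
open MeasureTheory Filter Topology Complex Set

namespace Pool.Agent.L0h56.BQ

noncomputable section

theorem half (f : ℝ → ℝ) (hf : Continuous f) (he : ∀ x, f (-x) = f x) (hp : ∀ x, f (x + 2) = f x)
    (i : ℤ) : ∫ x in (i:ℝ)..(i + 1), f x = 1 / 2 * ∫ x in (0:ℝ)..2, f x := by
  have hper : Function.Periodic f 2 := hp
  have hj : ∀ (j : ℤ) x, f (x + 2 * j) = f x := fun j x => by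
    have := hper.int_mul j x
    rw [mul_comm] at this
    exact this
  have key : ∀ i : ℤ, ∫ x in (i:ℝ)..(i + 1), f x = ∫ x in (0:ℝ)..1, f x := by
    intro i
    rcases Int.even_or_odd' i with ⟨j, rfl | rfl⟩
    · have h1 := intervalIntegral.integral_comp_add_right (a := 0) (b := 1) f (2 * (j:ℝ))
      rw [zero_add] at h1
      push_cast
      rw [add_comm (2 * (j:ℝ)) 1, ← h1]
      exact intervalIntegral.integral_congr fun x _ => hj j x
    · have h1 := intervalIntegral.integral_comp_sub_left (a := 0) (b := 1) f (2 * (j:ℝ) + 2)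
      rw [sub_zero] at h1
      push_cast
      have h2 : 2 * (j:ℝ) + 2 - 1 = 2 * j + 1 := by ring
      have h3 : 2 * (j:ℝ) + 1 + 1 = 2 * j + 2 := by ring
      rw [h3, ← h2, ← h1]
      refine intervalIntegral.integral_congr fun x _ => ?_
      show f (2 * (j:ℝ) + 2 - x) = f x
      rw [← he x, ← hj (j + 1) (-x)]
      congr 1
      push_cast
      ring
  have h1 := key 1
  have h2 : ∫ x in (0:ℝ)..2, f x = (∫ x in (0:ℝ)..1, f x) + ∫ x in (1:ℝ)..2, f x :=
    (intervalIntegral.integral_add_adjacent_intervals (hf.intervalIntegrable _ _)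
      (hf.intervalIntegrable _ _)).symm
  norm_num at h1
  rw [key i, h2, h1]
  ring

/-- the open unit square with lower left corner `(i, j)` -/
def Q (i j : ℤ) : Set ℂ := (Ioo (i:ℝ) (i + 1)) ×ℂ (Ioo (j:ℝ) (j + 1))

theorem Q_open (i j : ℤ) : IsOpen (Q i j) := isOpen_Ioo.reProdIm isOpen_Ioo

theorem Q_conn (i j : ℤ) : IsPreconnected (Q i j) := by
  have h1 : Q i j = Complex.equivRealProdCLM.symm '' (Ioo (i:ℝ) (i + 1) ×ˢ Ioo (j:ℝ) (j + 1)) := by
    ext z
    constructor
    · intro h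
      exact ⟨(z.re, z.im), h, by apply Complex.ext <;> simp⟩
    · rintro ⟨x, hx, rfl⟩
      simpa [Q, Complex.mem_reProdIm] using hx
  rw [h1]
  exact (isPreconnected_Ioo.prod isPreconnected_Ioo).image _
    (Complex.equivRealProdCLM.symm.continuous.continuousOn)

/-- functions with the symmetries of the reflections in the grid lines -/
structure Symm (F : ℂ → ℝ) : Prop where
  cont : Continuous F
  p1 : ∀ z, F (z + 2) = F z
  p2 : ∀ z, F (z + 2 * I) = F z
  r1 : ∀ z, F ((starRingEnd ℂ) z) = F z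
  r2 : ∀ z, F (-(starRingEnd ℂ) z) = F z

theorem Symm.cell_eq {F : ℂ → ℝ} (h : Symm F) (i j : ℤ) :
    ∫ z in Q i j, F z = 1 / 4 * ∫ z in cell 2, F z := by
  have h1 := (Complex.volume_preserving_equiv_real_prod.symm).setIntegral_preimage_emb
    (MeasurableEquiv.measurableEmbedding _) F (Q i j)
  have hpre : Complex.measurableEquivRealProd.symm ⁻¹' (Q i j) =
      Ioo (i:ℝ) (i + 1) ×ˢ Ioo (j:ℝ) (j + 1) := by
    ext p
    simp [Q, Complex.mem_reProdIm]
  have hcc := h.cont
  have hc : Continuous fun p : ℝ × ℝ => F (Complex.measurableEquivRealProd.symm p) := by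
    have h2 : (fun p : ℝ × ℝ => F (Complex.measurableEquivRealProd.symm p)) =
        fun p : ℝ × ℝ => F (p.1 + p.2 * I) := by
      funext p
      congr 1
      exact Complex.mk_eq_add_mul_I p.1 p.2
    rw [h2]
    fun_prop
  rw [hpre, Measure.volume_eq_prod, setIntegral_prod] at h1
  swap
  · exact (hc.continuousOn.integrableOn_compact (isCompact_Icc.prod isCompact_Icc)).mono_set
      (prod_mono Ioo_subset_Icc_self Ioo_subset_Icc_self)
  have h2 : ∫ z in cell 2, F z = ∫ x in (0:ℝ)..2, ∫ y in (0:ℝ)..2, F (x + y * I) := by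
    have h3 := cell_int 2 (by norm_num) (fun z => (F z : ℂ)) (Complex.continuous_ofReal.comp h.cont)
    unfold sq at h3
    have h4 : ∫ z in cell 2, (F z : ℂ) = ((∫ z in cell 2, F z : ℝ) : ℂ) := integral_complex_ofReal
    rw [h4] at h3
    simp_rw [intervalIntegral.integral_ofReal] at h3
    exact_mod_cast h3
  have hin : ∀ x : ℝ, ∫ y in (j:ℝ)..(j + 1), F (x + y * I) =
      1 / 2 * ∫ y in (0:ℝ)..2, F (x + y * I) := by
    intro x
    refine half (fun y => F (x + y * I)) (by fun_prop) ?_ ?_ j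
    · intro y
      show F (x + ((-y : ℝ) : ℂ) * I) = F (x + y * I)
      rw [← h.r1 (x + y * I)]
      congr 1
      simp
    · intro y
      show F (x + ((y + 2 : ℝ) : ℂ) * I) = F (x + y * I)
      rw [← h.p2 (x + y * I)]
      congr 1
      push_cast
      ring
  have hcx : Continuous fun x : ℝ => ∫ y in (0:ℝ)..2, F (x + y * I) := by
    have h1 : Continuous (Function.uncurry fun (x : ℝ) (y : ℝ) => F (x + y * I)) := by
      unfold Function.uncurry
      fun_prop
    exact intervalIntegral.continuous_parametric_intervalIntegral_of_continuous' h1 0 2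
  have hout := half (fun x => ∫ y in (0:ℝ)..2, F (x + y * I)) hcx ?_ ?_ i
  rotate_left
  · intro x
    show ∫ y in (0:ℝ)..2, F (((-x : ℝ) : ℂ) + y * I) = ∫ y in (0:ℝ)..2, F (x + y * I)
    refine intervalIntegral.integral_congr fun y _ => ?_
    show F (((-x : ℝ) : ℂ) + y * I) = F (x + y * I)
    rw [← h.r2 (x + y * I)]
    congr 1
    simp
    ring
  · intro x
    show ∫ y in (0:ℝ)..2, F (((x + 2 : ℝ) : ℂ) + y * I) = ∫ y in (0:ℝ)..2, F (x + y * I)
    refine intervalIntegral.integral_congr fun y _ => ?_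
    show F (((x + 2 : ℝ) : ℂ) + y * I) = F (x + y * I)
    rw [← h.p1 (x + y * I)]
    congr 1
    push_cast
    ring
  rw [← h1, h2]
  have h5 : ∫ x in Ioo (i:ℝ) (i + 1), ∫ y in Ioo (j:ℝ) (j + 1),
      F (Complex.measurableEquivRealProd.symm (x, y)) =
      ∫ x in (i:ℝ)..(i + 1), ∫ y in (j:ℝ)..(j + 1), F (x + y * I) := by
    rw [intervalIntegral.integral_of_le (by linarith), ← integral_Ioc_eq_integral_Ioo]
    refine setIntegral_congr_fun measurableSet_Ioc fun x _ => ?_
    show _ = ∫ y in (j:ℝ)..(j + 1), F (x + y * I)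
    rw [intervalIntegral.integral_of_le (by linarith), ← integral_Ioc_eq_integral_Ioo]
    refine setIntegral_congr_fun measurableSet_Ioc fun y _ => ?_
    show F _ = F _
    congr 1
    exact Complex.mk_eq_add_mul_I x y
  rw [h5]
  simp_rw [hin]
  rw [intervalIntegral.integral_const_mul, hout]
  ring

/-- bounded open sets whose boundary is contained in the lines `x ∈ ℤ` and `y ∈ ℤ` -/
structure IsPoly (Ω : Set ℂ) : Prop where
  op : IsOpen Ω
  bd : Bornology.IsBounded Ω
  fr : ∀ z ∈ frontier Ω, (∃ n : ℤ, z.re = n) ∨ ∃ n : ℤ, z.im = n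

theorem line_null : volume {z : ℂ | (∃ n : ℤ, z.re = n) ∨ ∃ n : ℤ, z.im = n} = 0 := by
  have h1 : {z : ℂ | (∃ n : ℤ, z.re = n) ∨ ∃ n : ℤ, z.im = n} =
      ⋃ n : ℤ, ({z : ℂ | z.re = n} ∪ {z : ℂ | z.im = n}) := by
    ext z
    simp only [mem_ofPred_eq, mem_iUnion, mem_union]
    constructor
    · rintro (⟨n, h⟩ | ⟨n, h⟩)
      · exact ⟨n, Or.inl h⟩
      · exact ⟨n, Or.inr h⟩
    · rintro ⟨n, h | h⟩
      · exact Or.inl ⟨n, h⟩
      · exact Or.inr ⟨n, h⟩
  rw [h1, measure_iUnion_null_iff]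
  intro n
  have hr : volume {z : ℂ | z.re = n} = 0 := by
    have hm : MeasurableSet {z : ℂ | z.re = n} := measurable_re (measurableSet_singleton _)
    have h2 := (Complex.volume_preserving_equiv_real_prod.symm).measure_preimage
      hm.nullMeasurableSet
    have h3 : Complex.measurableEquivRealProd.symm ⁻¹' {z : ℂ | z.re = n} =
        ({(n:ℝ)} : Set ℝ) ×ˢ (univ : Set ℝ) := by
      ext p
      simp
    rw [← h2, h3, Measure.volume_eq_prod, Measure.prod_prod, Real.volume_singleton, zero_mul]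
  have hi : volume {z : ℂ | z.im = n} = 0 := by
    have hm : MeasurableSet {z : ℂ | z.im = n} := measurable_im (measurableSet_singleton _)
    have h2 := (Complex.volume_preserving_equiv_real_prod.symm).measure_preimage
      hm.nullMeasurableSet
    have h3 : Complex.measurableEquivRealProd.symm ⁻¹' {z : ℂ | z.im = n} =
        (univ : Set ℝ) ×ˢ ({(n:ℝ)} : Set ℝ) := by
      ext p
      simp
    rw [← h2, h3, Measure.volume_eq_prod, Measure.prod_prod, Real.volume_singleton, mul_zero]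
  exact measure_union_null hr hi

theorem IsPoly.in_or_out {Ω : Set ℂ} (h : IsPoly Ω) (i j : ℤ) : Q i j ⊆ Ω ∨ Disjoint (Q i j) Ω := by
  have h1 : Q i j ⊆ Ω ∪ (closure Ω)ᶜ := by
    intro z hz
    by_contra hcon
    rw [mem_union, not_or, notMem_compl_iff] at hcon
    have h2 : z ∈ frontier Ω := by
      rw [h.op.frontier_eq]
      exact ⟨hcon.2, hcon.1⟩
    obtain ⟨⟨h3, h4⟩, h5, h6⟩ := hz
    rcases h.fr z h2 with ⟨n, hn⟩ | ⟨n, hn⟩
    · have h3' : (i:ℝ) < z.re := h3
      have h4' : z.re < i + 1 := h4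
      rw [hn] at h3' h4'
      have a1 : i < n := by exact_mod_cast h3'
      have a2 : n < i + 1 := by exact_mod_cast h4'
      omega
    · have h3' : (j:ℝ) < z.im := h5
      have h4' : z.im < j + 1 := h6
      rw [hn] at h3' h4'
      have a1 : j < n := by exact_mod_cast h3'
      have a2 : n < j + 1 := by exact_mod_cast h4'
      omega
  by_cases hne : (Q i j ∩ Ω).Nonempty
  · left
    refine (Q_conn i j).subset_left_of_subset_union h.op isClosed_closure.isOpen_compl ?_ h1 hne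
    exact (disjoint_compl_right (a := closure Ω)).mono_left subset_closure
  · right
    rw [Set.disjoint_iff_inter_eq_empty]
    exact not_nonempty_iff_eq_empty.1 hne

theorem IsPoly.int_eq {Ω : Set ℂ} (h : IsPoly Ω) :
    ∃ N : ℕ, ∀ F : ℂ → ℝ, Symm F → ∫ z in Ω, F z = N * (1 / 4 * ∫ z in cell 2, F z) := by
  classical
  obtain ⟨R, hR⟩ := h.bd.subset_ball 0
  set M : ℤ := ⌈R⌉ + 1 with hM
  set J : Finset (ℤ × ℤ) := ((Finset.Icc (-M) M) ×ˢ (Finset.Icc (-M) M)).filter
    fun q => Q q.1 q.2 ⊆ Ω with hJ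
  refine ⟨J.card, fun F hF => ?_⟩
  have hRM : R + 1 ≤ M := by
    rw [hM]
    push_cast
    linarith [Int.le_ceil R]
  have hae : Ω =ᵐ[volume] ⋃ q ∈ J, Q q.1 q.2 := by
    have h1 : (⋃ q ∈ J, Q q.1 q.2) ⊆ Ω := by
      intro z hz
      rw [mem_iUnion₂] at hz
      obtain ⟨q, hq, hz⟩ := hz
      exact (Finset.mem_filter.1 hq).2 hz
    have h2 : Ω \ (⋃ q ∈ J, Q q.1 q.2) ⊆ {z : ℂ | (∃ n : ℤ, z.re = n) ∨ ∃ n : ℤ, z.im = n} := by
      intro z hz
      by_contra hcon
      simp only [mem_ofPred_eq, not_or, not_exists] at hcon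
      apply hz.2
      rw [mem_iUnion₂]
      have hzn := hR hz.1
      rw [mem_ball_zero_iff] at hzn
      have hre := abs_le.1 ((Complex.abs_re_le_norm z).trans hzn.le)
      have him := abs_le.1 ((Complex.abs_im_le_norm z).trans hzn.le)
      have hzQ : z ∈ Q ⌊z.re⌋ ⌊z.im⌋ := by
        refine ⟨⟨?_, Int.lt_floor_add_one _⟩, ?_, Int.lt_floor_add_one _⟩
        · exact lt_of_le_of_ne (Int.floor_le _) (fun h => hcon.1 _ h.symm)
        · exact lt_of_le_of_ne (Int.floor_le _) (fun h => hcon.2 _ h.symm)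
      have hb : ∀ x : ℝ, -R ≤ x ∧ x ≤ R → -M ≤ ⌊x⌋ ∧ ⌊x⌋ ≤ M := by
        intro x hx
        constructor
        · rw [Int.le_floor]
          push_cast
          linarith
        · have h5 : (⌊x⌋ : ℝ) ≤ M := (Int.floor_le x).trans (by linarith)
          exact_mod_cast h5
      refine ⟨(⌊z.re⌋, ⌊z.im⌋), ?_, hzQ⟩
      rw [hJ, Finset.mem_filter, Finset.mem_product, Finset.mem_Icc, Finset.mem_Icc]
      refine ⟨⟨hb _ hre, hb _ him⟩, ?_⟩
      rcases h.in_or_out ⌊z.re⌋ ⌊z.im⌋ with h5 | h5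
      · exact h5
      · exact absurd hz.1 (Set.disjoint_left.1 h5 hzQ)
    refine ae_eq_set.2 ⟨measure_mono_null h2 line_null, ?_⟩
    rw [sdiff_eq_empty.2 h1]
    exact measure_empty
  rw [setIntegral_congr_set hae, integral_biUnion_finset]
  · rw [Finset.sum_congr rfl fun q _ => hF.cell_eq q.1 q.2, Finset.sum_const, nsmul_eq_mul]
  · exact fun q _ => (Q_open _ _).measurableSet
  · intro q _ q' _ hne
    rw [Function.onFun, Set.disjoint_left]
    rintro z ⟨⟨h1, h2⟩, h3, h4⟩ ⟨⟨h5, h6⟩, h7, h8⟩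
    apply hne
    have hh : ∀ (x : ℝ) (a b : ℤ), (a:ℝ) < x → x < a + 1 → (b:ℝ) < x → x < b + 1 → a = b := by
      intro x a b h1 h2 h3 h4
      have h5 : (a:ℝ) < b + 1 := by linarith
      have h6 : (b:ℝ) < a + 1 := by linarith
      have h7 : a < b + 1 := by exact_mod_cast h5
      have h8 : b < a + 1 := by exact_mod_cast h6
      omega
    exact Prod.ext (hh _ _ _ h1 h2 h5 h6) (hh _ _ _ h3 h4 h7 h8)
  · intro q _
    refine (hF.cont.continuousOn.integrableOn_compact
      (isCompact_closedBall (0:ℂ) (|(q.1:ℝ)| + 1 + (|(q.2:ℝ)| + 1)))).mono_set ?_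
    rintro z ⟨⟨h1, h2⟩, h3, h4⟩
    rw [mem_closedBall_zero_iff]
    have h1' : (q.1:ℝ) < z.re := h1
    have h2' : z.re < q.1 + 1 := h2
    have h3' : (q.2:ℝ) < z.im := h3
    have h4' : z.im < q.2 + 1 := h4
    calc ‖z‖ ≤ |z.re| + |z.im| := Complex.norm_le_abs_re_add_abs_im z
      _ ≤ _ := by
        refine add_le_add (abs_le.2 ⟨?_, ?_⟩) (abs_le.2 ⟨?_, ?_⟩)
        · linarith [neg_abs_le (q.1:ℝ)]
        · linarith [le_abs_self (q.1:ℝ)]
        · linarith [neg_abs_le (q.2:ℝ)]
        · linarith [le_abs_self (q.2:ℝ)]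

/-- **Integrals of symmetric functions over domains made of unit squares.** -/
theorem IsPoly.int {Ω : Set ℂ} (h : IsPoly Ω) (F : ℂ → ℝ) (hF : Symm F) :
    ∫ z in Ω, F z = volume.real Ω * (1 / 4 * ∫ z in cell 2, F z) := by
  obtain ⟨N, hN⟩ := h.int_eq
  have h1 := hN (fun _ => 1) ⟨continuous_const, fun _ => rfl, fun _ => rfl, fun _ => rfl,
    fun _ => rfl⟩
  rw [setIntegral_const, setIntegral_const, smul_eq_mul, smul_eq_mul, mul_one, mul_one,
    measureReal_def (s := cell 2), cell_vol 2 (by norm_num),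
    ENNReal.toReal_ofReal (by positivity)] at h1
  norm_num at h1
  rw [hN F hF, h1]

end

end Pool.Agent.L0h56.BQ
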