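import Pool.Agent.L0h56.BQ.Tri

/-! MP_6b977f_mp: central limit theorem for dissociated blocks of characters -/

set_option autoImplicit false
open MeasureTheory Filter Topology Complex Set

namespace Pool.Agent.L0h56.BQ

noncomputable section

theorem sc (y : ℝ) (hy : |y| ≤ 1 / 2) :
    ‖Complex.exp (I * y) * Complex.exp ((y ^ 2 / 2 : ℝ)) - (1 + I * y)‖ ≤ |y| ^ 3 := by
  set z : ℂ := I * y + ((y ^ 2 / 2 : ℝ) : ℂ) with hz
  have hy0 := abs_nonneg y
  have hzn : ‖z‖ ≤ 5 / 4 * |y| := by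
    calc ‖z‖ ≤ ‖I * (y : ℂ)‖ + ‖((y ^ 2 / 2 : ℝ) : ℂ)‖ := norm_add_le _ _
      _ = |y| + y ^ 2 / 2 := by
        rw [norm_mul, Complex.norm_I, one_mul, Complex.norm_real, Complex.norm_real,
          Real.norm_eq_abs, Real.norm_eq_abs, abs_of_nonneg (by positivity : (0:ℝ) ≤ y ^ 2 / 2)]
      _ ≤ 5 / 4 * |y| := by
        rw [← sq_abs]
        nlinarith
  have hz1 : ‖z‖ ≤ 1 := by linarith
  have h1 := Complex.exp_bound hz1 (n := 3) (by norm_num)
  simp only [Finset.sum_range_succ, Finset.sum_range_zero, Nat.factorial, Nat.cast_one, pow_zero,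
    pow_one, zero_add, div_one] at h1
  norm_num at h1
  rw [← Complex.exp_add, ← hz]
  have h2 : Complex.exp z - (1 + I * y) = (Complex.exp z - (1 + z + z ^ 2 / 2)) +
      ((z ^ 2 / 2) + ((y ^ 2 / 2 : ℝ) : ℂ)) := by
    rw [hz]; push_cast; ring
  have h3 : (z ^ 2 / 2) + ((y ^ 2 / 2 : ℝ) : ℂ) = I * ((y ^ 3 / 2 : ℝ) : ℂ) + ((y ^ 4 / 8 : ℝ) : ℂ) := by
    rw [hz]; push_cast
    have := Complex.I_sq
    linear_combination (y ^ 2 / 2 : ℂ) * this
  have h4 : ‖(z ^ 2 / 2) + ((y ^ 2 / 2 : ℝ) : ℂ)‖ ≤ 9 / 16 * |y| ^ 3 := by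
    rw [h3]
    calc ‖I * ((y ^ 3 / 2 : ℝ) : ℂ) + ((y ^ 4 / 8 : ℝ) : ℂ)‖
        ≤ ‖I * ((y ^ 3 / 2 : ℝ) : ℂ)‖ + ‖((y ^ 4 / 8 : ℝ) : ℂ)‖ := norm_add_le _ _
      _ = |y| ^ 3 / 2 + |y| ^ 4 / 8 := by
        rw [norm_mul, Complex.norm_I, one_mul, Complex.norm_real, Complex.norm_real,
          Real.norm_eq_abs, Real.norm_eq_abs, abs_div, abs_div, abs_pow, abs_pow]
        norm_num
      _ ≤ 9 / 16 * |y| ^ 3 := by
        have h5 : |y| ^ 4 = |y| * |y| ^ 3 := by ring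
        rw [h5]
        have h6 : 0 ≤ |y| ^ 3 := by positivity
        nlinarith
  have h5 : ‖z‖ ^ 3 ≤ (5 / 4 * |y|) ^ 3 := pow_le_pow_left₀ (norm_nonneg _) hzn 3
  rw [h2]
  calc ‖(Complex.exp z - (1 + z + z ^ 2 / 2)) + ((z ^ 2 / 2) + ((y ^ 2 / 2 : ℝ) : ℂ))‖
      ≤ ‖Complex.exp z - (1 + z + z ^ 2 / 2)‖ + ‖(z ^ 2 / 2) + ((y ^ 2 / 2 : ℝ) : ℂ)‖ :=
        norm_add_le _ _
    _ ≤ ‖z‖ ^ 3 * (2 / 9) + 9 / 16 * |y| ^ 3 := add_le_add h1 h4
    _ ≤ |y| ^ 3 := by
      have h6 : 0 ≤ |y| ^ 3 := by positivity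
      nlinarith

theorem pl {ι : Type*} (s : Finset ι) (a b : ι → ℂ) (E e : ι → ℝ) (hE : ∀ i ∈ s, 1 ≤ E i)
    (ha : ∀ i ∈ s, ‖a i‖ ≤ E i) (hb : ∀ i ∈ s, ‖b i‖ ≤ E i) (he : ∀ i ∈ s, ‖a i - b i‖ ≤ e i) :
    ‖∏ i ∈ s, a i - ∏ i ∈ s, b i‖ ≤ (∏ i ∈ s, E i) * ∑ i ∈ s, e i := by
  classical
  induction s using Finset.induction_on with
  | empty => simp
  | insert i s hi ih =>
    have hE' : ∀ j ∈ s, 1 ≤ E j := fun j hj => hE j (Finset.mem_insert_of_mem hj)
    have h1 := ih hE' (fun j hj => ha j (Finset.mem_insert_of_mem hj))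
      (fun j hj => hb j (Finset.mem_insert_of_mem hj)) (fun j hj => he j (Finset.mem_insert_of_mem hj))
    have hi' := Finset.mem_insert_self i s
    rw [Finset.prod_insert hi, Finset.prod_insert hi, Finset.prod_insert hi, Finset.sum_insert hi]
    have h2 : a i * ∏ j ∈ s, a j - b i * ∏ j ∈ s, b j =
        a i * (∏ j ∈ s, a j - ∏ j ∈ s, b j) + (a i - b i) * ∏ j ∈ s, b j := by ring
    have hP : (1:ℝ) ≤ ∏ j ∈ s, E j := by
      have h5 := Finset.prod_le_prod (s := s) (f := fun _ => (1:ℝ)) (g := E)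
        (fun _ _ => zero_le_one) hE'
      simpa using h5
    have hes : 0 ≤ ∑ j ∈ s, e j := Finset.sum_nonneg fun j hj =>
      (norm_nonneg _).trans (he j (Finset.mem_insert_of_mem hj))
    have h3 : ‖∏ j ∈ s, b j‖ ≤ ∏ j ∈ s, E j := by
      rw [norm_prod]
      exact Finset.prod_le_prod (fun _ _ => norm_nonneg _)
        (fun j hj => hb j (Finset.mem_insert_of_mem hj))
    have hei : 0 ≤ e i := (norm_nonneg _).trans (he i hi')
    have hEi := hE i hi'
    rw [h2]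
    calc ‖a i * (∏ j ∈ s, a j - ∏ j ∈ s, b j) + (a i - b i) * ∏ j ∈ s, b j‖
        ≤ ‖a i‖ * ‖∏ j ∈ s, a j - ∏ j ∈ s, b j‖ + ‖a i - b i‖ * ‖∏ j ∈ s, b j‖ := by
          refine (norm_add_le _ _).trans ?_
          rw [norm_mul, norm_mul]
      _ ≤ E i * ((∏ j ∈ s, E j) * ∑ j ∈ s, e j) + e i * ∏ j ∈ s, E j := by
          refine add_le_add (mul_le_mul (ha i hi') h1 (norm_nonneg _) (by linarith))
            (mul_le_mul (he i hi') h3 (norm_nonneg _) hei)
      _ ≤ E i * (∏ j ∈ s, E j) * (e i + ∑ j ∈ s, e j) := by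
          have h6 : e i * ∏ j ∈ s, E j ≤ E i * (e i * ∏ j ∈ s, E j) :=
            le_mul_of_one_le_left (mul_nonneg hei (by linarith)) hEi
          nlinarith

theorem exp_diff (a b M : ℝ) (ha : a ≤ M) (hb : b ≤ M) :
    |Real.exp a - Real.exp b| ≤ Real.exp M * |a - b| := by
  wlog h : b ≤ a generalizing a b with H
  · have := H b a hb ha (le_of_not_ge h)
    rwa [abs_sub_comm, abs_sub_comm b a] at this
  rw [abs_of_nonneg (sub_nonneg.2 (Real.exp_le_exp.2 h)), abs_of_nonneg (sub_nonneg.2 h)]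
  have h1 : Real.exp a - Real.exp b = Real.exp a * (1 - Real.exp (b - a)) := by
    rw [mul_sub, mul_one, ← Real.exp_add]
    congr 2
    ring
  have h2 : 1 - Real.exp (b - a) ≤ a - b := by
    have := Real.add_one_le_exp (b - a)
    linarith
  have h3 : 0 ≤ a - b := sub_nonneg.2 h
  rw [h1]
  calc Real.exp a * (1 - Real.exp (b - a)) ≤ Real.exp a * (a - b) :=
        mul_le_mul_of_nonneg_left h2 (Real.exp_pos a).le
    _ ≤ Real.exp M * (a - b) := mul_le_mul_of_nonneg_right (Real.exp_le_exp.2 ha) h3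

section

variable {ι : Type*} (B : ι → Finset GaussianInt) (c : GaussianInt → ℂ)

/-- real part of the block -/
def yb (b : ι) (z : ℂ) : ℝ := (Y B c b z).re

theorem yb_cont (b : ι) : Continuous (yb B c b) := Complex.continuous_re.comp (Y_cont B c b)

theorem real_int {f : ℂ → ℝ} {r : ℝ} (h : ∫ z in cell 2, (f z : ℂ) = (r : ℂ)) :
    ∫ z in cell 2, f z = r := by
  have h2 : ∫ z in cell 2, (f z : ℂ) = ((∫ z in cell 2, f z : ℝ) : ℂ) := integral_complex_ofReal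
  rw [h2] at h
  exact_mod_cast h

theorem cell2 : volume.real (cell 2) = 4 := by
  rw [measureReal_def, cell_vol 2 (by norm_num), ENNReal.toReal_ofReal (by positivity)]
  norm_num

theorem int_yb (hsym : ∀ b, ∀ ν ∈ B b, -ν ∈ B b) (hc : ∀ ν, c (-ν) = (starRingEnd ℂ) (c ν))
    (b : ι) : ∫ z in cell 2, yb B c b z ^ 2 = 4 * vb B c b := by
  refine real_int ?_
  have h1 : ∀ z, ((yb B c b z ^ 2 : ℝ) : ℂ) = Y B c b z ^ 2 := fun z => by
    push_cast
    rw [yb, Y_re B c hsym hc]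
  simp_rw [h1]
  rw [int_Ysq B c hsym hc]
  push_cast
  rfl

theorem int_yb_mul (hsym : ∀ b, ∀ ν ∈ B b, -ν ∈ B b)
    (hc : ∀ ν, c (-ν) = (starRingEnd ℂ) (c ν)) (s : Finset ι) (hD : Diss B s) (b b' : ι)
    (hb : b ∈ s) (hb' : b' ∈ s) (hne : b ≠ b') :
    ∫ z in cell 2, yb B c b z ^ 2 * yb B c b' z ^ 2 = 4 * (vb B c b * vb B c b') := by
  refine real_int ?_
  have h1 : ∀ z, ((yb B c b z ^ 2 * yb B c b' z ^ 2 : ℝ) : ℂ) = Y B c b z ^ 2 * Y B c b' z ^ 2 :=
    fun z => by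
      push_cast
      rw [yb, Y_re B c hsym hc, yb, Y_re B c hsym hc]
  simp_rw [h1]
  rw [int_Ysq_mul B c hsym hc s hD b b' hb hb' hne]
  push_cast
  rfl

theorem var_W (hsym : ∀ b, ∀ ν ∈ B b, -ν ∈ B b) (hc : ∀ ν, c (-ν) = (starRingEnd ℂ) (c ν))
    (s : Finset ι) (hD : Diss B s) (δ : ℝ) (hY : ∀ b ∈ s, ∀ z, |yb B c b z| ≤ δ) :
    ∫ z in cell 2, (∑ b ∈ s, yb B c b z ^ 2 - ∑ b ∈ s, vb B c b) ^ 2 ≤
      4 * δ ^ 2 * ∑ b ∈ s, vb B c b := by
  classical
  set v := ∑ b ∈ s, vb B c b with hv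
  have hWc : Continuous fun z => ∑ b ∈ s, yb B c b z ^ 2 :=
    continuous_finsetSum _ fun b _ => (yb_cont B c b).pow 2
  have h1 : ∫ z in cell 2, ∑ b ∈ s, yb B c b z ^ 2 = 4 * v := by
    rw [integral_finsetSum (f := fun b z => yb B c b z ^ 2) _
      (fun b _ => cell_integrable 2 ((yb_cont B c b).pow 2)), hv, Finset.mul_sum]
    exact Finset.sum_congr rfl fun b _ => int_yb B c hsym hc b
  have h2 : ∫ z in cell 2, (∑ b ∈ s, yb B c b z ^ 2) ^ 2 ≤ 4 * v ^ 2 + 4 * δ ^ 2 * v := by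
    have h3 : ∀ z, (∑ b ∈ s, yb B c b z ^ 2) ^ 2 =
        ∑ b ∈ s, ∑ b' ∈ s, yb B c b z ^ 2 * yb B c b' z ^ 2 := fun z => by
      rw [pow_two, Finset.sum_mul_sum]
    have hc2 : ∀ b b', Continuous fun z => yb B c b z ^ 2 * yb B c b' z ^ 2 := fun b b' =>
      ((yb_cont B c b).pow 2).mul ((yb_cont B c b').pow 2)
    simp_rw [h3]
    rw [integral_finsetSum _ (fun b _ => cell_integrable 2 (continuous_finsetSum _ fun b' _ =>
      hc2 b b'))]
    have h4 : ∀ b ∈ s, ∫ z in cell 2, ∑ b' ∈ s, yb B c b z ^ 2 * yb B c b' z ^ 2 ≤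
        4 * (vb B c b * v) + 4 * δ ^ 2 * vb B c b := by
      intro b hb
      rw [integral_finsetSum _ (fun b' _ => cell_integrable 2 (hc2 b b'))]
      have h5 : ∀ b' ∈ s, ∫ z in cell 2, yb B c b z ^ 2 * yb B c b' z ^ 2 ≤
          4 * (vb B c b * vb B c b') + if b = b' then 4 * δ ^ 2 * vb B c b else 0 := by
        intro b' hb'
        by_cases h : b = b'
        · subst h
          rw [if_pos rfl]
          have h6 : ∫ z in cell 2, yb B c b z ^ 2 * yb B c b z ^ 2 ≤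
              ∫ z in cell 2, δ ^ 2 * yb B c b z ^ 2 := by
            refine integral_mono (cell_integrable 2 (hc2 b b))
              (cell_integrable 2 (continuous_const.mul ((yb_cont B c b).pow 2))) fun z => ?_
            refine mul_le_mul_of_nonneg_right ?_ (sq_nonneg _)
            rw [← sq_abs]
            exact pow_le_pow_left₀ (abs_nonneg _) (hY b hb z) 2
          rw [integral_const_mul, int_yb B c hsym hc] at h6
          have h7 : 0 ≤ vb B c b * vb B c b := mul_self_nonneg _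
          linarith
        · rw [if_neg h, add_zero]
          exact (int_yb_mul B c hsym hc s hD b b' hb hb' h).le
      refine (Finset.sum_le_sum h5).trans (le_of_eq ?_)
      rw [Finset.sum_add_distrib, Finset.sum_ite_eq, if_pos hb, ← Finset.mul_sum, ← Finset.mul_sum]
    refine (Finset.sum_le_sum h4).trans (le_of_eq ?_)
    rw [Finset.sum_add_distrib, ← Finset.mul_sum, ← Finset.mul_sum, ← Finset.sum_mul, ← hv]
    ring
  have h3 : ∀ z, (∑ b ∈ s, yb B c b z ^ 2 - v) ^ 2 =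
      (∑ b ∈ s, yb B c b z ^ 2) ^ 2 - 2 * v * (∑ b ∈ s, yb B c b z ^ 2) + v ^ 2 := fun z => by ring
  simp_rw [h3]
  rw [integral_add, integral_sub, integral_const_mul, h1]
  · have h5 : ∫ _z in cell 2, v ^ 2 = 4 * v ^ 2 := by
      rw [setIntegral_const, cell2, smul_eq_mul]
    rw [h5]
    nlinarith
  · exact cell_integrable 2 (hWc.pow 2)
  · exact cell_integrable 2 (continuous_const.mul hWc)
  · exact cell_integrable 2 ((hWc.pow 2).sub (continuous_const.mul hWc))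
  · exact cell_integrable 2 continuous_const

/-- **The central limit theorem for dissociated blocks.** -/
theorem clt (hsym : ∀ b, ∀ ν ∈ B b, -ν ∈ B b) (hc : ∀ ν, c (-ν) = (starRingEnd ℂ) (c ν))
    (s : Finset ι) (h0 : ∀ b ∈ s, (0 : GaussianInt) ∉ B b) (hD : Diss B s) (δ W0 : ℝ)
    (hδ0 : 0 < δ) (hδ : δ ≤ 1 / 2) (hY : ∀ b ∈ s, ∀ z, ‖Y B c b z‖ ≤ δ)
    (hW : ∀ z, ∑ b ∈ s, ‖Y B c b z‖ ^ 2 ≤ W0) (hv : ∑ b ∈ s, vb B c b ≤ W0) :
    ‖(∫ z in cell 2, Complex.exp (I * ∑ b ∈ s, Y B c b z)) -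
      4 * Complex.exp ((-(∑ b ∈ s, vb B c b) / 2 : ℝ))‖ ≤ Real.exp (W0 / 2) * (1 + 5 * W0) * δ := by
  set v := ∑ b ∈ s, vb B c b with hvdef
  have hv0 : 0 ≤ v := Finset.sum_nonneg fun b _ => vb_nonneg B c b
  have hyY : ∀ b z, (yb B c b z : ℂ) = Y B c b z := fun b z => Y_re B c hsym hc b z
  have hyn : ∀ b z, |yb B c b z| = ‖Y B c b z‖ := fun b z => by
    rw [← hyY, Complex.norm_real, Real.norm_eq_abs]
  have hyδ : ∀ b ∈ s, ∀ z, |yb B c b z| ≤ δ := fun b hb z => by rw [hyn]; exact hY b hb z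
  have hWr : ∀ z, ∑ b ∈ s, yb B c b z ^ 2 ≤ W0 := fun z => by
    have h1 : ∑ b ∈ s, yb B c b z ^ 2 = ∑ b ∈ s, ‖Y B c b z‖ ^ 2 :=
      Finset.sum_congr rfl fun b _ => by rw [← hyn, sq_abs]
    rw [h1]; exact hW z
  have hW00 : 0 ≤ W0 := hv0.trans hv
  have hWc : Continuous fun z => ∑ b ∈ s, yb B c b z ^ 2 :=
    continuous_finsetSum _ fun b _ => (yb_cont B c b).pow 2
  have hXc : Continuous fun z => Complex.exp (I * ∑ b ∈ s, Y B c b z) :=
    (continuous_const.mul (continuous_finsetSum _ fun b _ => Y_cont B c b)).cexp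
  have hPc : Continuous fun z => ∏ b ∈ s, (1 + I * Y B c b z) :=
    continuous_finsetProd _ fun b _ => continuous_const.add (continuous_const.mul (Y_cont B c b))
  -- pointwise
  have hpt : ∀ z, ‖Complex.exp (I * ∑ b ∈ s, Y B c b z) * (Real.exp (v / 2) : ℂ) -
      ∏ b ∈ s, (1 + I * Y B c b z)‖ ≤
      Real.exp (W0 / 2) * (|∑ b ∈ s, yb B c b z ^ 2 - v| / 2 + δ * W0) := by
    intro z
    have h1 : ‖∏ b ∈ s, (Complex.exp (I * yb B c b z) * Complex.exp ((yb B c b z ^ 2 / 2 : ℝ))) -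
        ∏ b ∈ s, (1 + I * (yb B c b z : ℂ))‖ ≤
        (∏ b ∈ s, Real.exp (yb B c b z ^ 2 / 2)) * ∑ b ∈ s, |yb B c b z| ^ 3 := by
      refine pl s _ _ _ _ ?_ ?_ ?_ ?_
      · intro b _
        exact Real.one_le_exp (by positivity)
      · intro b _
        rw [norm_mul, mul_comm I, Complex.norm_exp_ofReal_mul_I, one_mul, ← Complex.ofReal_exp,
          Complex.norm_real, Real.norm_eq_abs, abs_of_pos (Real.exp_pos _)]
      · intro b _
        have h2 : ‖1 + I * (yb B c b z : ℂ)‖ ^ 2 = 1 + yb B c b z ^ 2 := by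
          rw [← Complex.normSq_eq_norm_sq, Complex.normSq_apply]
          simp
          ring
        have h3 : 1 + yb B c b z ^ 2 ≤ Real.exp (yb B c b z ^ 2 / 2) ^ 2 := by
          rw [← Real.exp_nat_mul]
          have := Real.add_one_le_exp (yb B c b z ^ 2)
          have h4 : ((2 : ℕ) : ℝ) * (yb B c b z ^ 2 / 2) = yb B c b z ^ 2 := by push_cast; ring
          rw [h4]; linarith
        rw [← h2] at h3
        exact le_of_sq_le_sq h3 (Real.exp_pos _).le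
      · intro b hb
        exact sc _ ((hyδ b hb z).trans hδ)
    have h2 : ∏ b ∈ s, Real.exp (yb B c b z ^ 2 / 2) =
        Real.exp ((∑ b ∈ s, yb B c b z ^ 2) / 2) := by
      rw [← Real.exp_sum, Finset.sum_div]
    have h3 : ∑ b ∈ s, |yb B c b z| ^ 3 ≤ δ * W0 := by
      calc ∑ b ∈ s, |yb B c b z| ^ 3 ≤ ∑ b ∈ s, δ * yb B c b z ^ 2 := by
            refine Finset.sum_le_sum fun b hb => ?_
            have h4 : |yb B c b z| ^ 3 = |yb B c b z| * yb B c b z ^ 2 := by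
              rw [← sq_abs (yb B c b z)]; ring
            rw [h4]
            exact mul_le_mul_of_nonneg_right (hyδ b hb z) (sq_nonneg _)
        _ = δ * ∑ b ∈ s, yb B c b z ^ 2 := by rw [Finset.mul_sum]
        _ ≤ δ * W0 := mul_le_mul_of_nonneg_left (hWr z) hδ0.le
    have h4 : ∏ b ∈ s, (Complex.exp (I * yb B c b z) * Complex.exp ((yb B c b z ^ 2 / 2 : ℝ))) =
        Complex.exp (I * ∑ b ∈ s, Y B c b z) *
          (Real.exp ((∑ b ∈ s, yb B c b z ^ 2) / 2) : ℂ) := by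
      rw [Finset.prod_mul_distrib, ← Complex.exp_sum, ← Complex.exp_sum, Finset.mul_sum,
        Complex.ofReal_exp]
      congr 2
      · exact Finset.sum_congr rfl fun b _ => by rw [hyY]
      · push_cast
        rw [Finset.sum_div]
    have h5 : ∏ b ∈ s, (1 + I * (yb B c b z : ℂ)) = ∏ b ∈ s, (1 + I * Y B c b z) :=
      Finset.prod_congr rfl fun b _ => by rw [hyY]
    rw [h2, h4, h5] at h1
    have hexW : Real.exp ((∑ b ∈ s, yb B c b z ^ 2) / 2) ≤ Real.exp (W0 / 2) :=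
      Real.exp_le_exp.2 (by linarith [hWr z])
    have h6 : ‖Complex.exp (I * ∑ b ∈ s, Y B c b z) * (Real.exp (v / 2) : ℂ) -
        Complex.exp (I * ∑ b ∈ s, Y B c b z) *
          (Real.exp ((∑ b ∈ s, yb B c b z ^ 2) / 2) : ℂ)‖ ≤
        Real.exp (W0 / 2) * (|∑ b ∈ s, yb B c b z ^ 2 - v| / 2) := by
      rw [← mul_sub, norm_mul]
      have h7 : I * ∑ b ∈ s, Y B c b z = ((∑ b ∈ s, yb B c b z : ℝ) : ℂ) * I := by
        push_cast
        rw [mul_comm, Finset.sum_congr rfl fun b _ => (hyY b z)]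
      rw [h7, Complex.norm_exp_ofReal_mul_I, one_mul, ← Complex.ofReal_sub, Complex.norm_real,
        Real.norm_eq_abs]
      have h8 := exp_diff (v / 2) ((∑ b ∈ s, yb B c b z ^ 2) / 2) (W0 / 2) (by linarith)
        (by linarith [hWr z])
      refine h8.trans (le_of_eq ?_)
      rw [← sub_div, abs_div, abs_sub_comm]
      norm_num
    calc _ ≤ ‖Complex.exp (I * ∑ b ∈ s, Y B c b z) * (Real.exp (v / 2) : ℂ) -
        Complex.exp (I * ∑ b ∈ s, Y B c b z) *
          (Real.exp ((∑ b ∈ s, yb B c b z ^ 2) / 2) : ℂ)‖ +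
        ‖Complex.exp (I * ∑ b ∈ s, Y B c b z) *
          (Real.exp ((∑ b ∈ s, yb B c b z ^ 2) / 2) : ℂ) - ∏ b ∈ s, (1 + I * Y B c b z)‖ :=
          norm_sub_le_norm_sub_add_norm_sub _ _ _
      _ ≤ Real.exp (W0 / 2) * (|∑ b ∈ s, yb B c b z ^ 2 - v| / 2) +
          Real.exp (W0 / 2) * (δ * W0) := by
          refine add_le_add h6 (h1.trans ?_)
          refine mul_le_mul hexW h3 (Finset.sum_nonneg fun b _ => by positivity)
            (Real.exp_pos _).le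
      _ = _ := by ring
  -- integrate
  have habs : ∫ z in cell 2, |∑ b ∈ s, yb B c b z ^ 2 - v| ≤ 2 * δ * (1 + v) := by
    have h1 : ∀ z, |∑ b ∈ s, yb B c b z ^ 2 - v| ≤
        (δ⁻¹ * (∑ b ∈ s, yb B c b z ^ 2 - v) ^ 2 + δ) / 2 := by
      intro z
      set f := ∑ b ∈ s, yb B c b z ^ 2 - v
      have h2 : 0 ≤ δ⁻¹ * (|f| - δ) ^ 2 := by positivity
      have h3 : δ⁻¹ * (|f| - δ) ^ 2 = δ⁻¹ * f ^ 2 - 2 * |f| + δ := by
        rw [← sq_abs f]
        field_simp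
        ring
      linarith
    have h2 : ∫ z in cell 2, |∑ b ∈ s, yb B c b z ^ 2 - v| ≤
        ∫ z in cell 2, (δ⁻¹ * (∑ b ∈ s, yb B c b z ^ 2 - v) ^ 2 + δ) / 2 :=
      integral_mono (cell_integrable 2 (hWc.sub continuous_const).abs)
        (cell_integrable 2 (by fun_prop)) h1
    refine h2.trans ?_
    rw [integral_div, integral_add (cell_integrable 2 (by fun_prop))
      (cell_integrable 2 continuous_const), integral_const_mul, setIntegral_const, cell2]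
    have h3 := var_W B c hsym hc s hD δ hyδ
    rw [← hvdef] at h3
    have h4 : δ⁻¹ * ∫ z in cell 2, (∑ b ∈ s, yb B c b z ^ 2 - v) ^ 2 ≤ δ⁻¹ * (4 * δ ^ 2 * v) :=
      mul_le_mul_of_nonneg_left h3 (by positivity)
    have h5 : δ⁻¹ * (4 * δ ^ 2 * v) = 4 * δ * v := by field_simp
    rw [h5] at h4
    rw [smul_eq_mul]
    linarith
  have hint : ‖∫ z in cell 2, (Complex.exp (I * ∑ b ∈ s, Y B c b z) * (Real.exp (v / 2) : ℂ) -
      ∏ b ∈ s, (1 + I * Y B c b z))‖ ≤ Real.exp (W0 / 2) * (1 + 5 * W0) * δ := by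
    calc _ ≤ ∫ z in cell 2, ‖Complex.exp (I * ∑ b ∈ s, Y B c b z) * (Real.exp (v / 2) : ℂ) -
          ∏ b ∈ s, (1 + I * Y B c b z)‖ := norm_integral_le_integral_norm _
      _ ≤ ∫ z in cell 2, Real.exp (W0 / 2) * (|∑ b ∈ s, yb B c b z ^ 2 - v| / 2 + δ * W0) := by
          refine integral_mono (cell_integrable 2 ((hXc.mul continuous_const).sub hPc).norm)
            (cell_integrable 2 (by fun_prop)) hpt
      _ = Real.exp (W0 / 2) * ((∫ z in cell 2, |∑ b ∈ s, yb B c b z ^ 2 - v|) / 2 +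
            4 * (δ * W0)) := by
          rw [integral_const_mul, integral_add (cell_integrable 2 (by fun_prop))
            (cell_integrable 2 continuous_const), integral_div, setIntegral_const, cell2,
            smul_eq_mul]
      _ ≤ Real.exp (W0 / 2) * ((1 + 5 * W0) * δ) := by
          refine mul_le_mul_of_nonneg_left ?_ (Real.exp_pos _).le
          nlinarith
      _ = _ := by ring
  have hsub : ∫ z in cell 2, (Complex.exp (I * ∑ b ∈ s, Y B c b z) * (Real.exp (v / 2) : ℂ) -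
      ∏ b ∈ s, (1 + I * Y B c b z)) = (∫ z in cell 2, Complex.exp (I * ∑ b ∈ s, Y B c b z) *
        (Real.exp (v / 2) : ℂ)) - ∫ z in cell 2, ∏ b ∈ s, (1 + I * Y B c b z) :=
    integral_sub (cell_integrable 2 (hXc.mul continuous_const)) (cell_integrable 2 hPc)
  rw [hsub, integral_mul_const, prod_one B c s h0 hD] at hint
  have hfin : (∫ z in cell 2, Complex.exp (I * ∑ b ∈ s, Y B c b z)) -
      4 * Complex.exp ((-v / 2 : ℝ)) = ((∫ z in cell 2, Complex.exp (I * ∑ b ∈ s, Y B c b z)) *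
        (Real.exp (v / 2) : ℂ) - 4) * (Real.exp (-v / 2) : ℂ) := by
    rw [sub_mul, mul_assoc, ← Complex.ofReal_mul, ← Real.exp_add]
    have : v / 2 + -v / 2 = 0 := by ring
    rw [this, Real.exp_zero, Complex.ofReal_one, mul_one, Complex.ofReal_exp]
  rw [hfin, norm_mul, Complex.norm_real, Real.norm_eq_abs, abs_of_pos (Real.exp_pos _)]
  have h9 : Real.exp (-v / 2) ≤ 1 := Real.exp_le_one_iff.2 (by linarith)
  calc _ ≤ ‖(∫ z in cell 2, Complex.exp (I * ∑ b ∈ s, Y B c b z)) *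
        (Real.exp (v / 2) : ℂ) - 4‖ * 1 := mul_le_mul_of_nonneg_left h9 (norm_nonneg _)
    _ ≤ _ := by rw [mul_one]; exact hint

end

end

end Pool.Agent.L0h56.BQ
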