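import Pool.Agent.L0h56.BQ.Qe2

/-! MP_6b977f_mp: sums over all lattice points of norm `m p^k` -/

set_option autoImplicit false
open Filter Topology Complex Finset

namespace Pool.Agent.L0h56.BQ

noncomputable section

theorem sqrt_ne {E : ℕ} (hE : 0 < E) : ((√(E:ℝ) : ℝ) : ℂ) ≠ 0 := by
  have : √(E:ℝ) ≠ 0 := (Real.sqrt_pos.2 (by exact_mod_cast hE)).ne'
  exact_mod_cast this

section

variable {p : ℕ} {ϖ : GaussianInt} (h : Spl p ϖ)
include h

/-- the unit complex number in the direction of the prime -/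
theorem Spl.uE_mul (E : ℕ) (ν : GaussianInt) :
    uE (E * p) (ϖ * ν) = uE p ϖ * uE E ν := by
  unfold uE
  rw [map_mul]
  push_cast
  rw [Real.sqrt_mul (by positivity)]
  push_cast
  by_cases hE : ((√(E:ℝ) : ℝ) : ℂ) = 0
  · rw [hE]; simp
  · have hp := sqrt_ne h.p_pos
    field_simp

theorem Spl.star_spl (hp : p.Prime) : Spl p (star ϖ) := by
  have hn : (star ϖ).norm = p := by rw [norm_star, h.nm]
  refine ⟨?_, hn, ?_⟩
  · have hirr : Irreducible (star ϖ) := by
      refine ⟨?_, ?_⟩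
      · intro hu
        have h1 := Zsqrtd.norm_eq_one_iff.2 hu
        rw [hn] at h1
        simp at h1
        exact hp.one_lt.ne' h1
      · intro x y hxy
        have h1 : p = x.norm.natAbs * y.norm.natAbs := by
          have h2 : (p : ℤ) = x.norm * y.norm := by rw [← hn, hxy, Zsqrtd.norm_mul]
          rw [← Int.natAbs_mul, ← h2]
          simp
        rcases (Nat.prime_mul_iff.1 (h1 ▸ hp)) with h | h
        · right
          exact Zsqrtd.norm_eq_one_iff.1 h.2
        · left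
          exact Zsqrtd.norm_eq_one_iff.1 h.2
    exact hirr.prime
  · intro hd
    rw [star_star] at hd
    apply h.nd
    obtain ⟨x, hx⟩ := hd
    refine ⟨star x, ?_⟩
    have := congrArg star hx
    rwa [star_mul, star_star, mul_comm] at this

theorem Spl.V_succ (E : ℕ) : V (E * p) =
    (V E).image (fun ν => ϖ * ν) ∪ (V E).image (fun ν => star ϖ * ν) := by
  classical
  have hp0 : (p : ℤ) ≠ 0 := by exact_mod_cast h.p_pos.ne'
  ext ν
  rw [mem_union, mem_image, mem_image]
  constructor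
  · intro hν
    rw [mem_V] at hν
    obtain ⟨j, hj, h1, h2⟩ := h.split 1 ν ⟨E, by rw [hν]; push_cast; ring⟩
    have hj' : j = 0 ∨ j = 1 := by omega
    rcases hj' with rfl | rfl
    · right
      rw [Nat.sub_zero, pow_one] at h2
      obtain ⟨μ, rfl⟩ := h2
      refine ⟨μ, ?_, rfl⟩
      rw [mem_V]
      rw [Zsqrtd.norm_mul, norm_star, h.nm] at hν
      refine mul_left_cancel₀ hp0 (hν.trans ?_)
      push_cast
      ring
    · left
      rw [pow_one] at h1
      obtain ⟨μ, rfl⟩ := h1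
      refine ⟨μ, ?_, rfl⟩
      rw [mem_V]
      rw [Zsqrtd.norm_mul, h.nm] at hν
      refine mul_left_cancel₀ hp0 (hν.trans ?_)
      push_cast
      ring
  · rintro (⟨μ, hμ, rfl⟩ | ⟨μ, hμ, rfl⟩)
    · rw [mem_V] at hμ ⊢
      rw [Zsqrtd.norm_mul, h.nm, hμ]
      push_cast
      ring
    · rw [mem_V] at hμ ⊢
      rw [Zsqrtd.norm_mul, norm_star, h.nm, hμ]
      push_cast
      ring

theorem Spl.V_inter (E : ℕ) : (V (E * p)).image (fun ν => ϖ * ν) ∩
    (V (E * p)).image (fun ν => star ϖ * ν) = (V E).image fun ν => (p : GaussianInt) * ν := by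
  classical
  have hp0 : (p : ℤ) ≠ 0 := by exact_mod_cast h.p_pos.ne'
  ext ν
  rw [mem_inter, mem_image, mem_image, mem_image]
  constructor
  · rintro ⟨⟨μ, hμ, rfl⟩, ⟨μ', hμ', h2⟩⟩
    have h3 : ϖ ^ 1 * (star ϖ) ^ 1 ∣ ϖ * μ :=
      h.both 1 1 _ (by rw [pow_one]; exact dvd_mul_right _ _)
        (by rw [pow_one, ← h2]; exact dvd_mul_right _ _)
    rw [pow_one, pow_one, h.mul_star] at h3
    obtain ⟨x, hx⟩ := h3
    refine ⟨x, ?_, hx.symm⟩
    have h4 := congrArg Zsqrtd.norm hx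
    rw [mem_V] at hμ
    rw [Zsqrtd.norm_mul, h.nm, hμ, Zsqrtd.norm_mul] at h4
    rw [mem_V]
    have h5 : (((p : ℕ) : GaussianInt)).norm = (p : ℤ) * p := Zsqrtd.norm_natCast p
    rw [h5] at h4
    refine mul_left_cancel₀ (mul_ne_zero hp0 hp0) (h4.symm.trans ?_)
    push_cast
    ring
  · rintro ⟨x, hx, rfl⟩
    rw [mem_V] at hx
    have h1 := h.mul_star
    refine ⟨⟨star ϖ * x, ?_, ?_⟩, ⟨ϖ * x, ?_, ?_⟩⟩
    · rw [mem_V, Zsqrtd.norm_mul, norm_star, h.nm, hx]
      push_cast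
      ring
    · show ϖ * (star ϖ * x) = _
      rw [← mul_assoc, h1]
    · rw [mem_V, Zsqrtd.norm_mul, h.nm, hx]
      push_cast
      ring
    · show star ϖ * (ϖ * x) = _
      rw [← mul_assoc, mul_comm (star ϖ), h1]

/-- the sum of the `Q`-th powers of the unit vectors -/
def GQ (E Q : ℕ) : ℂ := ∑ ν ∈ V E, uE E ν ^ Q

theorem Spl.sum_union (E : ℕ) (f : GaussianInt → ℂ) :
    ∑ ν ∈ V (E * p * p), f ν + ∑ ν ∈ V E, f ((p : GaussianInt) * ν) =
      ∑ ν ∈ V (E * p), f (ϖ * ν) + ∑ ν ∈ V (E * p), f (star ϖ * ν) := by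
  classical
  have hϖ0 : ϖ ≠ 0 := h.pr.ne_zero
  have hs0 : star ϖ ≠ 0 := by
    intro h0
    apply hϖ0
    rw [← star_star ϖ, h0, star_zero]
  have hp0 : (p : GaussianInt) ≠ 0 := by
    rw [← h.mul_star]
    exact mul_ne_zero hϖ0 hs0
  have h1 := Finset.sum_union_inter (s₁ := (V (E * p)).image (fun ν => ϖ * ν))
    (s₂ := (V (E * p)).image (fun ν => star ϖ * ν)) (f := f)
  rw [← h.V_succ (E * p), h.V_inter E] at h1
  rw [Finset.sum_image (fun x _ y _ hxy => mul_left_cancel₀ hp0 hxy),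
    Finset.sum_image (fun x _ y _ hxy => mul_left_cancel₀ hϖ0 hxy),
    Finset.sum_image (fun x _ y _ hxy => mul_left_cancel₀ hs0 hxy)] at h1
  exact h1

theorem Spl.recu (hp : p.Prime) (E Q : ℕ) :
    GQ (E * p * p) Q + GQ E Q = uE p ϖ ^ Q * GQ (E * p) Q +
      (starRingEnd ℂ) (uE p ϖ) ^ Q * GQ (E * p) Q := by
  have h1 := h.sum_union E (fun ν => uE (E * p * p) ν ^ Q)
  have h2 : ∀ ν, uE (E * p * p) ((p : GaussianInt) * ν) = uE E ν := by
    intro ν
    rw [← h.mul_star, mul_assoc ϖ (star ϖ) ν, h.uE_mul, (h.star_spl hp).uE_mul, uE_star, ← mul_assoc,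
      Complex.mul_conj, Complex.normSq_eq_norm_sq, uE_norm p h.p_pos ϖ (mem_V.2 h.nm)]
    simp
  simp_rw [h2, h.uE_mul, (h.star_spl hp).uE_mul, uE_star, mul_pow, ← Finset.mul_sum] at h1
  exact h1

theorem Spl.card_rec (E : ℕ) : (V (E * p * p)).card + (V E).card = 2 * (V (E * p)).card := by
  have h1 := h.sum_union E (fun _ => 1)
  simp only [Finset.sum_const, nsmul_eq_mul, mul_one] at h1
  have h2 : (((V (E * p * p)).card + (V E).card : ℕ) : ℂ) = ((2 * (V (E * p)).card : ℕ) : ℂ) := by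
    push_cast
    rw [h1]
    ring
  exact_mod_cast h2

theorem Spl.card_one (m : ℕ) (hpm : ¬ p ∣ m) :
    (V (m * p)).card = 2 * (V m).card := by
  classical
  have hϖ0 : ϖ ≠ 0 := h.pr.ne_zero
  have hs0 : star ϖ ≠ 0 := by
    intro h0
    apply hϖ0
    rw [← star_star ϖ, h0, star_zero]
  have hdisj : Disjoint ((V m).image (fun ν => ϖ * ν)) ((V m).image (fun ν => star ϖ * ν)) := by
    rw [Finset.disjoint_left]
    intro ν h1 h2
    rw [mem_image] at h1 h2
    obtain ⟨μ, hμ, rfl⟩ := h1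
    obtain ⟨μ', hμ', h2⟩ := h2
    have h3 : ϖ ^ 1 * (star ϖ) ^ 1 ∣ ϖ * μ :=
      h.both 1 1 _ (by rw [pow_one]; exact dvd_mul_right _ _)
        (by rw [pow_one, ← h2]; exact dvd_mul_right _ _)
    rw [pow_one, pow_one] at h3
    have h4 : star ϖ ∣ μ := (mul_dvd_mul_iff_left hϖ0).1 h3
    obtain ⟨x, hx⟩ := h4
    apply hpm
    have h5 := congrArg Zsqrtd.norm hx
    rw [mem_V.1 hμ, Zsqrtd.norm_mul, norm_star, h.nm] at h5
    have h6 : (p : ℤ) ∣ m := ⟨_, h5⟩
    exact_mod_cast h6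
  rw [h.V_succ m, card_union_of_disjoint hdisj,
    card_image_of_injective _ (mul_right_injective₀ hϖ0),
    card_image_of_injective _ (mul_right_injective₀ hs0)]
  ring

theorem Spl.card_V (m : ℕ) (hpm : ¬ p ∣ m) (k : ℕ) :
    (V (m * p ^ k)).card = (k + 1) * (V m).card ∧
    (V (m * p ^ (k + 1))).card = (k + 2) * (V m).card := by
  induction k with
  | zero =>
    rw [pow_zero, mul_one, zero_add, pow_one, one_mul]
    exact ⟨rfl, by rw [zero_add]; exact h.card_one m hpm⟩
  | succ k ih =>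
    refine ⟨ih.2, ?_⟩
    have h1 := h.card_rec (m * p ^ k)
    have h2 : m * p ^ k * p * p = m * p ^ (k + 1 + 1) := by ring
    have h3 : m * p ^ k * p = m * p ^ (k + 1) := by ring
    rw [h2, h3, ih.1, ih.2] at h1
    have h4 : 2 * ((k + 2) * (V m).card) = (k + 1 + 2) * (V m).card + (k + 1) * (V m).card := by
      ring
    exact Nat.add_right_cancel (h1.trans h4)

/-- the power sums are bounded -/
theorem Spl.bounded (hp : p.Prime) (m Q : ℕ) (hQ : Q ≠ 0) :
    ∃ C : ℝ, ∀ k, ‖GQ (m * p ^ k) Q‖ ≤ C := by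
  set α : ℂ := uE p ϖ ^ Q with hα
  set β : ℂ := (starRingEnd ℂ) (uE p ϖ) ^ Q with hβ
  have hnu : ‖uE p ϖ‖ = 1 := uE_norm p h.p_pos ϖ (mem_V.2 h.nm)
  have hαβ : α * β = 1 := by
    rw [hα, hβ, ← mul_pow, Complex.mul_conj, Complex.normSq_eq_norm_sq, hnu]
    simp
  have hαn : ‖α‖ = 1 := by rw [hα, norm_pow, hnu, one_pow]
  have hβn : ‖β‖ = 1 := by rw [hβ, norm_pow, RCLike.norm_conj, hnu, one_pow]
  have hne : α - β ≠ 0 := by
    intro h0
    have h1 : α = β := sub_eq_zero.1 h0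
    rw [hα, hβ] at h1
    unfold uE at h1
    rw [map_div₀, Complex.conj_ofReal, div_pow, div_pow, ← GaussianInt.toComplex_star] at h1
    have hs := pow_ne_zero Q (sqrt_ne h.p_pos)
    have h2 := (div_left_inj' hs).1 h1
    rw [← map_pow, ← map_pow, GaussianInt.toComplex_inj] at h2
    have h3 : ϖ ∣ (star ϖ) ^ Q := by
      rw [← h2]
      exact dvd_pow_self _ hQ
    exact h.nd (h.pr.dvd_of_dvd_pow h3)
  set g : ℕ → ℂ := fun k => GQ (m * p ^ k) Q with hg
  have hrec : ∀ k, g (k + 2) + g k = α * g (k + 1) + β * g (k + 1) := by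
    intro k
    have h1 := h.recu hp (m * p ^ k) Q
    have h2 : m * p ^ k * p * p = m * p ^ (k + 2) := by ring
    have h3 : m * p ^ k * p = m * p ^ (k + 1) := by ring
    rw [h2, h3] at h1
    exact h1
  have he : ∀ k, ‖g (k + 1) - α * g k‖ = ‖g 1 - α * g 0‖ := by
    intro k
    induction k with
    | zero => rfl
    | succ k ih =>
      have h1 : g (k + 1 + 1) - α * g (k + 1) = β * (g (k + 1) - α * g k) := by
        linear_combination hrec k + g k * hαβ
      rw [h1, norm_mul, hβn, one_mul, ih]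
  have hf : ∀ k, ‖g (k + 1) - β * g k‖ = ‖g 1 - β * g 0‖ := by
    intro k
    induction k with
    | zero => rfl
    | succ k ih =>
      have h1 : g (k + 1 + 1) - β * g (k + 1) = α * (g (k + 1) - β * g k) := by
        linear_combination hrec k + g k * hαβ
      rw [h1, norm_mul, hαn, one_mul, ih]
  refine ⟨(‖g 1 - β * g 0‖ + ‖g 1 - α * g 0‖) / ‖α - β‖, fun k => ?_⟩
  have hpos : 0 < ‖α - β‖ := norm_pos_iff.2 hne
  rw [le_div_iff₀ hpos, ← norm_mul]
  have h1 : g k * (α - β) = (g (k + 1) - β * g k) - (g (k + 1) - α * g k) := by ring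
  show ‖g k * (α - β)‖ ≤ _
  rw [h1, ← he k, ← hf k]
  exact norm_sub_le _ _

end

/-- the lattice points off the axes -/
def W' (E : ℕ) : Finset GaussianInt := (V E).filter fun ν => ν.re ≠ 0 ∧ ν.im ≠ 0

theorem axis_card (E : ℕ) : ((V E).filter fun ν => ¬ (ν.re ≠ 0 ∧ ν.im ≠ 0)).card ≤ 4 := by
  classical
  -- every axis point is a unit times the nonnegative root
  set r : ℤ := (Nat.sqrt E : ℤ) with hr
  have hsub : ((V E).filter fun ν => ¬ (ν.re ≠ 0 ∧ ν.im ≠ 0)) ⊆
      ({⟨r, 0⟩, ⟨-r, 0⟩, ⟨0, r⟩, ⟨0, -r⟩} : Finset GaussianInt) := by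
    intro ν hν
    rw [mem_filter, mem_V, norm_eq] at hν
    obtain ⟨h1, h2⟩ := hν
    have key : ∀ x : ℤ, x ^ 2 = E → x = r ∨ x = -r := by
      intro x hx
      have h3 : Nat.sqrt E = x.natAbs := by
        have h4 : E = x.natAbs * x.natAbs := by
          have h5 : (E : ℤ) = (x.natAbs : ℤ) * x.natAbs := by
            rw [Int.natAbs_mul_self' x, ← hx]
            ring
          exact_mod_cast h5
        rw [h4, Nat.sqrt_eq]
      rw [hr, h3]
      rcases Int.natAbs_eq x with h | h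
      · left; exact h
      · right; omega
    simp only [mem_insert, mem_singleton]
    have h3 : ν.re = 0 ∨ ν.im = 0 := by
      by_contra hcon
      push Not at hcon
      exact h2 hcon
    rcases h3 with h3 | h3
    · rw [h3] at h1
      have h4 : ν.im ^ 2 = E := by linarith
      rcases key _ h4 with h5 | h5
      · right; right; left
        exact Zsqrtd.ext h3 h5
      · right; right; right
        exact Zsqrtd.ext h3 h5
    · rw [h3] at h1
      have h4 : ν.re ^ 2 = E := by linarith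
      rcases key _ h4 with h5 | h5
      · left
        exact Zsqrtd.ext h5 h3
      · right; left
        exact Zsqrtd.ext h5 h3
  refine (card_le_card hsub).trans ?_
  exact (card_insert_le _ _).trans (Nat.succ_le_succ ((card_insert_le _ _).trans
    (Nat.succ_le_succ ((card_insert_le _ _).trans (by rw [card_singleton])))))

theorem W'_card (E : ℕ) : (V E).card ≤ (W' E).card + 4 := by
  classical
  have h1 := Finset.card_filter_add_card_filter_not (s := V E) (fun ν : GaussianInt =>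
    ν.re ≠ 0 ∧ ν.im ≠ 0)
  have h2 := axis_card E
  unfold W'
  omega

/-- normalised coefficients of the sum over all lattice points -/
def be (E : ℕ) (ν : GaussianInt) : ℝ := -((ν.re.sign * ν.im.sign : ℤ) : ℝ) / √((W' E).card : ℝ)

/-- `(#)^{-1/2} ∑ sin (π |a| x) sin (π |b| y)` over all integers `a`, `b` with `a² + b² = E` -/
def ue (E : ℕ) (z : ℂ) : ℝ := (1 / √((W' E).card : ℝ)) *
  ∑ ν ∈ V E, Real.sin (Real.pi * ν.re.natAbs * z.re) * Real.sin (Real.pi * ν.im.natAbs * z.im)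

theorem sgn_sin (a : ℤ) (x : ℝ) : (a.sign : ℝ) * Real.sin (Real.pi * a * x) =
    Real.sin (Real.pi * a.natAbs * x) := by
  rcases lt_trichotomy a 0 with h | h | h
  · rw [Int.sign_eq_neg_one_of_neg h]
    have h1 : (a.natAbs : ℝ) = -(a : ℝ) := by
      rw [Nat.cast_natAbs, abs_of_neg h]
      push_cast
      rfl
    rw [h1]
    have h2 : Real.pi * -(a:ℝ) * x = -(Real.pi * a * x) := by ring
    rw [h2, Real.sin_neg]
    push_cast
    ring
  · subst h
    simp
  · rw [Int.sign_eq_one_of_pos h]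
    have h1 : (a.natAbs : ℝ) = (a : ℝ) := by
      rw [Nat.cast_natAbs, abs_of_pos h]
    rw [h1]
    push_cast
    ring

theorem four_ch (ν : GaussianInt) (z : ℂ) :
    ch ν z + ch (-ν) z - ch (star ν) z - ch (-star ν) z =
      ((-4 * (Real.sin (Real.pi * ν.re * z.re) * Real.sin (Real.pi * ν.im * z.im)) : ℝ) : ℂ) := by
  rw [ch_neg, ch_neg]
  have h1 : ∀ w : ℂ, w + (starRingEnd ℂ) w = ((2 * w.re : ℝ) : ℂ) := fun w => by
    rw [Complex.add_conj]
  have h2 : ch ν z + (starRingEnd ℂ) (ch ν z) - ch (star ν) z - (starRingEnd ℂ) (ch (star ν) z) =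
      ((2 * (ch ν z).re - 2 * (ch (star ν) z).re : ℝ) : ℂ) := by
    rw [sub_sub, h1, h1]
    push_cast
    ring
  rw [h2]
  congr 1
  unfold ch
  rw [Complex.exp_ofReal_mul_I_re, Complex.exp_ofReal_mul_I_re]
  have h3 : Real.pi * (ν.re * z.re + ν.im * z.im) =
      Real.pi * ν.re * z.re + Real.pi * ν.im * z.im := by ring
  have h4 : Real.pi * ((star ν).re * z.re + (star ν).im * z.im) =
      Real.pi * ν.re * z.re - Real.pi * ν.im * z.im := by
    simp
    ring
  rw [h3, h4, Real.cos_add, Real.cos_sub]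
  ring

theorem be_rep (E : ℕ) : Rep (-1) E (be E) (ue E) where
  neg := fun ν => by
    unfold be
    simp
  st := fun ν => by
    unfold be
    simp
    ring
  eq := fun z => by
    have hinv : ∀ (f : GaussianInt → ℂ), ∑ ν ∈ V E, f ν = ∑ ν ∈ V E, f (-ν) := fun f =>
      Finset.sum_bij' (fun ν _ => -ν) (fun ν _ => -ν) (fun ν hν => neg_mem_V hν)
        (fun ν hν => neg_mem_V hν) (fun ν _ => neg_neg ν) (fun ν _ => neg_neg ν)
        fun ν _ => by rw [neg_neg]
    have hst : ∀ (f : GaussianInt → ℂ), ∑ ν ∈ V E, f ν = ∑ ν ∈ V E, f (star ν) := fun f =>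
      Finset.sum_bij' (fun ν _ => star ν) (fun ν _ => star ν) (fun ν hν => star_mem_V hν)
        (fun ν hν => star_mem_V hν) (fun ν _ => star_star ν) (fun ν _ => star_star ν)
        fun ν _ => by rw [star_star]
    set f : GaussianInt → ℂ := fun ν => (be E ν : ℂ) * ch ν z with hf
    have h1 : 4 * ∑ ν ∈ V E, f ν = ∑ ν ∈ V E, (f ν + f (-ν) + f (star ν) + f (-star ν)) := by
      rw [Finset.sum_add_distrib, Finset.sum_add_distrib, Finset.sum_add_distrib, ← hinv f,
        ← hst f, ← hst fun ν => f (-ν), ← hinv f]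
      ring
    have h2 : ∀ ν, f ν + f (-ν) + f (star ν) + f (-star ν) =
        4 * ((1 / √((W' E).card : ℝ) * (Real.sin (Real.pi * ν.re.natAbs * z.re) *
          Real.sin (Real.pi * ν.im.natAbs * z.im)) : ℝ) : ℂ) := by
      intro ν
      have h3 : be E (-ν) = be E ν := by unfold be; simp
      have h4 : be E (star ν) = -be E ν := by unfold be; simp; ring
      have h5 : be E (-star ν) = -be E ν := by unfold be; simp; ring
      simp only [hf]
      rw [h3, h4, h5]
      have h6 := four_ch ν z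
      have h7 : (be E ν : ℂ) * ch ν z + (be E ν : ℂ) * ch (-ν) z + ((-be E ν : ℝ) : ℂ) * ch (star ν) z +
          ((-be E ν : ℝ) : ℂ) * ch (-star ν) z =
          (be E ν : ℂ) * (ch ν z + ch (-ν) z - ch (star ν) z - ch (-star ν) z) := by
        push_cast
        ring
      rw [h7, h6, ← sgn_sin, ← sgn_sin, ← Complex.ofReal_mul]
      have h8 : be E ν * (-4 * (Real.sin (Real.pi * ν.re * z.re) *
          Real.sin (Real.pi * ν.im * z.im))) = 4 * (1 / √((W' E).card : ℝ) *
          (((ν.re.sign : ℝ) * Real.sin (Real.pi * ν.re * z.re)) *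
          ((ν.im.sign : ℝ) * Real.sin (Real.pi * ν.im * z.im)))) := by
        unfold be
        push_cast
        ring
      rw [h8]
      push_cast
      ring
    rw [Finset.sum_congr rfl fun ν _ => h2 ν, ← Finset.mul_sum] at h1
    have h3 := mul_left_cancel₀ (by norm_num : (4:ℂ) ≠ 0) h1
    rw [h3]
    unfold ue
    rw [Finset.mul_sum]
    push_cast
    rfl

theorem sign_sq (ν : GaussianInt) : (((ν.re.sign * ν.im.sign : ℤ) : ℝ)) ^ 2 =
    if ν.re ≠ 0 ∧ ν.im ≠ 0 then 1 else 0 := by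
  split_ifs with h
  · have h1 : ∀ a : ℤ, a ≠ 0 → a.sign ^ 2 = 1 := by
      intro a ha
      rcases lt_or_gt_of_ne ha with h | h
      · rw [Int.sign_eq_neg_one_of_neg h]; norm_num
      · rw [Int.sign_eq_one_of_pos h]; norm_num
    have h2 : (ν.re.sign * ν.im.sign) ^ 2 = 1 := by rw [mul_pow, h1 _ h.1, h1 _ h.2, one_mul]
    exact_mod_cast h2
  · have h1 : ν.re = 0 ∨ ν.im = 0 := by
      by_contra hcon
      push Not at hcon
      exact h hcon
    rcases h1 with h1 | h1 <;> simp [h1]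

theorem be_sq (E : ℕ) (f : GaussianInt → ℝ) :
    ∑ ν ∈ V E, be E ν ^ 2 * f ν = 1 / ((W' E).card : ℝ) * ∑ ν ∈ W' E, f ν := by
  classical
  unfold W'
  rw [Finset.sum_filter, Finset.mul_sum]
  refine Finset.sum_congr rfl fun ν _ => ?_
  unfold be
  rw [div_pow, neg_sq, sign_sq, Real.sq_sqrt (by positivity)]
  unfold W'
  split_ifs <;> ring

/-- **Equidistribution of the directions for the sums over all lattice points.** -/
theorem be_even {p : ℕ} (hp : p.Prime) (h4 : p % 4 = 1) (m : ℕ) (hm : 0 < m) (hpm : ¬ p ∣ m)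
    (hne : (V m).Nonempty) (k : ℕ → ℕ) (hk : Tendsto k atTop atTop) (q : ℕ) (hq : q ≠ 0) :
    Tendsto (fun n => ∑ ν ∈ V (m * p ^ k n), be (m * p ^ k n) ν ^ 2 *
      ((uE (m * p ^ k n) ν) ^ (2 * q)).re) atTop (𝓝 0) := by
  classical
  obtain ⟨ϖ, h⟩ := spl_exists p hp h4
  obtain ⟨C, hC⟩ := h.bounded hp m (2 * q) (by omega)
  have hE : ∀ n, 0 < m * p ^ k n := fun n => Nat.mul_pos hm (pow_pos hp.pos _)
  have hcard : Tendsto (fun n => ((W' (m * p ^ k n)).card : ℝ)) atTop atTop := by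
    refine tendsto_natCast_atTop_atTop.comp ?_
    refine tendsto_atTop_mono (f := fun n => k n + 1 - 4) (fun n => ?_) ?_
    · have h1 := (h.card_V m hpm (k n)).1
      have h2 := W'_card (m * p ^ k n)
      have h3 : 1 ≤ (V m).card := hne.card_pos
      have h5 : k n + 1 ≤ (k n + 1) * (V m).card := Nat.le_mul_of_pos_right _ h3
      omega
    · exact (tendsto_sub_atTop_nat 4).comp ((tendsto_add_atTop_nat 1).comp hk)
  have hbound : ∀ n, ‖∑ ν ∈ V (m * p ^ k n), be (m * p ^ k n) ν ^ 2 *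
      ((uE (m * p ^ k n) ν) ^ (2 * q)).re‖ ≤ (C + 4) / ((W' (m * p ^ k n)).card : ℝ) := by
    intro n
    set E := m * p ^ k n with hEdef
    rw [be_sq E fun ν => ((uE E ν) ^ (2 * q)).re, norm_mul, norm_div, norm_one, Real.norm_natCast,
      div_mul_eq_mul_div, one_mul]
    refine div_le_div_of_nonneg_right ?_ (Nat.cast_nonneg _)
    have h1 : ∑ ν ∈ W' E, ((uE E ν) ^ (2 * q)).re = (GQ E (2 * q)).re -
        ∑ ν ∈ (V E).filter (fun ν => ¬ (ν.re ≠ 0 ∧ ν.im ≠ 0)), ((uE E ν) ^ (2 * q)).re := by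
      unfold GQ W'
      rw [Complex.re_sum, eq_sub_iff_add_eq]
      exact Finset.sum_filter_add_sum_filter_not _ _ _
    rw [h1, Real.norm_eq_abs]
    have h2 : |(GQ E (2 * q)).re| ≤ C := (Complex.abs_re_le_norm _).trans (hC (k n))
    have h3 : |∑ ν ∈ (V E).filter (fun ν => ¬ (ν.re ≠ 0 ∧ ν.im ≠ 0)), ((uE E ν) ^ (2 * q)).re| ≤
        4 := by
      calc _ ≤ ∑ ν ∈ (V E).filter (fun ν => ¬ (ν.re ≠ 0 ∧ ν.im ≠ 0)),
            |((uE E ν) ^ (2 * q)).re| := Finset.abs_sum_le_sum_abs _ _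
        _ ≤ ∑ ν ∈ (V E).filter (fun ν => ¬ (ν.re ≠ 0 ∧ ν.im ≠ 0)), (1:ℝ) := by
            refine Finset.sum_le_sum fun ν hν => ?_
            refine (Complex.abs_re_le_norm _).trans ?_
            rw [norm_pow, uE_norm E (hE n) ν (mem_filter.1 hν).1, one_pow]
        _ ≤ 4 := by
            rw [Finset.sum_const, nsmul_eq_mul, mul_one]
            exact_mod_cast axis_card E
    exact (abs_sub _ _).trans (add_le_add h2 h3)
  refine squeeze_zero_norm hbound ?_
  exact Tendsto.div_atTop tendsto_const_nhds hcard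

end

end Pool.Agent.L0h56.BQ
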