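import Pool.Agent.L0h56.BQ.Clt

/-! MP_6b977f_mp: Gaussian integers of norm `m p^k` and their blocks -/

set_option autoImplicit false
open Finset

namespace Pool.Agent.L0h56.BQ

/-- the Gaussian integers of norm `E` -/
noncomputable def V (E : ℕ) : Finset GaussianInt :=
  (((Finset.Icc (-(E : ℤ)) E) ×ˢ (Finset.Icc (-(E : ℤ)) E)).image
    (fun q => (⟨q.1, q.2⟩ : GaussianInt))).filter fun ν => ν.norm = E

theorem norm_eq (ν : GaussianInt) : ν.norm = ν.re ^ 2 + ν.im ^ 2 := by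
  rw [Zsqrtd.norm_def]; ring

theorem mem_V {E : ℕ} {ν : GaussianInt} : ν ∈ V E ↔ ν.norm = E := by
  unfold V
  rw [mem_filter, mem_image]
  constructor
  · exact fun h => h.2
  · intro h
    refine ⟨⟨(ν.re, ν.im), ?_, rfl⟩, h⟩
    rw [norm_eq] at h
    rw [mem_product, mem_Icc, mem_Icc]
    have h1 : ν.re ^ 2 ≤ E := by nlinarith [sq_nonneg ν.im]
    have h2 : ν.im ^ 2 ≤ E := by nlinarith [sq_nonneg ν.re]
    have hb : ∀ x : ℤ, x ^ 2 ≤ E → -(E : ℤ) ≤ x ∧ x ≤ E := by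
      intro x hx
      have h3 : |x| ≤ x ^ 2 := by
        rw [← sq_abs]
        rcases (abs_nonneg x).eq_or_lt with h | h
        · rw [← h]; norm_num
        · nlinarith
      exact abs_le.1 (h3.trans hx)
    exact ⟨hb _ h1, hb _ h2⟩

theorem neg_mem_V {E : ℕ} {ν : GaussianInt} (h : ν ∈ V E) : -ν ∈ V E := by
  rw [mem_V] at *
  rwa [Zsqrtd.norm_neg]

theorem norm_star (ν : GaussianInt) : (star ν).norm = ν.norm := by
  rw [norm_eq, norm_eq]
  simp

/-- a Gaussian prime of norm `p` which does not divide its conjugate -/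
structure Spl (p : ℕ) (ϖ : GaussianInt) : Prop where
  pr : Prime ϖ
  nm : ϖ.norm = p
  nd : ¬ ϖ ∣ star ϖ

theorem spl_exists (p : ℕ) (hp : p.Prime) (h4 : p % 4 = 1) : ∃ ϖ : GaussianInt, Spl p ϖ := by
  have := Fact.mk hp
  obtain ⟨a, b, hab⟩ := Nat.Prime.sq_add_sq (p := p) (by omega)
  set ϖ : GaussianInt := ⟨a, b⟩ with hϖ
  have hn : ϖ.norm = p := by
    rw [norm_eq, hϖ]
    show (a : ℤ) ^ 2 + (b : ℤ) ^ 2 = p
    exact_mod_cast hab
  have hirr : Irreducible ϖ := by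
    refine ⟨?_, ?_⟩
    · intro hu
      have h1 := Zsqrtd.norm_eq_one_iff.2 hu
      rw [hn] at h1
      simp at h1
      exact hp.one_lt.ne' h1
    · intro x y hxy
      have h1 : p = x.norm.natAbs * y.norm.natAbs := by
        have h2 : (p : ℤ) = x.norm * y.norm := by rw [← hn, hxy, Zsqrtd.norm_mul]
        rw [← Int.natAbs_mul, ← h2]
        simp
      rcases (Nat.prime_mul_iff.1 (h1 ▸ hp)) with h | h
      · right
        exact Zsqrtd.norm_eq_one_iff.1 h.2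
      · left
        exact Zsqrtd.norm_eq_one_iff.1 h.2
  refine ⟨ϖ, hirr.prime, hn, ?_⟩
  intro hd
  have hodd : ¬ p ∣ 2 := by
    intro h
    have := Nat.le_of_dvd (by norm_num) h
    have h2 := hp.two_le
    have : p = 2 := by omega
    omega
  have key : ∀ x : ℤ, ϖ ∣ ((2 * x : ℤ) : GaussianInt) → (p : ℤ) ∣ x := by
    intro x hx
    obtain ⟨y, hy⟩ := hx
    have h1 : (2 * x) ^ 2 = (p : ℤ) * y.norm := by
      have h2 := congrArg Zsqrtd.norm hy
      rw [Zsqrtd.norm_mul, hn] at h2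
      rw [← h2, norm_eq]
      simp
    have hp' : Prime (p : ℤ) := Nat.prime_iff_prime_int.1 hp
    have h3 : (p : ℤ) ∣ 2 * x := hp'.dvd_of_dvd_pow (n := 2) ⟨_, h1⟩
    rcases hp'.dvd_or_dvd h3 with h | h
    · exact absurd (by exact_mod_cast h) hodd
    · exact h
  have ha : (p : ℤ) ∣ a := by
    refine key _ ?_
    have h1 : ϖ ∣ ϖ + star ϖ := dvd_add dvd_rfl hd
    convert h1 using 1
    refine Zsqrtd.ext ?_ ?_
    · simp [hϖ]
      ring
    · simp [hϖ]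
  have hb : (p : ℤ) ∣ b := by
    refine key _ ?_
    have h1 : ϖ ∣ (ϖ - star ϖ) * (⟨0, -1⟩ : GaussianInt) := Dvd.dvd.mul_right (dvd_sub dvd_rfl hd) _
    convert h1 using 1
    refine Zsqrtd.ext ?_ ?_
    · simp [hϖ]
      ring
    · simp [hϖ]
  have h2 : (p : ℤ) * p ∣ p := by
    obtain ⟨x, hx⟩ := ha
    obtain ⟨y, hy⟩ := hb
    refine ⟨x ^ 2 + y ^ 2, ?_⟩
    have h3 : (p : ℤ) = a ^ 2 + b ^ 2 := by exact_mod_cast hab.symm
    rw [hx, hy] at h3
    linear_combination h3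
  have h3 : p * p ∣ p := by exact_mod_cast h2
  have h4 := Nat.le_of_dvd hp.pos h3
  have := hp.two_le
  nlinarith

section

variable {p : ℕ} {ϖ : GaussianInt} (h : Spl p ϖ)
include h

theorem Spl.mul_star : ϖ * star ϖ = p := by
  have h1 := Zsqrtd.norm_eq_mul_conj ϖ
  rw [h.nm] at h1
  rw [← h1]
  simp

theorem Spl.cop : IsCoprime ϖ (star ϖ) := (h.pr.irreducible.coprime_iff_not_dvd).2 h.nd

theorem Spl.both (j l : ℕ) (ν : GaussianInt) (h1 : ϖ ^ j ∣ ν) (h2 : (star ϖ) ^ l ∣ ν) :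
    ϖ ^ j * (star ϖ) ^ l ∣ ν := (h.cop.pow).mul_dvd h1 h2

theorem Spl.split (k : ℕ) : ∀ ν : GaussianInt, (p : ℤ) ^ k ∣ ν.norm →
    ∃ j ≤ k, ϖ ^ j ∣ ν ∧ (star ϖ) ^ (k - j) ∣ ν := by
  have hp0 : (p : ℤ) ≠ 0 := by
    intro h0
    have h1 := h.nm
    rw [h0] at h1
    have h2 : ϖ = 0 := (GaussianInt.norm_eq_zero).1 h1
    exact h.pr.ne_zero h2
  induction k with
  | zero => intro ν _; exact ⟨0, le_rfl, by simp, by simp⟩
  | succ k ih =>
    intro ν hν
    have h1 : ϖ ∣ ν * star ν := by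
      rw [← Zsqrtd.norm_eq_mul_conj]
      have h2 : (p : ℤ) ∣ ν.norm := (dvd_pow_self _ (Nat.succ_ne_zero k)).trans hν
      obtain ⟨x, hx⟩ := h2
      rw [hx]
      push_cast
      rw [← h.mul_star, mul_assoc]
      exact dvd_mul_right _ _
    rcases h.pr.dvd_or_dvd h1 with h2 | h2
    · obtain ⟨ν', rfl⟩ := h2
      rw [Zsqrtd.norm_mul, h.nm, pow_succ'] at hν
      obtain ⟨j, hj, h3, h4⟩ := ih ν' ((mul_dvd_mul_iff_left hp0).1 hν)
      refine ⟨j + 1, by omega, ?_, ?_⟩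
      · rw [pow_succ']; exact mul_dvd_mul_left _ h3
      · rw [Nat.add_sub_add_right]; exact h4.mul_left _
    · have h3 : star ϖ ∣ ν := by
        obtain ⟨x, hx⟩ := h2
        refine ⟨star x, ?_⟩
        have := congrArg star hx
        rwa [star_star, star_mul, mul_comm] at this
      obtain ⟨ν', rfl⟩ := h3
      rw [Zsqrtd.norm_mul, norm_star, h.nm, pow_succ'] at hν
      obtain ⟨j, hj, h3, h4⟩ := ih ν' ((mul_dvd_mul_iff_left hp0).1 hν)
      refine ⟨j, by omega, h3.mul_left _, ?_⟩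
      rw [Nat.succ_sub hj, pow_succ']
      exact mul_dvd_mul_left _ h4

end

/-- the index of `ν` -/
noncomputable def idx (ϖ : GaussianInt) (k : ℕ) (ν : GaussianInt) : ℕ :=
  @Nat.findGreatest (fun j => ϖ ^ j ∣ ν) (Classical.decPred _) k

theorem idx_le (ϖ : GaussianInt) (k : ℕ) (ν : GaussianInt) : idx ϖ k ν ≤ k :=
  @Nat.findGreatest_le (fun j => ϖ ^ j ∣ ν) (Classical.decPred _) k

theorem idx_dvd (ϖ : GaussianInt) (k : ℕ) (ν : GaussianInt) : ϖ ^ idx ϖ k ν ∣ ν := by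
  have h0 : ϖ ^ 0 ∣ ν := by simp
  exact @Nat.findGreatest_spec 0 (fun j => ϖ ^ j ∣ ν) (Classical.decPred _) k (Nat.zero_le k) h0

theorem idx_ge (ϖ : GaussianInt) (k : ℕ) (ν : GaussianInt) (j : ℕ) (hj : j ≤ k)
    (hd : ϖ ^ j ∣ ν) : j ≤ idx ϖ k ν :=
  @Nat.le_findGreatest j (fun j => ϖ ^ j ∣ ν) (Classical.decPred _) k hj hd

theorem idx_neg (ϖ : GaussianInt) (k : ℕ) (ν : GaussianInt) : idx ϖ k (-ν) = idx ϖ k ν := by
  refine le_antisymm (idx_ge ϖ k ν _ (idx_le _ _ _) ?_) (idx_ge ϖ k (-ν) _ (idx_le _ _ _) ?_)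
  · have := idx_dvd ϖ k (-ν)
    rwa [dvd_neg] at this
  · rw [dvd_neg]
    exact idx_dvd ϖ k ν

section

variable {p : ℕ} {ϖ : GaussianInt} (h : Spl p ϖ)
include h

theorem Spl.idx_star (m k : ℕ) (ν : GaussianInt) (hν : ν ∈ V (m * p ^ k)) :
    (star ϖ) ^ (k - idx ϖ k ν) ∣ ν := by
  rw [mem_V] at hν
  obtain ⟨j, hj, h1, h2⟩ := h.split k ν ⟨m, by rw [hν]; push_cast; ring⟩
  have h3 := idx_ge ϖ k ν j hj h1
  exact (pow_dvd_pow _ (by omega)).trans h2

theorem Spl.norm_pow_mul (a b : ℕ) : (ϖ ^ a * (star ϖ) ^ b).norm = (p : ℤ) ^ (a + b) := by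
  have h1 : ∀ (x : GaussianInt) (n : ℕ), (x ^ n).norm = x.norm ^ n := fun x n => by
    induction n with
    | zero => simp
    | succ n ih => rw [pow_succ, Zsqrtd.norm_mul, ih, pow_succ]
  rw [Zsqrtd.norm_mul, h1, h1, norm_star, h.nm, pow_add]

theorem Spl.p_pos : 0 < p := by
  rcases Nat.eq_zero_or_pos p with h0 | h0
  · exfalso
    have h1 := h.nm
    rw [h0] at h1
    exact h.pr.ne_zero ((GaussianInt.norm_eq_zero).1 (by simpa using h1))
  · exact h0

/-- the number of elements of a given index -/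
theorem Spl.fiber (m k j : ℕ) :
    ((V (m * p ^ k)).filter fun ν => idx ϖ k ν = j).card ≤ (V m).card := by
  classical
  refine (card_le_card (t := (V m).image fun μ => ϖ ^ j * (star ϖ) ^ (k - j) * μ) ?_).trans
    card_image_le
  intro ν hν
  rw [mem_filter] at hν
  obtain ⟨hν, rfl⟩ := hν
  have h1 := h.both _ _ ν (idx_dvd ϖ k ν) (h.idx_star m k ν hν)
  obtain ⟨μ, hμ⟩ := h1
  rw [mem_image]
  refine ⟨μ, ?_, hμ.symm⟩
  rw [mem_V] at hν ⊢
  rw [hμ, Zsqrtd.norm_mul, h.norm_pow_mul, Nat.add_sub_cancel' (idx_le ϖ k ν)] at hν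
  have hp : ((p : ℤ) ^ k) ≠ 0 := pow_ne_zero _ (by exact_mod_cast h.p_pos.ne')
  refine mul_left_cancel₀ hp (hν.trans ?_)
  push_cast
  ring

/-- good frequencies: not extreme and not in the gaps -/
noncomputable def Good (ϖ : GaussianInt) (m p k A D g s₀ : ℕ) : Finset GaussianInt :=
  (V (m * p ^ k)).filter fun ν => A ≤ idx ϖ k ν ∧ idx ϖ k ν + A ≤ k ∧ g ≤ (idx ϖ k ν + s₀) % D

/-- the block number -/
noncomputable def blk (ϖ : GaussianInt) (k D s₀ : ℕ) (ν : GaussianInt) : ℕ := (idx ϖ k ν + s₀) / D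

noncomputable def Bl (ϖ : GaussianInt) (m p k A D g s₀ : ℕ) (b : ℕ) : Finset GaussianInt :=
  (Good ϖ m p k A D g s₀).filter fun ν => blk ϖ k D s₀ ν = b

omit h in
theorem Bl_neg (m k A D g s₀ b : ℕ) (ν : GaussianInt) (hν : ν ∈ Bl ϖ m p k A D g s₀ b) :
    -ν ∈ Bl ϖ m p k A D g s₀ b := by
  unfold Bl Good blk at *
  rw [mem_filter, mem_filter] at *
  rw [idx_neg]
  exact ⟨⟨neg_mem_V hν.1.1, hν.1.2⟩, hν.2⟩

/-- divisibility of the good frequencies -/
theorem Spl.good_dvd (m k A D g s₀ : ℕ) (ν : GaussianInt) (hν : ν ∈ Good ϖ m p k A D g s₀) :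
    ((p ^ A : ℕ) : GaussianInt) ∣ ν := by
  unfold Good at hν
  rw [mem_filter] at hν
  obtain ⟨h1, h2, h3, -⟩ := hν
  have h4 := h.both A A ν ((pow_dvd_pow _ h2).trans (idx_dvd ϖ k ν))
    ((pow_dvd_pow _ (by omega)).trans (h.idx_star m k ν h1))
  rwa [← mul_pow, h.mul_star, ← Nat.cast_pow] at h4

theorem Spl.zero_notMem (m k A D g s₀ b : ℕ) (hm : 0 < m) :
    (0 : GaussianInt) ∉ Bl ϖ m p k A D g s₀ b := by
  unfold Bl Good
  rw [mem_filter, mem_filter]
  rintro ⟨⟨h1, -⟩, -⟩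
  rw [mem_V] at h1
  have h2 : (0 : ℤ) = ((m * p ^ k : ℕ) : ℤ) := by simpa using h1
  have h3 : 0 < m * p ^ k := Nat.mul_pos hm (pow_pos h.p_pos k)
  omega

/-- **The blocks are dissociated.** -/
theorem Spl.diss (m k A D g s₀ : ℕ) (hg : 4 * m < p ^ (g + 1)) (hs : s₀ < D)
    (s : Finset ℕ) : Diss (Bl ϖ m p k A D g s₀) s := by
  classical
  intro N hN hsum
  by_contra hcon
  push Not at hcon
  obtain ⟨b1, hb1, hNb1⟩ := hcon
  have hne : (s.filter fun b => N b ≠ 0).Nonempty := ⟨b1, mem_filter.2 ⟨hb1, hNb1⟩⟩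
  set b0 := (s.filter fun b => N b ≠ 0).min' hne with hb0
  have hb0m : b0 ∈ s.filter fun b => N b ≠ 0 := Finset.min'_mem _ hne
  rw [mem_filter] at hb0m
  obtain ⟨hb0s, hNb0⟩ := hb0m
  have hlt : ∀ b ∈ s, b < b0 → N b = 0 := by
    intro b hb hlt
    by_contra hne'
    exact absurd (Finset.min'_le _ b (mem_filter.2 ⟨hb, hne'⟩)) (not_le.2 hlt)
  set a := (b0 + 1) * D + g - s₀ with ha
  -- divisibility by powers of `ϖ`
  have hdiv : ∀ b ∈ s, b0 < b → ϖ ^ a ∣ N b := by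
    intro b hb hlt'
    have h1 : ∀ ν ∈ Bl ϖ m p k A D g s₀ b, ϖ ^ a ∣ ν := by
      intro ν hν
      unfold Bl Good blk at hν
      rw [mem_filter, mem_filter] at hν
      obtain ⟨⟨h1, h2, h3, h4⟩, h5⟩ := hν
      refine (pow_dvd_pow _ ?_).trans (idx_dvd ϖ k ν)
      have h6 := Nat.div_add_mod (idx ϖ k ν + s₀) D
      rw [h5] at h6
      have h7 : D * (b0 + 1) ≤ D * b := Nat.mul_le_mul_left D hlt'
      rw [ha]
      have h8 : (b0 + 1) * D = D * (b0 + 1) := mul_comm _ _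
      omega
    rcases hN b hb with h2 | h2 | ⟨ν, hν, ν', hν', h2⟩
    · rw [h2]; exact dvd_zero _
    · exact h1 _ h2
    · rw [h2]; exact dvd_add (h1 _ hν) (h1 _ hν')
  have hd1 : ϖ ^ a ∣ N b0 := by
    have h1 : N b0 = -∑ b ∈ s.erase b0, N b := by
      have h2 := Finset.add_sum_erase s N hb0s
      rw [hsum] at h2
      exact eq_neg_of_add_eq_zero_left h2
    rw [h1, dvd_neg]
    refine Finset.dvd_sum fun b hb => ?_
    rw [Finset.mem_erase] at hb
    rcases lt_or_gt_of_ne hb.1 with h2 | h2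
    · rw [hlt b hb.2 h2]; exact dvd_zero _
    · exact hdiv b hb.2 h2
  -- divisibility by powers of the conjugate
  set J := b0 * D + D - 1 - s₀ with hJ
  have h1 : ∀ ν ∈ Bl ϖ m p k A D g s₀ b0, (star ϖ) ^ (k - J) ∣ ν ∧ ν.norm = m * p ^ k := by
    intro ν hν
    unfold Bl Good blk at hν
    rw [mem_filter, mem_filter] at hν
    obtain ⟨⟨h1, h2, h3, h4⟩, h5⟩ := hν
    refine ⟨(pow_dvd_pow _ ?_).trans (h.idx_star m k ν h1), by rw [mem_V.1 h1]; push_cast; ring⟩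
    have h6 := Nat.div_add_mod (idx ϖ k ν + s₀) D
    rw [h5] at h6
    have h7 := Nat.mod_lt (idx ϖ k ν + s₀) (by omega : 0 < D)
    have h8 : b0 * D = D * b0 := mul_comm _ _
    omega
  have hd2 : (star ϖ) ^ (k - J) ∣ N b0 ∧ (N b0).norm ≤ 4 * (m * p ^ k) := by
    rcases hN b0 hb0s with h2 | h2 | ⟨ν, hν, ν', hν', h2⟩
    · exact absurd h2 hNb0
    · refine ⟨(h1 _ h2).1, ?_⟩
      rw [(h1 _ h2).2]
      have : (0 : ℤ) ≤ m * p ^ k := by positivity
      linarith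
    · rw [h2]
      refine ⟨dvd_add (h1 _ hν).1 (h1 _ hν').1, ?_⟩
      have h3 := (h1 _ hν).2
      have h4 := (h1 _ hν').2
      rw [norm_eq] at h3 h4 ⊢
      simp only [Zsqrtd.re_add, Zsqrtd.im_add]
      nlinarith [sq_nonneg (ν.re - ν'.re), sq_nonneg (ν.im - ν'.im)]
  obtain ⟨x, hx⟩ := h.both a (k - J) (N b0) hd1 hd2.1
  have hx0 : x ≠ 0 := by
    rintro rfl
    rw [mul_zero] at hx
    exact hNb0 hx
  have hxn : 1 ≤ x.norm := by
    have h3 := (GaussianInt.norm_pos).2 hx0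
    omega
  have h3 := hd2.2
  rw [hx, Zsqrtd.norm_mul, h.norm_pow_mul] at h3
  have hexp : k + (g + 1) ≤ a + (k - J) := by
    have h8 : (b0 + 1) * D = b0 * D + D := by ring
    omega
  have h4 : (p : ℤ) ^ (k + (g + 1)) ≤ (p : ℤ) ^ (a + (k - J)) :=
    pow_le_pow_right₀ (by exact_mod_cast h.p_pos) hexp
  have h5 : (p : ℤ) ^ (a + (k - J)) ≤ (p : ℤ) ^ (a + (k - J)) * x.norm :=
    le_mul_of_one_le_right (by positivity) hxn
  have h6 : (p : ℤ) ^ (k + (g + 1)) = p ^ k * p ^ (g + 1) := pow_add _ _ _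
  have h7 : (4 * m : ℤ) < p ^ (g + 1) := by exact_mod_cast hg
  have h8 : (0 : ℤ) < p ^ k := pow_pos (by exact_mod_cast h.p_pos) k
  nlinarith

/-- size of the blocks -/
theorem Spl.card_Bl (m k A D g s₀ b : ℕ) (hD : 0 < D) :
    (Bl ϖ m p k A D g s₀ b).card ≤ (V m).card * D := by
  classical
  refine (Finset.card_le_mul_card_image (f := idx ϖ k) _ (V m).card ?_).trans
    (Nat.mul_le_mul_left _ ?_)
  · intro j _
    refine (card_le_card ?_).trans (h.fiber m k j)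
    intro ν hν
    unfold Bl Good at hν
    rw [mem_filter, mem_filter, mem_filter] at hν
    exact mem_filter.2 ⟨hν.1.1.1, hν.2⟩
  · have h1 : (Bl ϖ m p k A D g s₀ b).image (idx ϖ k) ⊆
        (range D).image (fun r => D * b + r - s₀) := by
      intro j hj
      rw [mem_image] at hj
      obtain ⟨ν, hν, rfl⟩ := hj
      unfold Bl blk at hν
      rw [mem_filter] at hν
      rw [mem_image]
      refine ⟨(idx ϖ k ν + s₀) % D, mem_range.2 (Nat.mod_lt _ hD), ?_⟩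
      have h6 := Nat.div_add_mod (idx ϖ k ν + s₀) D
      rw [hν.2] at h6
      omega
    refine (card_le_card h1).trans (card_image_le.trans ?_)
    rw [card_range]

/-- number of extreme frequencies -/
theorem Spl.card_ext (m k A : ℕ) :
    ((V (m * p ^ k)).filter fun ν => ¬ (A ≤ idx ϖ k ν ∧ idx ϖ k ν + A ≤ k)).card ≤
      (V m).card * (2 * A) := by
  classical
  refine (Finset.card_le_mul_card_image (f := idx ϖ k) _ (V m).card ?_).trans
    (Nat.mul_le_mul_left _ ?_)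
  · intro j _
    refine (card_le_card ?_).trans (h.fiber m k j)
    intro ν hν
    rw [mem_filter, mem_filter] at hν
    exact mem_filter.2 ⟨hν.1.1, hν.2⟩
  · have h1 : ((V (m * p ^ k)).filter fun ν => ¬ (A ≤ idx ϖ k ν ∧ idx ϖ k ν + A ≤ k)).image
        (idx ϖ k) ⊆ range A ∪ (range A).image (fun r => k - r) := by
      intro j hj
      rw [mem_image] at hj
      obtain ⟨ν, hν, rfl⟩ := hj
      rw [mem_filter] at hν
      have h2 := idx_le ϖ k ν
      rw [mem_union, mem_image]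
      by_cases h3 : A ≤ idx ϖ k ν
      · right
        have h4 : ¬ idx ϖ k ν + A ≤ k := fun h5 => hν.2 ⟨h3, h5⟩
        exact ⟨k - idx ϖ k ν, mem_range.2 (by omega), by omega⟩
      · left
        exact mem_range.2 (by omega)
    refine (card_le_card h1).trans ((card_union_le _ _).trans ?_)
    have h2 : ((range A).image (fun r => k - r)).card ≤ A := card_image_le.trans (by rw [card_range])
    rw [card_range]
    omega

end

/-- a shift of the gaps that loses little mass -/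
theorem gap_shift (ϖ : GaussianInt) (k D g : ℕ) (hD : 0 < D) (S : Finset GaussianInt)
    (w : GaussianInt → ℝ) (hw : ∀ ν ∈ S, 0 ≤ w ν) :
    ∃ s₀ < D, ∑ ν ∈ S.filter (fun ν => ¬ g ≤ (idx ϖ k ν + s₀) % D), w ν ≤
      (g : ℝ) / D * ∑ ν ∈ S, w ν := by
  classical
  by_contra hcon0
  have hcon : ∀ s₀ < D, (g : ℝ) / D * ∑ ν ∈ S, w ν <
      ∑ ν ∈ S.filter (fun ν => ¬ g ≤ (idx ϖ k ν + s₀) % D), w ν := fun s hs =>
    lt_of_not_ge fun hle => hcon0 ⟨s, hs, hle⟩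
  have h1 : ∑ s₀ ∈ range D, ((g : ℝ) / D * ∑ ν ∈ S, w ν) <
      ∑ s₀ ∈ range D, ∑ ν ∈ S.filter (fun ν => ¬ g ≤ (idx ϖ k ν + s₀) % D), w ν :=
    Finset.sum_lt_sum_of_nonempty ⟨0, mem_range.2 hD⟩ fun s₀ hs => hcon s₀ (mem_range.1 hs)
  have h2 : ∑ s₀ ∈ range D, ∑ ν ∈ S.filter (fun ν => ¬ g ≤ (idx ϖ k ν + s₀) % D), w ν =
      ∑ ν ∈ S, ((range D).filter (fun s₀ => ¬ g ≤ (idx ϖ k ν + s₀) % D)).card * w ν := by
    simp_rw [Finset.sum_filter]
    rw [Finset.sum_comm]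
    refine Finset.sum_congr rfl fun ν _ => ?_
    rw [← Finset.sum_filter, Finset.sum_const, nsmul_eq_mul]
  have h3 : ∀ ν, ((range D).filter (fun s₀ => ¬ g ≤ (idx ϖ k ν + s₀) % D)).card ≤ g := by
    intro ν
    have h4 : ((range D).filter (fun s₀ => ¬ g ≤ (idx ϖ k ν + s₀) % D)).card ≤ (range g).card := by
      refine Finset.card_le_card_of_injOn (fun s₀ => (idx ϖ k ν + s₀) % D) ?_ ?_
      · intro s hs
        have := (mem_filter.1 hs).2
        refine mem_coe.2 (mem_range.2 ?_)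
        show (idx ϖ k ν + s) % D < g
        omega
      · intro s hs s' hs' heq
        have h5 := mem_range.1 (mem_filter.1 (mem_coe.1 hs)).1
        have h6 := mem_range.1 (mem_filter.1 (mem_coe.1 hs')).1
        have h7 : (idx ϖ k ν + s) ≡ (idx ϖ k ν + s') [MOD D] := heq
        have h8 : s ≡ s' [MOD D] := Nat.ModEq.add_left_cancel' _ h7
        exact Nat.ModEq.eq_of_lt_of_lt h8 h5 h6
    rwa [card_range] at h4
  rw [h2, Finset.sum_const, card_range, nsmul_eq_mul] at h1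
  have h5 : ∑ ν ∈ S, (((range D).filter (fun s₀ => ¬ g ≤ (idx ϖ k ν + s₀) % D)).card : ℝ) * w ν ≤
      ∑ ν ∈ S, (g : ℝ) * w ν :=
    Finset.sum_le_sum fun ν hν => mul_le_mul_of_nonneg_right (by exact_mod_cast h3 ν) (hw ν hν)
  rw [← Finset.mul_sum] at h5
  have h6 : (D : ℝ) * ((g : ℝ) / D * ∑ ν ∈ S, w ν) = g * ∑ ν ∈ S, w ν := by
    have : (D : ℝ) ≠ 0 := by positivity
    field_simp
  rw [h6] at h1
  linarith

end Pool.Agent.L0h56.BQ
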