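import Mathlib

/-! MP_6b977f_mp: integrals of functions of small period over open sets -/

set_option autoImplicit false
open MeasureTheory Filter Topology Complex Set

namespace Pool.Agent.L0h56.BQ

noncomputable section

/-- the integral over the square `(0, s]²` -/
def sq (s : ℝ) (f : ℂ → ℂ) : ℂ := ∫ x in (0:ℝ)..s, ∫ y in (0:ℝ)..s, f (x + y * I)

/-- the square `(0, s]²` -/
def cell (s : ℝ) : Set ℂ := {w | w.re ∈ Ioc 0 s ∧ w.im ∈ Ioc 0 s}

theorem cell_meas (s : ℝ) : MeasurableSet (cell s) :=
  (measurable_re measurableSet_Ioc).inter (measurable_im measurableSet_Ioc)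

theorem cell_pre (s : ℝ) : Complex.measurableEquivRealProd.symm ⁻¹' (cell s) =
    Ioc (0:ℝ) s ×ˢ Ioc (0:ℝ) s := by
  ext p
  simp [cell]

theorem cell_vol (s : ℝ) (hs : 0 ≤ s) : volume (cell s) = ENNReal.ofReal (s ^ 2) := by
  have h1 := (Complex.volume_preserving_equiv_real_prod.symm).measure_preimage
    (cell_meas s).nullMeasurableSet
  rw [cell_pre] at h1
  rw [← h1, Measure.volume_eq_prod, Measure.prod_prod, Real.volume_Ioc, sub_zero,
    ← ENNReal.ofReal_mul hs, pow_two]

theorem cell_int (s : ℝ) (hs : 0 ≤ s) (f : ℂ → ℂ) (hf : Continuous f) :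
    ∫ w in cell s, f w = sq s f := by
  have h1 := (Complex.volume_preserving_equiv_real_prod.symm).setIntegral_preimage_emb
    (MeasurableEquiv.measurableEmbedding _) f (cell s)
  rw [cell_pre] at h1
  rw [← h1, Measure.volume_eq_prod, setIntegral_prod]
  · unfold sq
    rw [intervalIntegral.integral_of_le hs]
    refine setIntegral_congr_fun measurableSet_Ioc fun x _ => ?_
    show _ = ∫ y in (0:ℝ)..s, f (x + y * I)
    rw [intervalIntegral.integral_of_le hs]
    refine setIntegral_congr_fun measurableSet_Ioc fun y _ => ?_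
    show f _ = f _
    congr 1
    exact Complex.mk_eq_add_mul_I x y
  · have hc : Continuous fun p : ℝ × ℝ => f (Complex.measurableEquivRealProd.symm p) := by
      have h2 : (fun p : ℝ × ℝ => f (Complex.measurableEquivRealProd.symm p)) =
          fun p : ℝ × ℝ => f (p.1 + p.2 * I) := by
        funext p
        congr 1
        exact Complex.mk_eq_add_mul_I p.1 p.2
      rw [h2]
      fun_prop
    exact (hc.continuousOn.integrableOn_compact (isCompact_Icc.prod isCompact_Icc)).mono_set
      (prod_mono Ioc_subset_Icc_self Ioc_subset_Icc_self)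

theorem inner_cont (s : ℝ) (f : ℂ → ℂ) (hf : Continuous f) :
    Continuous fun x : ℝ => ∫ y in (0:ℝ)..s, f (x + y * I) := by
  have h1 : Continuous (Function.uncurry fun (x : ℝ) (y : ℝ) => f (x + y * I)) := by
    unfold Function.uncurry
    fun_prop
  exact intervalIntegral.continuous_parametric_intervalIntegral_of_continuous' h1 0 s

/-- a function of period `s` in both directions -/
def Per (s : ℝ) (f : ℂ → ℂ) : Prop := (∀ z, f (z + s) = f z) ∧ ∀ z, f (z + s * I) = f z

theorem sq_mul (s : ℝ) (f : ℂ → ℂ) (hf : Continuous f) (hp : Per s f) (N : ℕ) :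
    sq (N * s) f = (N : ℂ) ^ 2 * sq s f := by
  have hy : ∀ x : ℝ, ∫ y in (0:ℝ)..(N * s), f (x + y * I) =
      (N : ℂ) * ∫ y in (0:ℝ)..s, f (x + y * I) := by
    intro x
    have h1 : Function.Periodic (fun y : ℝ => f (x + y * I)) s := by
      intro y
      show f (x + ((y + s : ℝ) : ℂ) * I) = f (x + y * I)
      rw [← hp.2 (x + y * I)]
      congr 1
      push_cast
      ring
    have h2 := h1.intervalIntegral_add_zsmul_eq (N : ℤ) 0
      (fun a b => Continuous.intervalIntegrable (by fun_prop) _ _)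
    simpa using h2
  have hx : Function.Periodic (fun x : ℝ => ∫ y in (0:ℝ)..s, f (x + y * I)) s := by
    intro x
    show ∫ y in (0:ℝ)..s, f (((x + s : ℝ) : ℂ) + y * I) = _
    refine intervalIntegral.integral_congr fun y _ => ?_
    show f _ = f _
    rw [← hp.1 (x + y * I)]
    congr 1
    push_cast
    ring
  have h2 := hx.intervalIntegral_add_zsmul_eq (N : ℤ) 0
    (fun a b => (inner_cont s f hf).intervalIntegrable _ _)
  unfold sq
  simp_rw [hy]
  rw [intervalIntegral.integral_const_mul]
  have h3 : ∫ x in (0:ℝ)..(N * s), ∫ y in (0:ℝ)..s, f (x + y * I) =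
      (N : ℂ) * ∫ x in (0:ℝ)..s, ∫ y in (0:ℝ)..s, f (x + y * I) := by
    simpa using h2
  rw [h3]
  ring

theorem sq_shift (s : ℝ) (f : ℂ → ℂ) (hp : Per s f) (z : ℂ) :
    sq s (fun w => f (z + w)) = sq s f := by
  unfold sq
  have hy : ∀ x : ℝ, ∫ y in (0:ℝ)..s, f (z + (x + y * I)) =
      ∫ y in (0:ℝ)..s, f ((x + z.re : ℝ) + y * I) := by
    intro x
    have h1 : Function.Periodic (fun y : ℝ => f ((x + z.re : ℝ) + y * I)) s := by
      intro y
      show f (((x + z.re : ℝ) : ℂ) + ((y + s : ℝ) : ℂ) * I) = f (((x + z.re : ℝ) : ℂ) + y * I)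
      rw [← hp.2 (((x + z.re : ℝ) : ℂ) + y * I)]
      congr 1
      push_cast
      ring
    have h2 := h1.intervalIntegral_add_eq z.im 0
    rw [zero_add] at h2
    rw [← h2]
    have h3 : ∫ y in z.im..(z.im + s), f ((x + z.re : ℝ) + y * I) =
        ∫ y in (0:ℝ)..s, f ((x + z.re : ℝ) + ((y + z.im : ℝ) : ℂ) * I) := by
      rw [intervalIntegral.integral_comp_add_right
        (fun y : ℝ => f (((x + z.re : ℝ) : ℂ) + y * I)) z.im]
      congr 1 <;> ring
    rw [h3]
    refine intervalIntegral.integral_congr fun y _ => ?_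
    show f _ = f _
    congr 1
    conv_lhs => rw [← Complex.re_add_im z]
    push_cast
    ring
  simp_rw [hy]
  have hx : Function.Periodic (fun x : ℝ => ∫ y in (0:ℝ)..s, f (x + y * I)) s := by
    intro x
    show ∫ y in (0:ℝ)..s, f (((x + s : ℝ) : ℂ) + y * I) = _
    refine intervalIntegral.integral_congr fun y _ => ?_
    show f _ = f _
    rw [← hp.1 (x + y * I)]
    congr 1
    push_cast
    ring
  have h2 := hx.intervalIntegral_add_eq z.re 0
  rw [zero_add] at h2
  rw [← h2]
  rw [intervalIntegral.integral_comp_add_right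
    (fun x : ℝ => ∫ y in (0:ℝ)..s, f ((x : ℂ) + y * I)) z.re]
  congr 1 <;> ring

/-- small translations move an open set of finite measure by a small amount -/
theorem trans_small (Ω : Set ℂ) (ho : IsOpen Ω) (hv : volume Ω ≠ ⊤) :
    Tendsto (fun w : ℂ => volume.real (Ω \ ((fun z => z + w) ⁻¹' Ω))) (𝓝 0) (𝓝 0) := by
  have hm := ho.measurableSet
  have h1 : ∀ w : ℂ, volume.real (Ω \ ((fun z => z + w) ⁻¹' Ω)) =
      ∫ z in Ω, (((fun z => z + w) ⁻¹' Ω)ᶜ.indicator (fun _ => (1:ℝ))) z := by
    intro w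
    have hmw : MeasurableSet ((fun z => z + w) ⁻¹' Ω) := (measurable_id.add_const w) hm
    rw [integral_indicator hmw.compl, Measure.restrict_restrict hmw.compl]
    simp only [integral_const, smul_eq_mul, mul_one, MeasurableSet.univ, measureReal_restrict_apply,
      univ_inter]
    congr 1
    ext z
    simp [and_comm]
  simp_rw [h1]
  have h2 : (0:ℝ) = ∫ z in Ω, (0:ℝ) := by simp
  rw [h2]
  refine tendsto_integral_filter_of_dominated_convergence (fun _ => (1:ℝ)) ?_ ?_ ?_ ?_
  · refine Eventually.of_forall fun w => ?_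
    have hmw : MeasurableSet ((fun z => z + w) ⁻¹' Ω) := (measurable_id.add_const w) hm
    exact (measurable_const.indicator hmw.compl).aestronglyMeasurable
  · refine Eventually.of_forall fun w => Eventually.of_forall fun z => ?_
    refine (norm_indicator_le_norm_self _ _).trans ?_
    simp
  · exact integrableOn_const hv
  · refine (ae_restrict_mem hm).mono fun z hz => ?_
    have h3 : ∀ᶠ w : ℂ in 𝓝 0, z + w ∈ Ω := by
      have h4 : Tendsto (fun w : ℂ => z + w) (𝓝 0) (𝓝 (z + 0)) :=
        tendsto_const_nhds.add tendsto_id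
      rw [add_zero] at h4
      exact h4.eventually (ho.mem_nhds hz)
    refine (tendsto_congr' (h3.mono fun w hw => ?_)).2 tendsto_const_nhds
    exact indicator_of_notMem (by simpa using hw) _

/-- **Localisation**: the integral over an open set of a bounded function of small period is nearly
its mean times the measure of the set. -/
theorem loc (Ω : Set ℂ) (ho : IsOpen Ω) (hv : volume Ω ≠ ⊤) (ε : ℝ) (hε : 0 < ε) :
    ∃ s0 : ℝ, 0 < s0 ∧ ∀ s : ℝ, 0 < s → s ≤ s0 → ∀ f : ℂ → ℂ, Continuous f →
      (∀ z, ‖f z‖ ≤ 1) → Per s f →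
      ‖(∫ z in Ω, f z) - (volume.real Ω : ℂ) * (sq s f / (s : ℂ) ^ 2)‖ ≤ ε := by
  have hm := ho.measurableSet
  have h0 := trans_small Ω ho hv
  rw [Metric.tendsto_nhds_nhds] at h0
  obtain ⟨δ, hδ, h0⟩ := h0 (ε / 2) (by positivity)
  refine ⟨δ / 4, by positivity, fun s hs hs0 f hf hb hp => ?_⟩
  have : IsFiniteMeasure (volume.restrict Ω) := ⟨by simpa using hv.lt_top⟩
  have hcv : volume.real (cell s) = s ^ 2 := by
    rw [measureReal_def, cell_vol s hs.le, ENNReal.toReal_ofReal (by positivity)]
  have : IsFiniteMeasure (volume.restrict (cell s)) :=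
    ⟨by rw [Measure.restrict_apply_univ, cell_vol s hs.le]; exact ENNReal.ofReal_lt_top⟩
  -- the shifted integrals
  have h1 : ∀ w ∈ cell s, ‖(∫ z in Ω, f z) - ∫ z in Ω, f (z + w)‖ ≤ ε := by
    intro w hw
    have hws : dist w 0 < δ := by
      rw [dist_zero_right]
      calc ‖w‖ ≤ |w.re| + |w.im| := Complex.norm_le_abs_re_add_abs_im w
        _ ≤ s + s := by
          obtain ⟨⟨h1, h2⟩, h3, h4⟩ := hw
          rw [abs_of_pos h1, abs_of_pos h3]
          linarith
        _ < δ := by linarith
    have h2 := h0 hws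
    rw [dist_zero_right, Real.norm_eq_abs, abs_of_nonneg measureReal_nonneg] at h2
    set Ωw : Set ℂ := (fun z => z + w) ⁻¹' Ω with hΩw
    have hmw : MeasurableSet Ωw := (measurable_id.add_const w) hm
    set Ωm : Set ℂ := (fun z => z - w) ⁻¹' Ω with hΩm
    have hmm : MeasurableSet Ωm := (measurable_id.sub_const w) hm
    have h3 : ∫ z in Ω, f (z + w) = ∫ z in Ωm, f z := by
      have h4 := (measurePreserving_add_right (volume : Measure ℂ) w).setIntegral_preimage_emb
        (measurableEmbedding_addRight w) f Ωm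
      rw [← h4]
      congr 2
      ext z
      simp [hΩm]
    have hvm : volume Ωm = volume Ω := by
      have h4 := (measurePreserving_add_right (volume : Measure ℂ) w).measure_preimage
        hmm.nullMeasurableSet
      rw [← h4]
      congr 1
      ext z
      simp [hΩm]
    have hA : volume.real (Ωm \ Ω) ≤ ε / 2 := by
      have h4 := (measurePreserving_add_right (volume : Measure ℂ) w).measureReal_preimage
        (hmm.diff hm).nullMeasurableSet
      rw [← h4]
      have h5 : (fun x => x + w) ⁻¹' (Ωm \ Ω) = Ω \ Ωw := by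
        ext z
        simp [hΩm, hΩw]
      rw [h5]
      exact h2.le
    have hB : volume.real (Ω \ Ωm) ≤ ε / 2 := by
      have h4 : volume.real (Ω \ Ωm) = volume.real (Ωm \ Ω) := by
        have h5 := measureReal_inter_add_sdiff (μ := volume) (s := Ω) hmm hv
        have h6 := measureReal_inter_add_sdiff (μ := volume) (s := Ωm) hm (hvm ▸ hv)
        have h7 : volume.real Ωm = volume.real Ω := by
          rw [measureReal_def, measureReal_def, hvm]
        rw [inter_comm] at h6
        linarith
      rw [h4]; exact hA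
    have hfi : Integrable f (volume.restrict Ω) :=
      Integrable.of_bound hf.aestronglyMeasurable 1 (Eventually.of_forall hb)
    have hfm : IntegrableOn f Ωm := by
      have : IsFiniteMeasure (volume.restrict Ωm) := ⟨by simpa [hvm] using hv.lt_top⟩
      exact Integrable.of_bound hf.aestronglyMeasurable 1 (Eventually.of_forall hb)
    rw [h3]
    have h8 : ∫ z in Ω, f z = (∫ z in Ω ∩ Ωm, f z) + ∫ z in Ω \ Ωm, f z :=
      (integral_inter_add_sdiff hmm hfi).symm
    have h9 : ∫ z in Ωm, f z = (∫ z in Ωm ∩ Ω, f z) + ∫ z in Ωm \ Ω, f z :=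
      (integral_inter_add_sdiff hm hfm).symm
    rw [h8, h9, inter_comm Ωm Ω]
    have h10 : ‖∫ z in Ω \ Ωm, f z‖ ≤ 1 * volume.real (Ω \ Ωm) :=
      norm_setIntegral_le_of_norm_le_const
        ((measure_mono sdiff_subset).trans_lt hv.lt_top) (fun z _ => hb z)
    have h11 : ‖∫ z in Ωm \ Ω, f z‖ ≤ 1 * volume.real (Ωm \ Ω) :=
      norm_setIntegral_le_of_norm_le_const
        ((measure_mono sdiff_subset).trans_lt (hvm ▸ hv.lt_top)) (fun z _ => hb z)
    rw [add_sub_add_left_eq_sub]
    calc ‖(∫ z in Ω \ Ωm, f z) - ∫ z in Ωm \ Ω, f z‖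
      _ ≤ ‖∫ z in Ω \ Ωm, f z‖ + ‖∫ z in Ωm \ Ω, f z‖ := norm_sub_le _ _
      _ ≤ ε := by linarith
  -- average
  have hint2 : Integrable (Function.uncurry fun (z : ℂ) (w : ℂ) => f (z + w))
      ((volume.restrict Ω).prod (volume.restrict (cell s))) := by
    refine Integrable.of_bound (Continuous.aestronglyMeasurable ?_) 1
      (Eventually.of_forall fun p => hb _)
    unfold Function.uncurry
    fun_prop
  have hsw : ∫ w in cell s, (∫ z in Ω, f (z + w)) = (volume.real Ω : ℂ) * sq s f := by
    rw [← integral_integral_swap hint2]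
    have h2 : ∀ z : ℂ, ∫ w in cell s, f (z + w) = sq s f := by
      intro z
      rw [cell_int s hs.le (fun w => f (z + w)) (by fun_prop), sq_shift s f hp z]
    simp_rw [h2]
    rw [setIntegral_const]
    simp [Complex.real_smul]
  have hcs : ∫ w in cell s, (∫ z in Ω, f z) = (s : ℂ) ^ 2 * ∫ z in Ω, f z := by
    rw [setIntegral_const, hcv, Complex.real_smul]
    push_cast
    ring
  have hs2 : (s : ℂ) ^ 2 ≠ 0 := pow_ne_zero _ (by exact_mod_cast hs.ne')
  have hfin : (∫ z in Ω, f z) - (volume.real Ω : ℂ) * (sq s f / (s : ℂ) ^ 2) =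
      (∫ w in cell s, ((∫ z in Ω, f z) - ∫ z in Ω, f (z + w))) / (s : ℂ) ^ 2 := by
    have hi3 : Integrable (fun w : ℂ => ∫ z in Ω, f (z + w)) (volume.restrict (cell s)) :=
      hint2.integral_prod_right
    rw [integral_sub (integrable_const _) hi3, hsw, hcs, sub_div, mul_div_cancel_left₀ _ hs2,
      mul_div_assoc]
  rw [hfin, norm_div]
  have h12 : ‖∫ w in cell s, ((∫ z in Ω, f z) - ∫ z in Ω, f (z + w))‖ ≤ ε * s ^ 2 := by
    have h13 := norm_setIntegral_le_of_norm_le_const (μ := volume) (s := cell s) (C := ε)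
      (f := fun w => (∫ z in Ω, f z) - ∫ z in Ω, f (z + w))
      (by rw [cell_vol s hs.le]; exact ENNReal.ofReal_lt_top) (fun w hw => h1 w hw)
    rwa [hcv] at h13
  have h14 : ‖(s : ℂ) ^ 2‖ = s ^ 2 := by
    rw [norm_pow, Complex.norm_real, Real.norm_eq_abs, abs_of_pos hs]
  rw [h14, div_le_iff₀ (by positivity)]
  exact h12

end

end Pool.Agent.L0h56.BQ
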