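import Pool.Agent.L0h56.BQ.Qe4

/-! MP_6b977f_mp: Dirichlet and Neumann eigenfunctions of domains made of unit squares -/

set_option autoImplicit false
open MeasureTheory Filter Topology Complex Set ProbabilityTheory
open scoped ContDiff

namespace Pool.Agent.L0h56.BQ

open Pool.Agent.N661.BR (MW lin J0 resc IsCutoff IsQuantumErgodic IsRandomWave IsLocalLimit)
open Pool.Agent.W745.RW (lap dx dy TF Dp)

noncomputable section

/-- `sin (π a x) sin (π b y)` -/
def sinw (a b : ℕ) (z : ℂ) : ℝ := Real.sin (Real.pi * a * z.re) * Real.sin (Real.pi * b * z.im)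

/-- `cos (π a x) cos (π b y)` -/
def cosw (a b : ℕ) (z : ℂ) : ℝ := Real.cos (Real.pi * a * z.re) * Real.cos (Real.pi * b * z.im)

/-- the linear combinations of the functions `sin (π a x) sin (π b y)` with `a² + b² = E` -/
def DirE (E : ℕ) : Submodule ℝ (ℂ → ℝ) :=
  Submodule.span ℝ {f | ∃ a b : ℕ, a ^ 2 + b ^ 2 = E ∧ f = sinw a b}

/-- the linear combinations of the functions `cos (π a x) cos (π b y)` with `a² + b² = E` -/
def NeuE (E : ℕ) : Submodule ℝ (ℂ → ℝ) :=
  Submodule.span ℝ {f | ∃ a b : ℕ, a ^ 2 + b ^ 2 = E ∧ f = cosw a b}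

theorem Rep.congr {σ : ℝ} {E : ℕ} {b : GaussianInt → ℝ} {u u' : ℂ → ℝ} (h : Rep σ E b u)
    (hu : u = u') : Rep σ E b u' := hu ▸ h

theorem Rep.zero (σ : ℝ) (E : ℕ) : Rep σ E (fun _ => 0) (fun _ => 0) :=
  ⟨fun _ => rfl, fun _ => by simp, fun z => by simp⟩

theorem Rep.add {σ : ℝ} {E : ℕ} {b b' : GaussianInt → ℝ} {u u' : ℂ → ℝ} (h : Rep σ E b u)
    (h' : Rep σ E b' u') : Rep σ E (fun ν => b ν + b' ν) (fun z => u z + u' z) :=
  ⟨fun ν => by rw [h.neg, h'.neg], fun ν => by rw [h.st, h'.st]; ring, fun z => by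
    push_cast
    rw [h.eq, h'.eq, ← Finset.sum_add_distrib]
    exact Finset.sum_congr rfl fun ν _ => by ring⟩

theorem Rep.smul {σ : ℝ} {E : ℕ} {b : GaussianInt → ℝ} {u : ℂ → ℝ} (h : Rep σ E b u) (r : ℝ) :
    Rep σ E (fun ν => r * b ν) (fun z => r * u z) :=
  ⟨fun ν => by rw [h.neg], fun ν => by rw [h.st]; ring, fun z => by
    push_cast
    rw [h.eq, Finset.mul_sum]
    exact Finset.sum_congr rfl fun ν _ => by ring⟩

theorem Rep.gen (σ : ℝ) (hσ : σ * σ = 1) (E : ℕ) (g : GaussianInt) (hg : g ∈ V E) :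
    Rep σ E (fun ν => (σ * (if ν = g then 1 else 0) + σ * (if ν = -g then 1 else 0) +
      (if ν = star g then 1 else 0) + (if ν = -star g then 1 else 0)) / 4)
      (fun z => (σ * Real.cos (Real.pi * g.re * z.re + Real.pi * g.im * z.im) +
        Real.cos (Real.pi * g.re * z.re - Real.pi * g.im * z.im)) / 2) where
  neg := fun ν => by
    have h1 : ∀ x : GaussianInt, (-ν = x) = (ν = -x) := fun x => by
      rw [neg_eq_iff_eq_neg]
    simp only [h1, neg_neg]
    ring
  st := fun ν => by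
    have h1 : ∀ x : GaussianInt, (star ν = x) = (ν = star x) := fun x =>
      propext ⟨fun h => by rw [← h, star_star], fun h => by rw [h, star_star]⟩
    simp only [h1, star_star, star_neg]
    linear_combination (-(if ν = g then 1 else 0) / 4 - (if ν = -g then 1 else 0) / 4 : ℝ) * hσ
  eq := fun z => by
    have h1 : ∀ x ∈ V E, ∑ ν ∈ V E, ((if ν = x then (1:ℂ) else 0)) * ch ν z = ch x z := by
      intro x hx
      rw [Finset.sum_eq_single x]
      · simp
      · intro y _ hy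
        rw [if_neg hy, zero_mul]
      · intro h; exact absurd hx h
    have h2 : ∑ ν ∈ V E, (((σ * (if ν = g then 1 else 0) + σ * (if ν = -g then 1 else 0) +
        (if ν = star g then 1 else 0) + (if ν = -star g then 1 else 0)) / 4 : ℝ) : ℂ) * ch ν z =
        (σ * ch g z + σ * ch (-g) z + ch (star g) z + ch (-star g) z) / 4 := by
      rw [← h1 g hg, ← h1 (-g) (neg_mem_V hg), ← h1 (star g) (star_mem_V hg),
        ← h1 (-star g) (neg_mem_V (star_mem_V hg)), Finset.mul_sum, Finset.mul_sum,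
        ← Finset.sum_add_distrib, ← Finset.sum_add_distrib, ← Finset.sum_add_distrib,
        Finset.sum_div]
      refine Finset.sum_congr rfl fun ν _ => ?_
      simp only [Complex.ofReal_div, Complex.ofReal_add, Complex.ofReal_mul,
        apply_ite Complex.ofReal, Complex.ofReal_one, Complex.ofReal_zero]
      push_cast
      ring
    rw [h2, ch_neg, ch_neg]
    have h3 : ∀ w : ℂ, w + (starRingEnd ℂ) w = ((2 * w.re : ℝ) : ℂ) := fun w => by
      rw [Complex.add_conj]
    have h4 : (σ : ℂ) * ch g z + σ * (starRingEnd ℂ) (ch g z) + ch (star g) z +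
        (starRingEnd ℂ) (ch (star g) z) =
        ((σ * (2 * (ch g z).re) + 2 * (ch (star g) z).re : ℝ) : ℂ) := by
      rw [← mul_add, add_assoc, h3, h3]
      push_cast
      ring
    rw [h4]
    unfold ch
    rw [Complex.exp_ofReal_mul_I_re, Complex.exp_ofReal_mul_I_re]
    have h5 : Real.pi * (g.re * z.re + g.im * z.im) =
        Real.pi * g.re * z.re + Real.pi * g.im * z.im := by ring
    have h6 : Real.pi * ((star g).re * z.re + (star g).im * z.im) =
        Real.pi * g.re * z.re - Real.pi * g.im * z.im := by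
      simp
      ring
    rw [h5, h6]
    push_cast
    ring

theorem DirE_rep {E : ℕ} {u : ℂ → ℝ} (hu : u ∈ DirE E) : ∃ b, Rep (-1) E b u := by
  unfold DirE at hu
  induction hu using Submodule.span_induction with
  | mem u hu =>
    obtain ⟨a, b, hab, rfl⟩ := hu
    have hg : (⟨a, b⟩ : GaussianInt) ∈ V E := by
      rw [mem_V, norm_eq]
      show (a : ℤ) ^ 2 + (b : ℤ) ^ 2 = (E : ℤ)
      exact_mod_cast hab
    have h1 := Rep.gen (-1) (by norm_num) E ⟨a, b⟩ hg
    refine ⟨_, h1.congr ?_⟩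
    funext z
    unfold sinw
    rw [Real.cos_add, Real.cos_sub]
    push_cast
    ring
  | zero => exact ⟨_, Rep.zero _ _⟩
  | add u v _ _ hu hv =>
    obtain ⟨b, hb⟩ := hu
    obtain ⟨b', hb'⟩ := hv
    exact ⟨_, hb.add hb'⟩
  | smul r u _ hu =>
    obtain ⟨b, hb⟩ := hu
    exact ⟨_, hb.smul r⟩

theorem NeuE_rep {E : ℕ} {u : ℂ → ℝ} (hu : u ∈ NeuE E) : ∃ b, Rep 1 E b u := by
  unfold NeuE at hu
  induction hu using Submodule.span_induction with
  | mem u hu =>
    obtain ⟨a, b, hab, rfl⟩ := hu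
    have hg : (⟨a, b⟩ : GaussianInt) ∈ V E := by
      rw [mem_V, norm_eq]
      show (a : ℤ) ^ 2 + (b : ℤ) ^ 2 = (E : ℤ)
      exact_mod_cast hab
    have h1 := Rep.gen 1 (by norm_num) E ⟨a, b⟩ hg
    refine ⟨_, h1.congr ?_⟩
    funext z
    unfold cosw
    rw [Real.cos_add, Real.cos_sub]
    push_cast
    ring
  | zero => exact ⟨_, Rep.zero _ _⟩
  | add u v _ _ hu hv =>
    obtain ⟨b, hb⟩ := hu
    obtain ⟨b', hb'⟩ := hv
    exact ⟨_, hb.add hb'⟩
  | smul r u _ hu =>
    obtain ⟨b, hb⟩ := hu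
    exact ⟨_, hb.smul r⟩

/-! ### The eigenvalue equation and the boundary conditions -/

theorem prod_deriv (F G F' G' : ℝ → ℝ) (hF : ∀ x, HasDerivAt F (F' x) x)
    (hG : ∀ x, HasDerivAt G (G' x) x) (z v : ℂ) :
    fderiv ℝ (fun z : ℂ => F z.re * G z.im) z v = F' z.re * v.re * G z.im +
      F z.re * (G' z.im * v.im) := by
  have h1 : HasFDerivAt (fun z : ℂ => F z.re) ((F' z.re) • Complex.reCLM) z :=
    (hF z.re).comp_hasFDerivAt z Complex.reCLM.hasFDerivAt
  have h2 : HasFDerivAt (fun z : ℂ => G z.im) ((G' z.im) • Complex.imCLM) z :=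
    (hG z.im).comp_hasFDerivAt z Complex.imCLM.hasFDerivAt
  have h3 : HasFDerivAt (fun z : ℂ => F z.re * G z.im) _ z := h1.mul h2
  rw [h3.fderiv]
  simp
  ring

theorem dx_prod (F G F' G' : ℝ → ℝ) (hF : ∀ x, HasDerivAt F (F' x) x)
    (hG : ∀ x, HasDerivAt G (G' x) x) :
    dx (fun z : ℂ => F z.re * G z.im) = fun z => F' z.re * G z.im := by
  funext z
  unfold dx
  rw [prod_deriv F G F' G' hF hG]
  simp

theorem dy_prod (F G F' G' : ℝ → ℝ) (hF : ∀ x, HasDerivAt F (F' x) x)
    (hG : ∀ x, HasDerivAt G (G' x) x) :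
    dy (fun z : ℂ => F z.re * G z.im) = fun z => F z.re * G' z.im := by
  funext z
  unfold dy
  rw [prod_deriv F G F' G' hF hG]
  simp

theorem d_sin (r : ℝ) (x : ℝ) : HasDerivAt (fun x => Real.sin (r * x)) (r * Real.cos (r * x)) x := by
  have h1 := ((hasDerivAt_id x).const_mul r).sin
  simp only [id, mul_one] at h1
  rwa [mul_comm] at h1

theorem d_cos (r : ℝ) (x : ℝ) :
    HasDerivAt (fun x => Real.cos (r * x)) (-(r * Real.sin (r * x))) x := by
  have h1 := ((hasDerivAt_id x).const_mul r).cos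
  simp only [id, mul_one] at h1
  convert h1 using 1
  ring

/-- smooth solutions of `Δu + π² E u = 0` -/
def Eig (E : ℕ) (u : ℂ → ℝ) : Prop := ContDiff ℝ ∞ u ∧ ∀ z, lap u z + Real.pi ^ 2 * E * u z = 0

theorem dx_add {u v : ℂ → ℝ} (hu : ContDiff ℝ ∞ u) (hv : ContDiff ℝ ∞ v) :
    dx (fun z => u z + v z) = fun z => dx u z + dx v z := by
  funext z
  unfold dx
  rw [fderiv_fun_add (hu.differentiable (by simp) z) (hv.differentiable (by simp) z)]
  rfl

theorem dy_add {u v : ℂ → ℝ} (hu : ContDiff ℝ ∞ u) (hv : ContDiff ℝ ∞ v) :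
    dy (fun z => u z + v z) = fun z => dy u z + dy v z := by
  funext z
  unfold dy
  rw [fderiv_fun_add (hu.differentiable (by simp) z) (hv.differentiable (by simp) z)]
  rfl

theorem dx_smul {u : ℂ → ℝ} (hu : ContDiff ℝ ∞ u) (r : ℝ) :
    dx (fun z => r * u z) = fun z => r * dx u z := by
  funext z
  unfold dx
  rw [fderiv_const_mul (hu.differentiable (by simp) z)]
  rfl

theorem dy_smul {u : ℂ → ℝ} (hu : ContDiff ℝ ∞ u) (r : ℝ) :
    dy (fun z => r * u z) = fun z => r * dy u z := by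
  funext z
  unfold dy
  rw [fderiv_const_mul (hu.differentiable (by simp) z)]
  rfl

theorem dx_smooth {u : ℂ → ℝ} (hu : ContDiff ℝ ∞ u) : ContDiff ℝ ∞ (dx u) := by
  unfold dx
  exact (hu.fderiv_right (m := ∞) (by simp)).clm_apply contDiff_const

theorem dy_smooth {u : ℂ → ℝ} (hu : ContDiff ℝ ∞ u) : ContDiff ℝ ∞ (dy u) := by
  unfold dy
  exact (hu.fderiv_right (m := ∞) (by simp)).clm_apply contDiff_const

theorem Eig.add {E : ℕ} {u v : ℂ → ℝ} (hu : Eig E u) (hv : Eig E v) :
    Eig E (fun z => u z + v z) := by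
  refine ⟨hu.1.add hv.1, fun z => ?_⟩
  have h1 := hu.2 z
  have h2 := hv.2 z
  unfold lap at *
  rw [dx_add hu.1 hv.1, dy_add hu.1 hv.1, dx_add (dx_smooth hu.1) (dx_smooth hv.1),
    dy_add (dy_smooth hu.1) (dy_smooth hv.1)]
  linear_combination h1 + h2

theorem Eig.smul {E : ℕ} {u : ℂ → ℝ} (hu : Eig E u) (r : ℝ) : Eig E (fun z => r * u z) := by
  refine ⟨contDiff_const.mul hu.1, fun z => ?_⟩
  have h1 := hu.2 z
  unfold lap at *
  rw [dx_smul hu.1, dy_smul hu.1, dx_smul (dx_smooth hu.1), dy_smul (dy_smooth hu.1)]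
  linear_combination r * h1

theorem Eig.zero (E : ℕ) : Eig E (fun _ => 0) := by
  have h1 : dx (fun _ : ℂ => (0:ℝ)) = fun _ => 0 := by
    funext z; unfold dx; simp
  have h2 : dy (fun _ : ℂ => (0:ℝ)) = fun _ => 0 := by
    funext z; unfold dy; simp
  refine ⟨contDiff_const, fun z => ?_⟩
  unfold lap
  rw [h1, h2, h1, h2]
  simp

theorem sin_pi_int (a : ℕ) (x : ℝ) (h : ∃ n : ℤ, x = n) : Real.sin (Real.pi * a * x) = 0 := by
  obtain ⟨n, rfl⟩ := h
  have h1 : Real.pi * a * (n:ℝ) = ((a * n : ℤ) : ℝ) * Real.pi := by push_cast; ring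
  rw [h1, Real.sin_int_mul_pi]

theorem Eig.sinw (E a b : ℕ) (hab : a ^ 2 + b ^ 2 = E) : Eig E (sinw a b) := by
  have h1 : dx (BQ.sinw a b) = fun z : ℂ => (fun x : ℝ => Real.pi * a * Real.cos (Real.pi * a * x)) z.re *
      (fun x : ℝ => Real.sin (Real.pi * b * x)) z.im := dx_prod _ _ _ _ (d_sin _) (d_sin _)
  have h2 : dy (BQ.sinw a b) = fun z : ℂ => (fun x : ℝ => Real.sin (Real.pi * a * x)) z.re *
      (fun x : ℝ => Real.pi * b * Real.cos (Real.pi * b * x)) z.im :=
    dy_prod _ _ _ _ (d_sin _) (d_sin _)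
  have h3 := dx_prod (fun x : ℝ => Real.pi * a * Real.cos (Real.pi * a * x))
    (fun x : ℝ => Real.sin (Real.pi * b * x))
    (fun x => Real.pi * a * (-(Real.pi * a * Real.sin (Real.pi * a * x)))) _
    (fun x => (d_cos _ x).const_mul _) (d_sin _)
  have h4 := dy_prod (fun x : ℝ => Real.sin (Real.pi * a * x))
    (fun x : ℝ => Real.pi * b * Real.cos (Real.pi * b * x)) _
    (fun x => Real.pi * b * (-(Real.pi * b * Real.sin (Real.pi * b * x)))) (d_sin _)
    (fun x => (d_cos _ x).const_mul _)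
  refine ⟨?_, fun z => ?_⟩
  · unfold BQ.sinw
    have hre : ContDiff ℝ ∞ (fun z : ℂ => z.re) := Complex.reCLM.contDiff
    have him : ContDiff ℝ ∞ (fun z : ℂ => z.im) := Complex.imCLM.contDiff
    exact (contDiff_const.mul hre).sin.mul (contDiff_const.mul him).sin
  · unfold lap
    rw [h1, h2, h3, h4]
    unfold BQ.sinw
    have h5 : (E : ℝ) = a ^ 2 + b ^ 2 := by exact_mod_cast hab.symm
    rw [h5]
    ring

theorem Eig.cosw (E a b : ℕ) (hab : a ^ 2 + b ^ 2 = E) : Eig E (cosw a b) := by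
  have h1 : dx (BQ.cosw a b) = fun z : ℂ => (fun x : ℝ => -(Real.pi * a * Real.sin (Real.pi * a * x)))
      z.re * (fun x : ℝ => Real.cos (Real.pi * b * x)) z.im := dx_prod _ _ _ _ (d_cos _) (d_cos _)
  have h2 : dy (BQ.cosw a b) = fun z : ℂ => (fun x : ℝ => Real.cos (Real.pi * a * x)) z.re *
      (fun x : ℝ => -(Real.pi * b * Real.sin (Real.pi * b * x))) z.im :=
    dy_prod _ _ _ _ (d_cos _) (d_cos _)
  have h3 := dx_prod (fun x : ℝ => -(Real.pi * a * Real.sin (Real.pi * a * x)))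
    (fun x : ℝ => Real.cos (Real.pi * b * x))
    (fun x => -(Real.pi * a * (Real.pi * a * Real.cos (Real.pi * a * x)))) _
    (fun x => ((d_sin _ x).const_mul _).neg) (d_cos _)
  have h4 := dy_prod (fun x : ℝ => Real.cos (Real.pi * a * x))
    (fun x : ℝ => -(Real.pi * b * Real.sin (Real.pi * b * x))) _
    (fun x => -(Real.pi * b * (Real.pi * b * Real.cos (Real.pi * b * x)))) (d_cos _)
    (fun x => ((d_sin _ x).const_mul _).neg)
  refine ⟨?_, fun z => ?_⟩
  · unfold BQ.cosw
    have hre : ContDiff ℝ ∞ (fun z : ℂ => z.re) := Complex.reCLM.contDiff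
    have him : ContDiff ℝ ∞ (fun z : ℂ => z.im) := Complex.imCLM.contDiff
    exact (contDiff_const.mul hre).cos.mul (contDiff_const.mul him).cos
  · unfold lap
    rw [h1, h2, h3, h4]
    unfold BQ.cosw
    have h5 : (E : ℝ) = a ^ 2 + b ^ 2 := by exact_mod_cast hab.symm
    rw [h5]
    ring

theorem DirE_eig {E : ℕ} {u : ℂ → ℝ} (hu : u ∈ DirE E) : Eig E u ∧
    ∀ z : ℂ, ((∃ n : ℤ, z.re = n) ∨ ∃ n : ℤ, z.im = n) → u z = 0 := by
  unfold DirE at hu
  induction hu using Submodule.span_induction with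
  | mem u hu =>
    obtain ⟨a, b, hab, rfl⟩ := hu
    refine ⟨Eig.sinw E a b hab, fun z hz => ?_⟩
    unfold sinw
    rcases hz with hz | hz
    · rw [sin_pi_int a _ hz, zero_mul]
    · rw [sin_pi_int b _ hz, mul_zero]
  | zero => exact ⟨Eig.zero E, fun _ _ => rfl⟩
  | add u v _ _ hu hv =>
    exact ⟨hu.1.add hv.1, fun z hz => by
      show u z + v z = 0
      rw [hu.2 z hz, hv.2 z hz, add_zero]⟩
  | smul r u _ hu =>
    exact ⟨hu.1.smul r, fun z hz => by
      show r * u z = 0
      rw [hu.2 z hz, mul_zero]⟩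

theorem NeuE_eig {E : ℕ} {u : ℂ → ℝ} (hu : u ∈ NeuE E) : Eig E u ∧
    ∀ z : ℂ, ((∃ n : ℤ, z.re = n) → dx u z = 0) ∧ ((∃ n : ℤ, z.im = n) → dy u z = 0) := by
  unfold NeuE at hu
  induction hu using Submodule.span_induction with
  | mem u hu =>
    obtain ⟨a, b, hab, rfl⟩ := hu
    refine ⟨Eig.cosw E a b hab, fun z => ⟨fun hz => ?_, fun hz => ?_⟩⟩
    · have h1 : dx (cosw a b) = fun z : ℂ =>
          (fun x : ℝ => -(Real.pi * a * Real.sin (Real.pi * a * x)))
          z.re * (fun x : ℝ => Real.cos (Real.pi * b * x)) z.im := dx_prod _ _ _ _ (d_cos _) (d_cos _)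
      rw [h1]
      show -(Real.pi * a * Real.sin (Real.pi * a * z.re)) * _ = 0
      rw [sin_pi_int a _ hz]
      ring
    · have h2 : dy (cosw a b) = fun z : ℂ => (fun x : ℝ => Real.cos (Real.pi * a * x)) z.re *
          (fun x : ℝ => -(Real.pi * b * Real.sin (Real.pi * b * x))) z.im :=
        dy_prod _ _ _ _ (d_cos _) (d_cos _)
      rw [h2]
      show _ * -(Real.pi * b * Real.sin (Real.pi * b * z.im)) = 0
      rw [sin_pi_int b _ hz]
      ring
  | zero =>
    refine ⟨Eig.zero E, fun z => ⟨fun _ => ?_, fun _ => ?_⟩⟩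
    · show dx (fun _ : ℂ => (0:ℝ)) z = 0
      unfold dx; simp
    · show dy (fun _ : ℂ => (0:ℝ)) z = 0
      unfold dy; simp
  | add u v _ _ hu hv =>
    refine ⟨hu.1.add hv.1, fun z => ⟨fun hz => ?_, fun hz => ?_⟩⟩
    · show dx (fun z => u z + v z) z = 0
      rw [dx_add hu.1.1 hv.1.1]
      show dx u z + dx v z = 0
      rw [(hu.2 z).1 hz, (hv.2 z).1 hz, add_zero]
    · show dy (fun z => u z + v z) z = 0
      rw [dy_add hu.1.1 hv.1.1]
      show dy u z + dy v z = 0
      rw [(hu.2 z).2 hz, (hv.2 z).2 hz, add_zero]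
  | smul r u _ hu =>
    refine ⟨hu.1.smul r, fun z => ⟨fun hz => ?_, fun hz => ?_⟩⟩
    · show dx (fun z => r * u z) z = 0
      rw [dx_smul hu.1.1]
      show r * dx u z = 0
      rw [(hu.2 z).1 hz, mul_zero]
    · show dy (fun z => r * u z) z = 0
      rw [dy_smul hu.1.1]
      show r * dy u z = 0
      rw [(hu.2 z).2 hz, mul_zero]

/-! ### The random wave -/

theorem unif_cont_int (g : ℝ → ℝ) (hg : Continuous g) (C : ℝ) (hC : ∀ x, ‖g x‖ ≤ C) :
    Integrable g unif := Integrable.of_bound hg.aestronglyMeasurable C (Eventually.of_forall hC)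

/-- the variance of a linear combination of values of the random wave -/
def rwv {K : ℕ} (w : Fin K → ℂ) (t : Fin K → ℝ) : ℝ := ∑ i, ∑ j, t i * t j * J0 ‖w i - w j‖

theorem rwv_nonneg {K : ℕ} (w : Fin K → ℂ) (t : Fin K → ℝ) : 0 ≤ rwv w t := by
  have h1 : rwv w t = ∫ α, ∑ i, ∑ j, t i * t j *
      Real.cos ((w i - w j).re * Real.cos α + (w i - w j).im * Real.sin α) ∂unif := by
    rw [integral_finsetSum]
    · refine Finset.sum_congr rfl fun i _ => ?_
      rw [integral_finsetSum]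
      · refine Finset.sum_congr rfl fun j _ => ?_
        rw [integral_const_mul]
        congr 1
        exact (cov_unif (w i - w j)).symm
      · intro j _
        refine Integrable.const_mul (unif_cont_int _ (by fun_prop) 1 fun x => ?_) _
        rw [Real.norm_eq_abs]; exact Real.abs_cos_le_one _
    · intro i _
      refine integrable_finsetSum _ fun j _ => ?_
      refine Integrable.const_mul (unif_cont_int _ (by fun_prop) 1 fun x => ?_) _
      rw [Real.norm_eq_abs]; exact Real.abs_cos_le_one _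
  rw [h1]
  refine integral_nonneg fun α => ?_
  have h2 : ∑ i, ∑ j, t i * t j *
      Real.cos ((w i - w j).re * Real.cos α + (w i - w j).im * Real.sin α) =
      (∑ i, t i * Real.cos ((w i).re * Real.cos α + (w i).im * Real.sin α)) ^ 2 +
      (∑ i, t i * Real.sin ((w i).re * Real.cos α + (w i).im * Real.sin α)) ^ 2 := by
    rw [pow_two, pow_two, Finset.sum_mul_sum, Finset.sum_mul_sum, ← Finset.sum_add_distrib]
    refine Finset.sum_congr rfl fun i _ => ?_
    rw [← Finset.sum_add_distrib]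
    refine Finset.sum_congr rfl fun j _ => ?_
    have h3 : (w i - w j).re * Real.cos α + (w i - w j).im * Real.sin α =
        ((w i).re * Real.cos α + (w i).im * Real.sin α) -
        ((w j).re * Real.cos α + (w j).im * Real.sin α) := by
      simp only [Complex.sub_re, Complex.sub_im]
      ring
    rw [h3, Real.cos_sub]
    ring
  rw [h2]
  positivity

theorem lin_meas {K : ℕ} (w : Fin K → ℂ) (t : Fin K → ℝ) : Measurable (lin w t) := by
  unfold Pool.Agent.N661.BR.lin
  refine Finset.measurable_sum _ fun j _ => measurable_const.mul ?_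
  exact (measurable_pi_apply (w j)).comp measurable_subtype_coe

theorem lin_scale {K : ℕ} (w : Fin K → ℂ) (t : Fin K → ℝ) (s : ℝ) (f : MW) :
    lin w (fun j => s * t j) f = s * lin w t f := by
  unfold Pool.Agent.N661.BR.lin
  rw [Finset.mul_sum]
  exact Finset.sum_congr rfl fun j _ => by ring

theorem rwv_scale {K : ℕ} (w : Fin K → ℂ) (t : Fin K → ℝ) (s : ℝ) :
    rwv w (fun j => s * t j) = s ^ 2 * rwv w t := by
  unfold rwv
  rw [Finset.mul_sum]
  refine Finset.sum_congr rfl fun i _ => ?_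
  rw [Finset.mul_sum]
  exact Finset.sum_congr rfl fun j _ => by ring

/-- the random wave in terms of characteristic functions -/
theorem randomWave_iff (μ : Measure MW) [IsProbabilityMeasure μ] : IsRandomWave μ ↔
    ∀ (K : ℕ) (w : Fin K → ℂ) (t : Fin K → ℝ), ∫ f, Complex.exp (I * (lin w t f : ℝ)) ∂μ =
      Complex.exp ((-(rwv w t) / 2 : ℝ)) := by
  have hmap : ∀ (K : ℕ) (w : Fin K → ℂ) (t : Fin K → ℝ) (s : ℝ),
      charFun (μ.map (lin w t)) s = ∫ f, Complex.exp (I * (lin w (fun j => s * t j) f : ℝ)) ∂μ := by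
    intro K w t s
    rw [charFun_apply_real, integral_map (lin_meas w t).aemeasurable (by fun_prop)]
    refine integral_congr_ae (Eventually.of_forall fun f => ?_)
    show Complex.exp _ = Complex.exp _
    rw [lin_scale]
    congr 1
    push_cast
    ring
  constructor
  · intro h K w t
    have h1 := hmap K w t 1
    simp only [one_mul] at h1
    rw [← h1, h K w t, charFun_gaussianReal]
    congr 1
    have h2 : ((((rwv w t).toNNReal : NNReal) : ℝ) : ℂ) = (rwv w t : ℂ) := by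
      rw [Real.coe_toNNReal _ (rwv_nonneg w t)]
    have h3 : (((∑ i, ∑ j, t i * t j * J0 ‖w i - w j‖).toNNReal : NNReal) : ℂ) =
        (rwv w t : ℂ) := h2
    rw [h3]
    push_cast
    ring
  · intro h K w t
    have : IsProbabilityMeasure (μ.map (lin w t)) :=
      Measure.isProbabilityMeasure_map (lin_meas w t).aemeasurable
    refine Measure.ext_of_charFun ?_
    funext s
    rw [hmap K w t s, h K w (fun j => s * t j), charFun_gaussianReal, rwv_scale]
    congr 1
    have h2 : ((((rwv w t).toNNReal : NNReal) : ℝ) : ℂ) = (rwv w t : ℂ) := by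
      rw [Real.coe_toNNReal _ (rwv_nonneg w t)]
    have h3 : (((∑ i, ∑ j, t i * t j * J0 ‖w i - w j‖).toNNReal : NNReal) : ℂ) =
        (rwv w t : ℂ) := h2
    rw [h3]
    push_cast
    ring

/-- the local limits are exactly the laws of the random wave -/
theorem limit_iff (χ : ℝ → ℝ) (Ω : Set ℂ) (lam : ℕ → ℝ) (u : ℕ → ℂ → ℝ)
    (h : ∀ (K : ℕ) (w : Fin K → ℂ) (t : Fin K → ℝ),
      Tendsto (fun n => (1 / volume.real Ω : ℝ) * ∫ z in Ω,
        Complex.exp (I * ((∑ j, t j * resc χ Ω (lam n) (u n) z (w j) : ℝ) : ℂ))) atTop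
        (𝓝 (Complex.exp ((-(rwv w t) / 2 : ℝ)))))
    (μ : Measure MW) [IsProbabilityMeasure μ] : IsLocalLimit χ Ω lam u μ ↔ IsRandomWave μ := by
  rw [randomWave_iff]
  constructor
  · rintro ⟨s, hs, h1⟩ K w t
    exact tendsto_nhds_unique (h1 K w t) ((h K w t).comp hs.tendsto_atTop)
  · intro h1
    refine ⟨id, strictMono_id, fun K w t => ?_⟩
    rw [h1 K w t]
    exact h K w t

/-! ### The explicit sequence -/

theorem ue_mem (E : ℕ) : ue E ∈ DirE E := by
  have h1 : ue E = (1 / √((W' E).card : ℝ)) • ∑ ν ∈ V E, sinw ν.re.natAbs ν.im.natAbs := by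
    funext z
    unfold ue sinw
    simp [Finset.sum_apply]
  rw [h1]
  refine Submodule.smul_mem _ _ (Submodule.sum_mem _ fun ν hν => Submodule.subset_span ?_)
  refine ⟨ν.re.natAbs, ν.im.natAbs, ?_, rfl⟩
  rw [mem_V, norm_eq] at hν
  have h2 : ((ν.re.natAbs ^ 2 + ν.im.natAbs ^ 2 : ℕ) : ℤ) = E := by
    push_cast
    rw [sq_abs, sq_abs]
    exact hν
  exact_mod_cast h2

theorem be_norm (E : ℕ) (h : 0 < (W' E).card) : ∑ ν ∈ V E, be E ν ^ 2 = 1 := by
  have h1 := be_sq E fun _ => 1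
  simp only [mul_one, Finset.sum_const, nsmul_eq_mul] at h1
  rw [h1]
  have : ((W' E).card : ℝ) ≠ 0 := by positivity
  field_simp

end

end Pool.Agent.L0h56.BQ
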