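import Pool.Agent.L0h56.BQ.Res
import Pool.Agent.L0h56.BQ.Cell

/-! MP_6b977f_mp: quantum ergodicity gives equidistributed directions -/

set_option autoImplicit false
open MeasureTheory Filter Topology Complex Set
open scoped ContDiff Manifold

namespace Pool.Agent.L0h56.BQ

open Pool.Agent.N661.BR (J0 resc IsCutoff IsQuantumErgodic)
open Pool.Agent.W745.RW (lap dx dy TF Dp)

noncomputable section

/-- real trigonometric polynomials with frequencies of norm `E` that are even (`σ = 1`) or odd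
(`σ = -1`) under the reflections in both axes -/
structure Rep (σ : ℝ) (E : ℕ) (b : GaussianInt → ℝ) (u : ℂ → ℝ) : Prop where
  neg : ∀ ν, b (-ν) = b ν
  st : ∀ ν, b (star ν) = σ * b ν
  eq : ∀ z, (u z : ℂ) = ∑ ν ∈ V E, (b ν : ℂ) * ch ν z

theorem star_mem_V {E : ℕ} {ν : GaussianInt} (h : ν ∈ V E) : star ν ∈ V E := by
  rw [mem_V] at *
  rwa [norm_star]

theorem ch_conj (ν : GaussianInt) (z : ℂ) : ch ν ((starRingEnd ℂ) z) = ch (star ν) z := by
  unfold ch
  simp

theorem ch_negarg (ν : GaussianInt) (z : ℂ) : ch ν (-z) = ch (-ν) z := by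
  unfold ch
  simp

theorem ch_per2 (ν : GaussianInt) : Per 2 (ch ν) := by
  have := ch_per ν 1 one_pos (by simp)
  simpa using this

section

variable {σ : ℝ} {E : ℕ} {b b' : GaussianInt → ℝ} {u u' : ℂ → ℝ}

theorem Rep.cont (h : Rep σ E b u) : Continuous u := by
  have h1 : Continuous fun z => (u z : ℂ) := by
    simp_rw [h.eq]
    exact continuous_finsetSum _ fun ν _ => continuous_const.mul (ch_cont ν)
  exact (Complex.continuous_re.comp h1).congr fun z => by simp

theorem Rep.p1 (h : Rep σ E b u) (z : ℂ) : u (z + 2) = u z := by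
  have h1 : (u (z + 2) : ℂ) = u z := by
    rw [h.eq, h.eq]
    refine Finset.sum_congr rfl fun ν _ => ?_
    have := (ch_per2 ν).1 z
    norm_num at this
    rw [this]
  exact_mod_cast h1

theorem Rep.p2 (h : Rep σ E b u) (z : ℂ) : u (z + 2 * I) = u z := by
  have h1 : (u (z + 2 * I) : ℂ) = u z := by
    rw [h.eq, h.eq]
    refine Finset.sum_congr rfl fun ν _ => ?_
    have := (ch_per2 ν).2 z
    norm_num at this
    rw [this]
  exact_mod_cast h1

theorem Rep.r1 (h : Rep σ E b u) (z : ℂ) : u ((starRingEnd ℂ) z) = σ * u z := by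
  have h1 : (u ((starRingEnd ℂ) z) : ℂ) = σ * u z := by
    rw [h.eq, h.eq, Finset.mul_sum]
    refine Finset.sum_bij' (fun ν _ => star ν) (fun ν _ => star ν)
      (fun ν hν => star_mem_V hν) (fun ν hν => star_mem_V hν) (fun ν _ => star_star ν)
      (fun ν _ => star_star ν) fun ν _ => ?_
    rw [ch_conj, ← mul_assoc]
    congr 1
    have h2 := h.st (star ν)
    rw [star_star] at h2
    rw [h2]
    push_cast
    rfl
  exact_mod_cast h1

theorem Rep.neg' (h : Rep σ E b u) (z : ℂ) : u (-z) = u z := by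
  have h1 : (u (-z) : ℂ) = u z := by
    rw [h.eq, h.eq]
    refine Finset.sum_bij' (fun ν _ => -ν) (fun ν _ => -ν)
      (fun ν hν => neg_mem_V hν) (fun ν hν => neg_mem_V hν) (fun ν _ => neg_neg ν)
      (fun ν _ => neg_neg ν) fun ν _ => ?_
    rw [ch_negarg, h.neg]
  exact_mod_cast h1

theorem Rep.symm (h : Rep σ E b u) (h' : Rep σ E b' u') (hσ : σ * σ = 1) :
    Symm fun z => u z * u' z where
  cont := h.cont.mul h'.cont
  p1 := fun z => by show u _ * u' _ = _; rw [h.p1, h'.p1]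
  p2 := fun z => by show u _ * u' _ = _; rw [h.p2, h'.p2]
  r1 := fun z => by
    show u _ * u' _ = _
    rw [h.r1, h'.r1]
    linear_combination (u z * u' z) * hσ
  r2 := fun z => by
    show u _ * u' _ = _
    rw [h.neg', h'.neg', h.r1, h'.r1]
    linear_combination (u z * u' z) * hσ

theorem Rep.ip (h : Rep σ E b u) (h' : Rep σ E b' u') :
    ∫ z in cell 2, u z * u' z = 4 * ∑ ν ∈ V E, b ν * b' ν := by
  classical
  refine real_int ?_
  have h1 : ∀ z, ((u z * u' z : ℝ) : ℂ) =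
      ∑ ν ∈ V E, ∑ ν' ∈ V E, ((b ν : ℂ) * (b' ν' : ℂ)) * ch (ν + ν') z := by
    intro z
    push_cast
    rw [h.eq, h'.eq, Finset.sum_mul_sum]
    refine Finset.sum_congr rfl fun ν _ => Finset.sum_congr rfl fun ν' _ => ?_
    rw [ch_add]
    ring
  simp_rw [h1]
  rw [csum (V E) (fun ν z => ∑ ν' ∈ V E, ((b ν : ℂ) * (b' ν' : ℂ)) * ch (ν + ν') z)
    (fun ν _ => continuous_finsetSum _ fun ν' _ => continuous_const.mul (ch_cont _))]
  push_cast
  rw [Finset.mul_sum]
  refine Finset.sum_congr rfl fun ν hν => ?_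
  rw [csum (V E) (fun ν' z => ((b ν : ℂ) * (b' ν' : ℂ)) * ch (ν + ν') z)
    (fun ν' _ => continuous_const.mul (ch_cont _)), Finset.sum_eq_single (-ν)]
  · rw [integral_const_mul, int_ch, if_pos (add_neg_cancel ν), h'.neg]
    ring
  · intro ν' _ hne
    rw [integral_const_mul, int_ch, if_neg, mul_zero]
    intro h2
    exact hne (eq_neg_of_add_eq_zero_right h2)
  · intro h2
    exact absurd (neg_mem_V hν) h2

end

/-- the unit vector in the direction of `ν` -/
def uE (E : ℕ) (ν : GaussianInt) : ℂ := GaussianInt.toComplex ν / (√E : ℝ)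

theorem uE_neg (E : ℕ) (ν : GaussianInt) : uE E (-ν) = -uE E ν := by
  unfold uE
  rw [map_neg, neg_div]

theorem uE_star (E : ℕ) (ν : GaussianInt) : uE E (star ν) = (starRingEnd ℂ) (uE E ν) := by
  unfold uE
  rw [map_div₀, Complex.conj_ofReal, GaussianInt.toComplex_star]

theorem uE_norm (E : ℕ) (hE : 0 < E) (ν : GaussianInt) (h : ν ∈ V E) : ‖uE E ν‖ = 1 := by
  have h0 : √(E:ℝ) ≠ 0 := (Real.sqrt_pos.2 (by exact_mod_cast hE)).ne'
  unfold uE
  rw [norm_div, norm_toComplex ν E (mem_V.1 h), Complex.norm_real, Real.norm_eq_abs,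
    abs_of_nonneg (Real.sqrt_nonneg _), div_self h0]

theorem uE_exp (E : ℕ) (hE : 0 < E) (ν : GaussianInt) (h : ν ∈ V E) :
    Complex.exp (I * (dirn ν : ℝ)) = uE E ν := by
  have h0 : √(E:ℝ) ≠ 0 := (Real.sqrt_pos.2 (by exact_mod_cast hE)).ne'
  have h1 := Complex.norm_mul_exp_arg_mul_I (GaussianInt.toComplex ν)
  rw [norm_toComplex ν E (mem_V.1 h)] at h1
  have h2 : ((√(E:ℝ) : ℝ) : ℂ) ≠ 0 := by exact_mod_cast h0
  unfold uE dirn
  rw [eq_div_iff h2, mul_comm, mul_comm I]
  exact h1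

theorem exp_int_mul' (q : ℤ) (x : ℝ) :
    Complex.exp (I * ((q * x : ℝ) : ℂ)) = Complex.exp (I * (x : ℂ)) ^ q := by
  rw [← Complex.exp_int_mul]
  congr 1
  push_cast
  ring

/-- the operators `Dp` on trigonometric polynomials -/
theorem Dp_trig (h : ℝ) (S : Finset GaussianInt) (a : GaussianInt → ℂ) :
    Dp h (fun z => ∑ ν ∈ S, a ν * ch ν z) =
      fun z => ∑ ν ∈ S, (a ν * ((h : ℂ) * Real.pi * I * (ν.re - I * ν.im))) * ch ν z := by
  have hd : ∀ ν : GaussianInt, ∀ z v : ℂ, HasFDerivAt (ch ν)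
      (ch ν z • ((Real.pi : ℂ) * I) • (Complex.ofRealCLM.comp
        ((ν.re : ℝ) • Complex.reCLM + (ν.im : ℝ) • Complex.imCLM))) z := by
    intro ν z v
    have h1 : HasFDerivAt (fun z : ℂ => ((Real.pi * (ν.re * z.re + ν.im * z.im) : ℝ) : ℂ) * I)
        (((Real.pi : ℂ) * I) • (Complex.ofRealCLM.comp
        ((ν.re : ℝ) • Complex.reCLM + (ν.im : ℝ) • Complex.imCLM))) z := by
      have h2 : (fun z : ℂ => ((Real.pi * (ν.re * z.re + ν.im * z.im) : ℝ) : ℂ) * I) =
          fun z => (((Real.pi : ℂ) * I) • (Complex.ofRealCLM.comp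
            ((ν.re : ℝ) • Complex.reCLM + (ν.im : ℝ) • Complex.imCLM))) z := by
        funext z
        simp
        ring
      rw [h2]
      exact ContinuousLinearMap.hasFDerivAt _
    exact h1.cexp
  have hs : ∀ z v : ℂ, fderiv ℝ (fun z => ∑ ν ∈ S, a ν * ch ν z) z v =
      ∑ ν ∈ S, a ν * (ch ν z * (((Real.pi : ℂ) * I) * ((ν.re : ℂ) * v.re + (ν.im : ℂ) * v.im))) := by
    intro z v
    have h1 : HasFDerivAt (fun z => ∑ ν ∈ S, a ν * ch ν z)
        (∑ ν ∈ S, a ν • (ch ν z • ((Real.pi : ℂ) * I) • (Complex.ofRealCLM.comp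
        ((ν.re : ℝ) • Complex.reCLM + (ν.im : ℝ) • Complex.imCLM)))) z :=
      HasFDerivAt.fun_sum fun ν _ => (hd ν z v).const_mul (a ν)
    rw [h1.fderiv, sum_apply]
    refine Finset.sum_congr rfl fun ν _ => ?_
    simp only [smul_apply, ContinuousLinearMap.comp_apply,
      add_apply, Complex.reCLM_apply, Complex.imCLM_apply,
      Complex.ofRealCLM_apply, smul_eq_mul]
    push_cast
    ring
  funext z
  unfold Dp dx dy
  rw [hs, hs, Finset.mul_sum, ← Finset.sum_sub_distrib, Finset.mul_sum]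
  refine Finset.sum_congr rfl fun ν _ => ?_
  simp
  ring

theorem Dp_trig_iter (h : ℝ) (S : Finset GaussianInt) (a : GaussianInt → ℂ) (k : ℕ) :
    (Dp h)^[k] (fun z => ∑ ν ∈ S, a ν * ch ν z) =
      fun z => ∑ ν ∈ S, (a ν * ((h : ℂ) * Real.pi * I * (ν.re - I * ν.im)) ^ k) * ch ν z := by
  induction k with
  | zero => simp
  | succ k ih =>
    rw [Function.iterate_succ_apply', ih, Dp_trig]
    funext z
    refine Finset.sum_congr rfl fun ν _ => ?_
    rw [pow_succ]
    ring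

theorem factor (E : ℕ) (ν : GaussianInt) :
    ((1 / √(lamE E) : ℝ) : ℂ) * Real.pi * I * (ν.re - I * ν.im) =
      I * (starRingEnd ℂ) (uE E ν) := by
  rw [sqrt_lamE]
  unfold uE
  rw [map_div₀, Complex.conj_ofReal]
  have h1 : (starRingEnd ℂ) (GaussianInt.toComplex ν) = ν.re - I * ν.im := by
    rw [GaussianInt.toComplex_def]
    simp only [map_add, map_mul, Complex.conj_I]
    have h2 : (starRingEnd ℂ) ((ν.re : ℤ) : ℂ) = ν.re := by simp
    have h3 : (starRingEnd ℂ) ((ν.im : ℤ) : ℂ) = ν.im := by simp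
    rw [h2, h3]
    ring
  rw [h1]
  have hp : (Real.pi : ℂ) ≠ 0 := by exact_mod_cast Real.pi_ne_zero
  push_cast
  by_cases h0 : ((√(E:ℝ) : ℝ) : ℂ) = 0
  · rw [h0]
    simp
  · field_simp

theorem I_mul_pow (x : ℂ) (q : ℕ) : (I * x) ^ (2 * q) = (-1) ^ q * x ^ (2 * q) := by
  rw [mul_pow, pow_mul, Complex.I_sq]

/-- the polynomial with the coefficients multiplied by `cos (2 q θ)` -/
def bP (E : ℕ) (q : ℕ) (b : GaussianInt → ℝ) (ν : GaussianInt) : ℝ := b ν * ((uE E ν) ^ (2 * q)).re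

/-- its value -/
def uP (E : ℕ) (q : ℕ) (b : GaussianInt → ℝ) (z : ℂ) : ℝ := (∑ ν ∈ V E, (bP E q b ν : ℂ) * ch ν z).re

theorem Rep.P {σ : ℝ} {E : ℕ} {b : GaussianInt → ℝ} {u : ℂ → ℝ} (h : Rep σ E b u) (q : ℕ) :
    Rep σ E (bP E q b) (uP E q b) where
  neg := fun ν => by
    unfold bP
    rw [h.neg, uE_neg, Even.neg_pow (even_two_mul q)]
  st := fun ν => by
    unfold bP
    rw [h.st, uE_star, ← map_pow, Complex.conj_re]
    ring
  eq := fun z => by
    unfold uP
    refine real_of_sym (V E) (fun ν => (bP E q b ν : ℂ)) (fun ν hν => neg_mem_V hν) ?_ z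
    intro ν
    rw [Complex.conj_ofReal]
    unfold bP
    rw [h.neg, uE_neg, Even.neg_pow (even_two_mul q)]

theorem Rep.smooth {σ : ℝ} {E : ℕ} {b : GaussianInt → ℝ} {u : ℂ → ℝ} (h : Rep σ E b u) :
    ContDiff ℝ ∞ u := by
  have h1 : ContDiff ℝ ∞ fun z => (u z : ℂ) := by
    simp_rw [h.eq]
    refine ContDiff.sum fun ν _ => contDiff_const.mul ?_
    unfold ch
    refine ContDiff.cexp (ContDiff.mul ?_ contDiff_const)
    refine Complex.ofRealCLM.contDiff.comp ?_
    refine contDiff_const.mul ?_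
    exact (contDiff_const.mul Complex.reCLM.contDiff).add (contDiff_const.mul Complex.imCLM.contDiff)
  have h2 : u = fun z => Complex.reCLM (u z : ℂ) := by
    funext z
    simp
  rw [h2]
  exact Complex.reCLM.contDiff.comp h1

/-- the real part of the quadratic functionals -/
theorem Rep.re_int {σ : ℝ} {E : ℕ} {b : GaussianInt → ℝ} {u : ℂ → ℝ} (h : Rep σ E b u) (q : ℕ)
    (φ : ℂ → ℝ) (hφ : Continuous φ) (hc : HasCompactSupport φ) :
    (∫ z, (φ z : ℂ) * ((u z : ℂ) * (Dp (1 / √(lamE E)))^[2 * q] (fun w => (u w : ℂ)) z)).re =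
      (-1) ^ q * ∫ z, φ z * (u z * uP E q b z) := by
  have h1 : (fun w => (u w : ℂ)) = fun z => ∑ ν ∈ V E, (b ν : ℂ) * ch ν z := funext h.eq
  have h2 : (Dp (1 / √(lamE E)))^[2 * q] (fun w => (u w : ℂ)) =
      fun z => ∑ ν ∈ V E, ((b ν : ℂ) * ((-1) ^ q * (starRingEnd ℂ) ((uE E ν) ^ (2 * q)))) * ch ν z := by
    rw [h1, Dp_trig_iter]
    funext z
    refine Finset.sum_congr rfl fun ν _ => ?_
    rw [factor, I_mul_pow, map_pow]
  -- the imaginary part of the coefficients
  set bR : GaussianInt → ℝ := fun ν => b ν * ((uE E ν) ^ (2 * q)).im with hbR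
  set R : ℂ → ℝ := fun z => (∑ ν ∈ V E, (bR ν : ℂ) * ch ν z).re with hR
  have hRr : ∀ z, (R z : ℂ) = ∑ ν ∈ V E, (bR ν : ℂ) * ch ν z := fun z => by
    refine real_of_sym (V E) (fun ν => (bR ν : ℂ)) (fun ν hν => neg_mem_V hν) ?_ z
    intro ν
    rw [Complex.conj_ofReal]
    simp only [hbR]
    rw [h.neg, uE_neg, Even.neg_pow (even_two_mul q)]
  have hRc : Continuous R := by
    refine Complex.continuous_re.comp ?_
    exact continuous_finsetSum _ fun ν _ => continuous_const.mul (ch_cont ν)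
  have h3 : ∀ z, (Dp (1 / √(lamE E)))^[2 * q] (fun w => (u w : ℂ)) z =
      (-1) ^ q * ((uP E q b z : ℂ) - I * (R z : ℂ)) := by
    intro z
    rw [h2, (h.P q).eq, hRr]
    show ∑ ν ∈ V E, ((b ν : ℂ) * ((-1) ^ q * (starRingEnd ℂ) ((uE E ν) ^ (2 * q)))) * ch ν z = _
    rw [Finset.mul_sum, ← Finset.sum_sub_distrib, Finset.mul_sum]
    refine Finset.sum_congr rfl fun ν _ => ?_
    unfold bP
    simp only [hbR]
    set x := (uE E ν) ^ (2 * q)
    have h4 : (starRingEnd ℂ) x = (x.re : ℂ) - I * (x.im : ℂ) := by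
      apply Complex.ext <;> simp
    rw [h4]
    push_cast
    ring
  have h4 : ∀ z, (φ z : ℂ) * ((u z : ℂ) * (Dp (1 / √(lamE E)))^[2 * q] (fun w => (u w : ℂ)) z) =
      (((-1) ^ q * (φ z * (u z * uP E q b z)) : ℝ) : ℂ) +
      ((-((-1) ^ q * (φ z * (u z * R z))) : ℝ) : ℂ) * I := by
    intro z
    rw [h3]
    push_cast
    ring
  simp_rw [h4]
  have hi : ∀ g : ℂ → ℝ, Continuous g → Integrable fun z => φ z * g z := fun g hg =>
    (hφ.mul hg).integrable_of_hasCompactSupport hc.mul_right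
  rw [integral_add, integral_mul_const, integral_complex_ofReal, integral_complex_ofReal]
  · simp only [Complex.add_re, Complex.ofReal_re, Complex.mul_re, Complex.I_re, Complex.I_im,
      Complex.ofReal_im, mul_zero, zero_mul, sub_zero, add_zero]
    exact integral_const_mul _ _
  · exact ((hi _ (h.cont.mul (h.P q).cont)).const_mul _).ofReal
  · exact (((hi _ (h.cont.mul hRc)).const_mul _).neg.ofReal).mul_const I

/-- test functions close to the indicator function -/
theorem exists_tf (Ω : Set ℂ) (ho : IsOpen Ω) (hv : volume Ω ≠ ⊤) (ε : ℝ) (hε : 0 < ε) :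
    ∃ φ : ℂ → ℝ, TF Ω φ ∧ (∀ z, 0 ≤ φ z ∧ φ z ≤ 1) ∧ volume.real Ω - ∫ z, φ z ≤ ε := by
  by_cases h0 : volume Ω = 0
  · refine ⟨fun _ => 0, ⟨contDiff_const, HasCompactSupport.zero, ?_⟩, fun z => by simp, ?_⟩
    · have h1 : tsupport (fun _ : ℂ => (0:ℝ)) = ∅ := by
        rw [tsupport_eq_empty_iff]
        rfl
      rw [h1]
      exact empty_subset _
    · rw [measureReal_def, h0]
      simpa using hε.le
  obtain ⟨K, hKΩ, hK, hKv⟩ := ho.exists_lt_isCompact (μ := volume)
    (r := volume Ω - ENNReal.ofReal ε)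
    (ENNReal.sub_lt_self hv h0 (ENNReal.ofReal_pos.2 hε).ne')
  obtain ⟨K', hK', hKK', hK'Ω⟩ := exists_compact_between hK ho hKΩ
  obtain ⟨f, hf0, hf1, hf⟩ := exists_contMDiffMap_zero_one_of_isClosed (n := ⊤) 𝓘(ℝ, ℂ)
    (s := (interior K')ᶜ) (t := K) isOpen_interior.isClosed_compl hK.isClosed
    (by
      rw [Set.disjoint_left]
      intro x hx hxK
      exact hx (hKK' hxK))
  have hsupp : Function.support f ⊆ K' := by
    intro x hx
    by_contra hcon
    exact hx (hf0 fun h => hcon (interior_subset h))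
  have hcs : HasCompactSupport f := HasCompactSupport.of_support_subset_isCompact hK' hsupp
  have hts : tsupport f ⊆ Ω := (closure_minimal hsupp hK'.isClosed).trans hK'Ω
  refine ⟨f, ⟨f.contMDiff.contDiff, hcs, hts⟩, hf, ?_⟩
  have hfc : Continuous f := f.contMDiff.continuous
  have h1 : volume.real K ≤ ∫ z, f z := by
    calc volume.real K = ∫ z in K, f z := by
          rw [setIntegral_congr_fun hK.measurableSet (g := fun _ => (1:ℝ)) fun z hz => hf1 hz,
            setIntegral_const, smul_eq_mul, mul_one]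
      _ ≤ ∫ z, f z := setIntegral_le_integral (hfc.integrable_of_hasCompactSupport hcs)
          (Eventually.of_forall fun z => (hf z).1)
  have h2 : volume.real Ω ≤ volume.real K + ε := by
    have h3 : volume Ω ≤ volume K + ENNReal.ofReal ε := tsub_le_iff_right.1 hKv.le
    have h4 := ENNReal.toReal_mono (by
      exact ENNReal.add_ne_top.2 ⟨hK.measure_lt_top.ne, ENNReal.ofReal_ne_top⟩) h3
    rw [ENNReal.toReal_add hK.measure_lt_top.ne ENNReal.ofReal_ne_top,
      ENNReal.toReal_ofReal hε.le] at h4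
    exact h4
  linarith

end

end Pool.Agent.L0h56.BQ
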