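import Pool.Agent.L0h56.BQ.Qe

/-! MP_6b977f_mp: quantum ergodic sequences on domains made of unit squares -/

set_option autoImplicit false
open MeasureTheory Filter Topology Complex Set
open scoped ContDiff

namespace Pool.Agent.L0h56.BQ

open Pool.Agent.N661.BR (J0 resc IsCutoff IsQuantumErgodic)
open Pool.Agent.W745.RW (lap dx dy TF Dp)

noncomputable section

variable {σ : ℝ} (hσ : σ * σ = 1) {E : ℕ → ℕ} (hE : ∀ n, 0 < E n)
  {b : ℕ → GaussianInt → ℝ} {u : ℕ → ℂ → ℝ} (hr : ∀ n, Rep σ (E n) (b n) (u n))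
  {Ω : Set ℂ} (hΩ : IsPoly Ω) (hne : Ω.Nonempty)
  (hn : ∀ n, ∫ z in Ω, u n z ^ 2 = volume.real Ω)

theorem IsPoly.vol_pos (hΩ : IsPoly Ω) (hne : Ω.Nonempty) : 0 < volume.real Ω := by
  rw [measureReal_def]
  exact ENNReal.toReal_pos (hΩ.op.measure_pos volume hne).ne' hΩ.bd.measure_lt_top.ne

include hσ hr hΩ in
theorem sq_int (n : ℕ) : ∫ z in Ω, u n z ^ 2 = volume.real Ω * ∑ ν ∈ V (E n), b n ν ^ 2 := by
  have h1 := hΩ.int _ ((hr n).symm (hr n) hσ)
  rw [(hr n).ip (hr n)] at h1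
  have h2 : ∀ z, u n z ^ 2 = u n z * u n z := fun z => pow_two _
  simp_rw [h2]
  rw [h1, Finset.sum_congr rfl fun ν _ => (pow_two (b n ν)).symm]
  ring

include hσ hr hΩ hne hn in
theorem norm_one' (n : ℕ) : ∑ ν ∈ V (E n), b n ν ^ 2 = 1 := by
  have h1 := sq_int hσ hr hΩ n
  rw [hn n] at h1
  have h2 := hΩ.vol_pos hne
  have h3 : volume.real Ω * 1 = volume.real Ω * ∑ ν ∈ V (E n), b n ν ^ 2 := by rw [← h1, mul_one]
  exact (mul_left_cancel₀ h2.ne' h3).symm

include hσ hE hr hΩ hne hn in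
theorem qe_even (hq : IsQuantumErgodic Ω (fun n => lamE (E n)) u) (q : ℕ) (hq0 : q ≠ 0) :
    Tendsto (fun n => ∑ ν ∈ V (E n), b n ν ^ 2 * ((uE (E n) ν) ^ (2 * q)).re) atTop (𝓝 0) := by
  have hM := hΩ.vol_pos hne
  set M := volume.real Ω with hMdef
  have hv : volume Ω ≠ ⊤ := hΩ.bd.measure_lt_top.ne
  have : IsFiniteMeasure (volume.restrict Ω) := ⟨by simpa using hv.lt_top⟩
  have hΩi : ∀ g : ℂ → ℝ, Continuous g → Integrable g (volume.restrict Ω) := by
    intro g hg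
    obtain ⟨R, hR⟩ := hΩ.bd.subset_ball 0
    exact (hg.continuousOn.integrableOn_compact (isCompact_closedBall 0 R)).mono_set
      (hR.trans Metric.ball_subset_closedBall)
  have hc : ∀ n, ∫ z in Ω, u n z * uP (E n) q (b n) z =
      M * ∑ ν ∈ V (E n), b n ν ^ 2 * ((uE (E n) ν) ^ (2 * q)).re := by
    intro n
    rw [hΩ.int _ ((hr n).symm ((hr n).P q) hσ), (hr n).ip ((hr n).P q)]
    have h1 : ∀ ν, b n ν * bP (E n) q (b n) ν = b n ν ^ 2 * ((uE (E n) ν) ^ (2 * q)).re := fun ν => by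
      unfold bP
      ring
    simp_rw [h1]
    ring
  have hP2 : ∀ n, ∫ z in Ω, uP (E n) q (b n) z ^ 2 ≤ M := by
    intro n
    rw [sq_int (u := fun n => uP (E n) q (b n)) (b := fun n => bP (E n) q (b n)) hσ
      (fun n => (hr n).P q) hΩ n]
    have h1 : ∑ ν ∈ V (E n), bP (E n) q (b n) ν ^ 2 ≤ 1 := by
      rw [← norm_one' hσ hr hΩ hne hn n]
      refine Finset.sum_le_sum fun ν hν => ?_
      unfold bP
      rw [mul_pow]
      have h2 : ((uE (E n) ν) ^ (2 * q)).re ^ 2 ≤ 1 := by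
        rw [sq_le_one_iff_abs_le_one]
        refine (Complex.abs_re_le_norm _).trans ?_
        rw [norm_pow, uE_norm (E n) (hE n) ν hν, one_pow]
      nlinarith [sq_nonneg (b n ν)]
    nlinarith
  rw [Metric.tendsto_nhds]
  intro ε hε
  -- parameters
  set η : ℝ := min 1 (ε * M / (2 * (2 + M))) with hη
  have hη0 : 0 < η := by positivity
  have hη1 : η * (2 + M) ≤ ε * M / 2 := by
    calc η * (2 + M) ≤ ε * M / (2 * (2 + M)) * (2 + M) :=
          mul_le_mul_of_nonneg_right (min_le_right _ _) (by positivity)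
      _ = ε * M / 2 := by field_simp
  obtain ⟨φ, hφ, hφ01, hφv⟩ := exists_tf Ω hΩ.op hv (η ^ 2) (by positivity)
  have hφc : Continuous φ := hφ.1.continuous
  have hφs : ∀ g : ℂ → ℝ, ∫ z, φ z * g z = ∫ z in Ω, φ z * g z := by
    intro g
    rw [setIntegral_eq_integral_of_forall_compl_eq_zero]
    intro z hz
    have : φ z = 0 := by
      by_contra h
      exact hz (hφ.2.2 (subset_tsupport _ h))
    rw [this, zero_mul]
  -- the two limits
  have hl0 := hq φ hφ 0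
  have hlq := hq φ hφ (2 * q)
  rw [if_pos rfl] at hl0
  rw [if_neg (by omega)] at hlq
  have hr0 : Tendsto (fun n => ∫ z, φ z * u n z ^ 2) atTop (𝓝 (∫ z, φ z)) := by
    have h1 := (Complex.continuous_re.tendsto _).comp hl0
    rw [Complex.ofReal_re] at h1
    refine h1.congr fun n => ?_
    show (∫ z, (φ z : ℂ) * ((u n z : ℂ) * (Dp (1 / √(lamE (E n))))^[0]
      (fun w => (u n w : ℂ)) z)).re = _
    have h2 : ∀ z, (φ z : ℂ) * ((u n z : ℂ) * (Dp (1 / √(lamE (E n))))^[0]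
      (fun w => (u n w : ℂ)) z) = ((φ z * u n z ^ 2 : ℝ) : ℂ) := fun z => by
        rw [Function.iterate_zero, id]
        push_cast
        ring
    simp_rw [h2]
    rw [integral_complex_ofReal, Complex.ofReal_re]
  have hrq : Tendsto (fun n => |∫ z, φ z * (u n z * uP (E n) q (b n) z)|) atTop (𝓝 0) := by
    have h1 := (Complex.continuous_re.tendsto _).comp hlq
    have h2 := h1.abs
    rw [Complex.zero_re, abs_zero] at h2
    refine h2.congr fun n => ?_
    show |(∫ z, (φ z : ℂ) * ((u n z : ℂ) * (Dp (1 / √(lamE (E n))))^[2 * q]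
      (fun w => (u n w : ℂ)) z)).re| = _
    rw [(hr n).re_int q φ hφc hφ.2.1, abs_mul, abs_pow, abs_neg, abs_one, one_pow, one_mul]
  have he1 : ∀ᶠ n in atTop, (∫ z, φ z) - η ^ 2 ≤ ∫ z, φ z * u n z ^ 2 :=
    hr0.eventually (eventually_ge_nhds (by linarith [pow_pos hη0 2]))
  have he2 : ∀ᶠ n in atTop, |∫ z, φ z * (u n z * uP (E n) q (b n) z)| ≤ η / 2 :=
    hrq.eventually (eventually_le_nhds (by positivity))
  filter_upwards [he1, he2] with n h1 h2
  rw [Real.dist_eq, sub_zero]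
  have huc := (hr n).cont
  have hPc := ((hr n).P q).cont
  -- the part near the boundary
  have hnear : |∫ z in Ω, (1 - φ z) * (u n z * uP (E n) q (b n) z)| ≤
      (η⁻¹ * (2 * η ^ 2) + η * M) / 2 := by
    have hpt : ∀ z, |(1 - φ z) * (u n z * uP (E n) q (b n) z)| ≤
        (η⁻¹ * ((1 - φ z) * u n z ^ 2) + η * uP (E n) q (b n) z ^ 2) / 2 := by
      intro z
      obtain ⟨h3, h4⟩ := hφ01 z
      have h5 : 0 ≤ 1 - φ z := by linarith
      rw [abs_mul, abs_of_nonneg h5, abs_mul]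
      set x := |u n z|
      set y := |uP (E n) q (b n) z|
      have hx : u n z ^ 2 = x ^ 2 := (sq_abs _).symm
      have hy : uP (E n) q (b n) z ^ 2 = y ^ 2 := (sq_abs _).symm
      rw [hx, hy]
      have h6 : x * y ≤ (η⁻¹ * x ^ 2 + η * y ^ 2) / 2 := by
        have h7 : 0 ≤ η⁻¹ * (x - η * y) ^ 2 := by positivity
        have h8 : η⁻¹ * (x - η * y) ^ 2 = η⁻¹ * x ^ 2 - 2 * (x * y) + η * y ^ 2 := by
          field_simp
          ring
        linarith
      calc (1 - φ z) * (x * y) ≤ (1 - φ z) * ((η⁻¹ * x ^ 2 + η * y ^ 2) / 2) :=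
            mul_le_mul_of_nonneg_left h6 h5
        _ ≤ _ := by
            have h9 : 0 ≤ η * y ^ 2 := by positivity
            nlinarith
    calc |∫ z in Ω, (1 - φ z) * (u n z * uP (E n) q (b n) z)|
        ≤ ∫ z in Ω, |(1 - φ z) * (u n z * uP (E n) q (b n) z)| := abs_integral_le_integral_abs
      _ ≤ ∫ z in Ω, (η⁻¹ * ((1 - φ z) * u n z ^ 2) + η * uP (E n) q (b n) z ^ 2) / 2 :=
          integral_mono (hΩi _ (by fun_prop)) (hΩi _ (by fun_prop)) hpt
      _ = (η⁻¹ * (∫ z in Ω, (1 - φ z) * u n z ^ 2) +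
            η * ∫ z in Ω, uP (E n) q (b n) z ^ 2) / 2 := by
          rw [integral_div, integral_add (hΩi _ (by fun_prop)) (hΩi _ (by fun_prop)),
            integral_const_mul, integral_const_mul]
      _ ≤ _ := by
          have h3 : ∫ z in Ω, (1 - φ z) * u n z ^ 2 ≤ 2 * η ^ 2 := by
            have h4 : ∀ z, (1 - φ z) * u n z ^ 2 = u n z ^ 2 - φ z * u n z ^ 2 := fun z => by ring
            simp_rw [h4]
            rw [integral_sub (hΩi _ (by fun_prop)) (hΩi _ (by fun_prop)), hn n,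
              ← hφs fun z => u n z ^ 2]
            linarith
          have h4 := hP2 n
          have h5 : 0 < η⁻¹ := by positivity
          nlinarith [mul_le_mul_of_nonneg_left h3 h5.le, mul_le_mul_of_nonneg_left h4 hη0.le]
  have hsplit : ∫ z in Ω, u n z * uP (E n) q (b n) z =
      (∫ z, φ z * (u n z * uP (E n) q (b n) z)) +
      ∫ z in Ω, (1 - φ z) * (u n z * uP (E n) q (b n) z) := by
    rw [hφs fun z => u n z * uP (E n) q (b n) z, ← integral_add (hΩi _ (by fun_prop))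
      (hΩi _ (by fun_prop))]
    refine integral_congr_ae (Eventually.of_forall fun z => ?_)
    show u n z * uP (E n) q (b n) z = φ z * (u n z * uP (E n) q (b n) z) +
      (1 - φ z) * (u n z * uP (E n) q (b n) z)
    ring
  rw [hc n] at hsplit
  have hfin : M * |∑ ν ∈ V (E n), b n ν ^ 2 * ((uE (E n) ν) ^ (2 * q)).re| ≤ ε * M / 2 := by
    have h3 : M * |∑ ν ∈ V (E n), b n ν ^ 2 * ((uE (E n) ν) ^ (2 * q)).re| =
        |(∫ z, φ z * (u n z * uP (E n) q (b n) z)) +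
      ∫ z in Ω, (1 - φ z) * (u n z * uP (E n) q (b n) z)| := by
      rw [← hsplit, abs_mul, abs_of_pos hM]
    rw [h3]
    refine (abs_add_le _ _).trans ?_
    have h4 : (η⁻¹ * (2 * η ^ 2) + η * M) / 2 = η * (2 + M) / 2 := by
      field_simp
    rw [h4] at hnear
    have h5 : 0 ≤ η * M := by positivity
    nlinarith
  have h6 : |∑ ν ∈ V (E n), b n ν ^ 2 * ((uE (E n) ν) ^ (2 * q)).re| ≤ ε / 2 := by
    have h7 : M * |∑ ν ∈ V (E n), b n ν ^ 2 * ((uE (E n) ν) ^ (2 * q)).re| ≤ M * (ε / 2) := by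
      linarith
    exact le_of_mul_le_mul_left h7 hM
  linarith

include hr hE in
/-- all Fourier coefficients of the measures of directions -/
theorem ang_of_even (h2 : ∀ q : ℕ, q ≠ 0 → Tendsto (fun n => ∑ ν ∈ V (E n),
      b n ν ^ 2 * ((uE (E n) ν) ^ (2 * q)).re) atTop (𝓝 0)) (hσ : σ * σ = 1) (q : ℤ) (hq : q ≠ 0) :
    Tendsto (fun n => ∑ ν ∈ V (E n), ((‖(b n ν : ℂ)‖ ^ 2 : ℝ) : ℂ) *
      Complex.exp (I * (q * dirn ν : ℝ))) atTop (𝓝 0) := by
  have hb2 : ∀ n ν, ‖(b n ν : ℂ)‖ ^ 2 = b n ν ^ 2 := fun n ν => by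
    rw [Complex.norm_real, Real.norm_eq_abs, sq_abs]
  have hσ2 : ∀ n ν, b n (star ν) ^ 2 = b n ν ^ 2 := fun n ν => by
    rw [(hr n).st]
    linear_combination (b n ν ^ 2) * hσ
  -- natural exponents
  have hnat : ∀ q : ℕ, q ≠ 0 → Tendsto (fun n => ∑ ν ∈ V (E n), ((b n ν ^ 2 : ℝ) : ℂ) *
      (uE (E n) ν) ^ q) atTop (𝓝 0) := by
    intro q hq
    rcases Nat.even_or_odd' q with ⟨j, rfl | rfl⟩
    · have hj : j ≠ 0 := by rintro rfl; simp at hq
      have h3 : ∀ n, ∑ ν ∈ V (E n), ((b n ν ^ 2 : ℝ) : ℂ) * (uE (E n) ν) ^ (2 * j) =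
          ((∑ ν ∈ V (E n), b n ν ^ 2 * ((uE (E n) ν) ^ (2 * j)).re : ℝ) : ℂ) := by
        intro n
        have h4 : (starRingEnd ℂ) (∑ ν ∈ V (E n), ((b n ν ^ 2 : ℝ) : ℂ) * (uE (E n) ν) ^ (2 * j)) =
            ∑ ν ∈ V (E n), ((b n ν ^ 2 : ℝ) : ℂ) * (uE (E n) ν) ^ (2 * j) := by
          rw [map_sum]
          refine Finset.sum_bij' (fun ν _ => star ν) (fun ν _ => star ν)
            (fun ν hν => star_mem_V hν) (fun ν hν => star_mem_V hν) (fun ν _ => star_star ν)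
            (fun ν _ => star_star ν) fun ν _ => ?_
          rw [map_mul, Complex.conj_ofReal, map_pow, ← uE_star, hσ2]
        rw [← Complex.conj_eq_iff_re.1 h4]
        congr 1
        rw [Complex.re_sum]
        exact Finset.sum_congr rfl fun ν _ => Complex.re_ofReal_mul _ _
      simp_rw [h3]
      have := (Complex.continuous_ofReal.tendsto _).comp (h2 j hj)
      rwa [Complex.ofReal_zero] at this
    · have h3 : ∀ n, ∑ ν ∈ V (E n), ((b n ν ^ 2 : ℝ) : ℂ) * (uE (E n) ν) ^ (2 * j + 1) = 0 := by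
        intro n
        have h4 : ∑ ν ∈ V (E n), ((b n ν ^ 2 : ℝ) : ℂ) * (uE (E n) ν) ^ (2 * j + 1) =
            -∑ ν ∈ V (E n), ((b n ν ^ 2 : ℝ) : ℂ) * (uE (E n) ν) ^ (2 * j + 1) := by
          rw [← Finset.sum_neg_distrib]
          refine Finset.sum_bij' (fun ν _ => -ν) (fun ν _ => -ν)
            (fun ν hν => neg_mem_V hν) (fun ν hν => neg_mem_V hν) (fun ν _ => neg_neg ν)
            (fun ν _ => neg_neg ν) fun ν _ => ?_
          rw [(hr n).neg, uE_neg, Odd.neg_pow (odd_two_mul_add_one j)]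
          ring
        have h5 : (2:ℂ) * ∑ ν ∈ V (E n), ((b n ν ^ 2 : ℝ) : ℂ) * (uE (E n) ν) ^ (2 * j + 1) = 0 := by
          linear_combination h4
        exact (mul_eq_zero.1 h5).resolve_left two_ne_zero
      simp_rw [h3]
      exact tendsto_const_nhds
  have hexp : ∀ n, ∑ ν ∈ V (E n), ((‖(b n ν : ℂ)‖ ^ 2 : ℝ) : ℂ) *
      Complex.exp (I * (q * dirn ν : ℝ)) = ∑ ν ∈ V (E n), ((b n ν ^ 2 : ℝ) : ℂ) *
        (uE (E n) ν) ^ q := by
    intro n
    refine Finset.sum_congr rfl fun ν hν => ?_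
    rw [hb2, exp_int_mul', uE_exp (E n) (hE n) ν hν]
  simp_rw [hexp]
  rcases Int.eq_nat_or_neg q with ⟨l, rfl | rfl⟩
  · have hl : l ≠ 0 := by rintro rfl; simp at hq
    simp_rw [zpow_natCast]
    exact hnat l hl
  · have hl : l ≠ 0 := by rintro rfl; simp at hq
    have h3 : ∀ n, ∑ ν ∈ V (E n), ((b n ν ^ 2 : ℝ) : ℂ) * (uE (E n) ν) ^ (-(l:ℤ)) =
        (starRingEnd ℂ) (∑ ν ∈ V (E n), ((b n ν ^ 2 : ℝ) : ℂ) * (uE (E n) ν) ^ l) := by
      intro n
      rw [map_sum]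
      refine Finset.sum_congr rfl fun ν hν => ?_
      rw [map_mul, Complex.conj_ofReal, zpow_neg, zpow_natCast, map_pow,
        Complex.inv_eq_conj (by rw [norm_pow, uE_norm (E n) (hE n) ν hν, one_pow]), map_pow]
    simp_rw [h3]
    have := (Complex.continuous_conj.tendsto _).comp (hnat l hl)
    rwa [map_zero] at this

end

/-- **Quantum ergodic sequences on domains made of unit squares, eigenvalues `π² m p^k`.** -/
theorem poly_lim (p : ℕ) (hp : p.Prime) (h4 : p % 4 = 1) (m : ℕ) (hm : 0 < m) (k : ℕ → ℕ)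
    (hk : Tendsto k atTop atTop) (σ : ℝ) (hσ : σ * σ = 1) (b : ℕ → GaussianInt → ℝ)
    (u : ℕ → ℂ → ℝ) (hr : ∀ n, Rep σ (m * p ^ k n) (b n) (u n))
    (Ω : Set ℂ) (hΩ : IsPoly Ω) (hne : Ω.Nonempty)
    (hn : ∀ n, ∫ z in Ω, u n z ^ 2 = volume.real Ω)
    (hq : IsQuantumErgodic Ω (fun n => lamE (m * p ^ k n)) u)
    (Ω' : Set ℂ) (ho' : IsOpen Ω') (hne' : Ω'.Nonempty) (hsub : Ω' ⊆ Ω)
    (χ : ℝ → ℝ) (hχ : IsCutoff χ) (K : ℕ) (w : Fin K → ℂ) (t : Fin K → ℝ) :
    Tendsto (fun n => (1 / volume.real Ω' : ℝ) * ∫ z in Ω',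
      Complex.exp (I * ((∑ j, t j * resc χ Ω (lamE (m * p ^ k n)) (u n) z (w j) : ℝ) : ℂ))) atTop
      (𝓝 (Complex.exp ((-(∑ i, ∑ j, t i * t j * J0 ‖w i - w j‖) / 2 : ℝ)))) := by
  have hE : ∀ n, 0 < m * p ^ k n := fun n => Nat.mul_pos hm (pow_pos hp.pos _)
  refine torus_lim p hp h4 m hm k hk (fun n ν => (b n ν : ℂ)) ?_ ?_ ?_ u (fun n => (hr n).eq)
    Ω hΩ.op Ω' ho' (hΩ.bd.subset hsub) hne' hsub χ hχ K w t
  · intro n ν
    rw [(hr n).neg, Complex.conj_ofReal]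
  · intro n
    rw [← norm_one' hσ hr hΩ hne hn n]
    refine Finset.sum_congr rfl fun ν _ => ?_
    rw [Complex.norm_real, Real.norm_eq_abs, sq_abs]
  · intro q hq0
    exact ang_of_even hE hr (fun q hq1 => qe_even hσ hE hr hΩ hne hn hq q hq1) hσ q hq0

end Pool.Agent.L0h56.BQ
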