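import Pool.Agent.L0h56.BQ.Ex

/-! MP_6b977f_mp: equidistributed directions give quantum ergodicity -/

set_option autoImplicit false
open MeasureTheory Filter Topology Complex Set
open scoped ContDiff

namespace Pool.Agent.L0h56.BQ

open Pool.Agent.N661.BR (J0 resc IsCutoff IsQuantumErgodic)
open Pool.Agent.W745.RW (lap dx dy TF Dp)

noncomputable section

/-- localisation with a continuous weight -/
theorem loc2 (φ : ℂ → ℝ) (hφ : Continuous φ) (hc : HasCompactSupport φ) (ε : ℝ) (hε : 0 < ε) :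
    ∃ s0 : ℝ, 0 < s0 ∧ ∀ s : ℝ, 0 < s → s ≤ s0 → ∀ F : ℂ → ℂ, Continuous F →
      (∃ M : ℝ, ∀ z, ‖F z‖ ≤ M) → Per s F → Per 2 F →
      ‖(∫ z, (φ z : ℂ) * F z) - ((∫ z, φ z : ℝ) : ℂ) * (sq s F / (s : ℂ) ^ 2)‖ ≤
        ε * ∫ z in cell 2, ‖F z‖ := by
  obtain ⟨R, hR0, hR⟩ : ∃ R : ℝ, 0 < R ∧ tsupport φ ⊆ Metric.ball 0 R := by
    obtain ⟨R, hR⟩ := (IsCompact.isBounded hc).subset_ball 0
    exact ⟨max R 1, by positivity, hR.trans (Metric.ball_subset_ball (le_max_left _ _))⟩
  set S : Set ℂ := Metric.ball 0 (R + 4) with hS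
  have hSb : Bornology.IsBounded S := Metric.isBounded_ball
  obtain ⟨C, hC0, hC⟩ := per_bound S hSb
  have hunif : UniformContinuous φ := HasCompactSupport.uniformContinuous_of_continuous hc hφ
  rw [Metric.uniformContinuous_iff] at hunif
  obtain ⟨δ, hδ, hδ1⟩ := hunif (ε / (C + 1)) (by positivity)
  refine ⟨min (δ / 4) (1 / 2), by positivity, fun s hs hs0 F hF hM hp hp2 => ?_⟩
  obtain ⟨M, hM⟩ := hM
  have hcell : ∀ w ∈ cell s, ‖w‖ < δ ∧ ‖w‖ < 2 := by
    intro w hw
    obtain ⟨⟨h1, h2⟩, h3, h4⟩ := hw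
    have h5 : ‖w‖ ≤ s + s := by
      calc ‖w‖ ≤ |w.re| + |w.im| := Complex.norm_le_abs_re_add_abs_im w
        _ ≤ s + s := by
          rw [abs_of_pos h1, abs_of_pos h3]
          linarith
    have h6 := hs0.trans (min_le_left _ _)
    have h7 := hs0.trans (min_le_right _ _)
    constructor <;> linarith
  have hφ0 : ∀ z, R ≤ ‖z‖ → φ z = 0 := by
    intro z hz
    by_contra h
    have h1 := hR (subset_tsupport _ h)
    rw [mem_ball_zero_iff] at h1
    linarith
  set cF : ℝ := ∫ z in cell 2, ‖F z‖ with hcF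
  have hcF0 : 0 ≤ cF := integral_nonneg fun _ => norm_nonneg _
  have hSfin : volume S ≠ ⊤ := hSb.measure_lt_top.ne
  have : IsFiniteMeasure (volume.restrict S) := ⟨by simpa using hSfin.lt_top⟩
  have : IsFiniteMeasure (volume.restrict (cell s)) :=
    ⟨by rw [Measure.restrict_apply_univ, cell_vol s hs.le]; exact ENNReal.ofReal_lt_top⟩
  have hcv : volume.real (cell s) = s ^ 2 := by
    rw [measureReal_def, cell_vol s hs.le, ENNReal.toReal_ofReal (by positivity)]
  have hFS : ∫ z in S, ‖F z‖ ≤ C * cF := by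
    refine hC (fun z => ‖F z‖) hF.norm (fun z => norm_nonneg _) (fun z => ?_) (fun z => ?_)
    · show ‖F (z + (2:ℝ))‖ = ‖F z‖
      rw [hp2.1 z]
    · show ‖F (z + (2:ℝ) * I)‖ = ‖F z‖
      rw [hp2.2 z]
  -- the shifted integrals
  have hphi : ∀ G : ℂ → ℂ, ∫ z, (φ z : ℂ) * G z = ∫ z in S, (φ z : ℂ) * G z := by
    intro G
    rw [setIntegral_eq_integral_of_forall_compl_eq_zero]
    intro z hz
    rw [hS, mem_ball_zero_iff, not_lt] at hz
    rw [hφ0 z (by linarith)]
    simp
  obtain ⟨B, hB⟩ : ∃ B : ℝ, ∀ z, ‖φ z‖ ≤ B := by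
    obtain ⟨B, hB⟩ := hc.exists_bound_of_continuous hφ
    exact ⟨B, hB⟩
  have hint1 : ∀ G : ℂ → ℂ, Continuous G → (∀ z, ‖G z‖ ≤ M) →
      Integrable (fun z => (φ z : ℂ) * G z) (volume : Measure ℂ) := by
    intro G hG _
    exact ((Complex.continuous_ofReal.comp hφ).mul hG).integrable_of_hasCompactSupport
      (HasCompactSupport.mul_right (hc.comp_left (g := fun x : ℝ => (x : ℂ)) (by simp)))
  have h1 : ∀ w ∈ cell s, ‖(∫ z, (φ z : ℂ) * F z) - ∫ z, (φ z : ℂ) * F (z + w)‖ ≤ ε * cF := by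
    intro w hw
    obtain ⟨hw1, hw2⟩ := hcell w hw
    have h2 : ∫ z, (φ z : ℂ) * F z = ∫ z, (φ (z + w) : ℂ) * F (z + w) :=
      (integral_add_right_eq_self (fun z => (φ z : ℂ) * F z) w).symm
    have hi1 : Integrable fun z => (φ (z + w) : ℂ) * F (z + w) :=
      (hint1 F hF hM).comp_add_right w
    have hi2 : Integrable fun z => (φ z : ℂ) * F (z + w) :=
      hint1 (fun z => F (z + w)) (by fun_prop) (fun z => hM _)
    rw [h2, ← integral_sub hi1 hi2]
    have h3 : ∀ z, ‖(φ (z + w) : ℂ) * F (z + w) - (φ z : ℂ) * F (z + w)‖ ≤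
        ε / (C + 1) * S.indicator (fun z => ‖F z‖) (z + w) := by
      intro z
      rw [← sub_mul, norm_mul, ← Complex.ofReal_sub, Complex.norm_real]
      by_cases hz : ‖z‖ < R + 2
      · have h4 : z + w ∈ S := by
          rw [hS, mem_ball_zero_iff]
          calc ‖z + w‖ ≤ ‖z‖ + ‖w‖ := norm_add_le _ _
            _ < R + 4 := by linarith
        rw [indicator_of_mem h4]
        refine mul_le_mul_of_nonneg_right ?_ (norm_nonneg _)
        have h5 : dist (z + w) z < δ := by
          rw [dist_eq_norm, add_sub_cancel_left]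
          exact hw1
        exact (hδ1 h5).le
      · have h5 : R ≤ ‖z + w‖ := by
          have h6 : ‖z‖ ≤ ‖z + w‖ + ‖w‖ := by
            calc ‖z‖ = ‖(z + w) - w‖ := by congr 1; ring
              _ ≤ _ := norm_sub_le _ _
          linarith
        rw [hφ0 z (by linarith), hφ0 (z + w) h5]
        simp only [sub_zero, norm_zero, zero_mul]
        exact mul_nonneg (by positivity) (indicator_nonneg (fun _ _ => norm_nonneg _) _)
    have h7 : ∫ z, S.indicator (fun z => ‖F z‖) (z + w) = ∫ z in S, ‖F z‖ := by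
      rw [integral_add_right_eq_self (fun z => S.indicator (fun z => ‖F z‖) z) w,
        integral_indicator Metric.isOpen_ball.measurableSet]
    have hind : Integrable (S.indicator fun z => ‖F z‖) := by
      rw [integrable_indicator_iff Metric.isOpen_ball.measurableSet]
      exact Integrable.of_bound hF.norm.aestronglyMeasurable M
        (Eventually.of_forall fun z => by rw [norm_norm]; exact hM z)
    calc _ ≤ ∫ z, ‖(φ (z + w) : ℂ) * F (z + w) - (φ z : ℂ) * F (z + w)‖ :=
          norm_integral_le_integral_norm _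
      _ ≤ ∫ z, ε / (C + 1) * S.indicator (fun z => ‖F z‖) (z + w) :=
          integral_mono (hi1.sub hi2).norm ((hind.comp_add_right w).const_mul _) h3
      _ = ε / (C + 1) * ∫ z in S, ‖F z‖ := by rw [integral_const_mul, h7]
      _ ≤ ε / (C + 1) * (C * cF) := mul_le_mul_of_nonneg_left hFS (by positivity)
      _ ≤ ε * cF := by
          have h8 : ε / (C + 1) * (C * cF) = ε * cF * (C / (C + 1)) := by ring
          rw [h8]
          have h9 : C / (C + 1) ≤ 1 := by
            rw [div_le_one (by positivity)]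
            linarith
          exact mul_le_of_le_one_right (by positivity) h9
  have hint2 : Integrable (Function.uncurry fun (z : ℂ) (w : ℂ) => (φ z : ℂ) * F (z + w))
      ((volume.restrict S).prod (volume.restrict (cell s))) := by
    refine Integrable.of_bound (Continuous.aestronglyMeasurable ?_) (B * M)
      (Eventually.of_forall fun p => ?_)
    · unfold Function.uncurry
      have := Complex.continuous_ofReal.comp hφ
      fun_prop
    · show ‖(φ p.1 : ℂ) * F (p.1 + p.2)‖ ≤ _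
      rw [norm_mul, Complex.norm_real]
      exact mul_le_mul (hB _) (hM _) (norm_nonneg _) ((norm_nonneg _).trans (hB 0))
  have hsw : ∫ w in cell s, (∫ z, (φ z : ℂ) * F (z + w)) = ((∫ z, φ z : ℝ) : ℂ) * sq s F := by
    simp_rw [fun w => hphi fun z => F (z + w)]
    rw [← integral_integral_swap hint2]
    have h2 : ∀ z : ℂ, ∫ w in cell s, (φ z : ℂ) * F (z + w) = (φ z : ℂ) * sq s F := by
      intro z
      rw [integral_const_mul, cell_int s hs.le (fun w => F (z + w)) (by fun_prop),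
        sq_shift s F hp z]
    simp_rw [h2]
    rw [integral_mul_const]
    congr 1
    have h3 := hphi fun _ => 1
    simp only [mul_one] at h3
    rw [← h3, integral_complex_ofReal]
  have hi3 : Integrable (fun w : ℂ => ∫ z, (φ z : ℂ) * F (z + w)) (volume.restrict (cell s)) := by
    simp_rw [fun w => hphi fun z => F (z + w)]
    exact hint2.integral_prod_right
  have hcs : ∫ w in cell s, (∫ z, (φ z : ℂ) * F z) = (s : ℂ) ^ 2 * ∫ z, (φ z : ℂ) * F z := by
    rw [setIntegral_const, hcv, Complex.real_smul]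
    push_cast
    ring
  have hs2 : (s : ℂ) ^ 2 ≠ 0 := pow_ne_zero _ (by exact_mod_cast hs.ne')
  have hfin : (∫ z, (φ z : ℂ) * F z) - ((∫ z, φ z : ℝ) : ℂ) * (sq s F / (s : ℂ) ^ 2) =
      (∫ w in cell s, ((∫ z, (φ z : ℂ) * F z) - ∫ z, (φ z : ℂ) * F (z + w))) / (s : ℂ) ^ 2 := by
    rw [integral_sub (integrable_const _) hi3, hsw, hcs, sub_div, mul_div_cancel_left₀ _ hs2,
      mul_div_assoc]
  rw [hfin, norm_div]
  have h12 : ‖∫ w in cell s, ((∫ z, (φ z : ℂ) * F z) - ∫ z, (φ z : ℂ) * F (z + w))‖ ≤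
      ε * cF * s ^ 2 := by
    have h13 := norm_setIntegral_le_of_norm_le_const (μ := volume) (s := cell s) (C := ε * cF)
      (f := fun w => (∫ z, (φ z : ℂ) * F z) - ∫ z, (φ z : ℂ) * F (z + w))
      (by rw [cell_vol s hs.le]; exact ENNReal.ofReal_lt_top) (fun w hw => h1 w hw)
    rwa [hcv] at h13
  have h14 : ‖(s : ℂ) ^ 2‖ = s ^ 2 := by
    rw [norm_pow, Complex.norm_real, Real.norm_eq_abs, abs_of_pos hs]
  rw [h14, div_le_iff₀ (by positivity)]
  exact h12

end

end Pool.Agent.L0h56.BQ
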