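import Pool.Agent.L0h56.BQ.Qe3

/-! MP_6b977f_mp: equidistributed directions give quantum ergodicity, conclusion -/

set_option autoImplicit false
open MeasureTheory Filter Topology Complex Set
open scoped ContDiff

namespace Pool.Agent.L0h56.BQ

open Pool.Agent.N661.BR (J0 resc IsCutoff IsQuantumErgodic)
open Pool.Agent.W745.RW (lap dx dy TF Dp)

noncomputable section

/-- trigonometric polynomial -/
def TP (S : Finset GaussianInt) (c : GaussianInt → ℂ) (z : ℂ) : ℂ := ∑ ν ∈ S, c ν * ch ν z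

@[fun_prop]
theorem TP_cont (S : Finset GaussianInt) (c : GaussianInt → ℂ) : Continuous (TP S c) :=
  continuous_finsetSum _ fun ν _ => continuous_const.mul (ch_cont ν)

theorem TP_bound (S : Finset GaussianInt) (c : GaussianInt → ℂ) (z : ℂ) :
    ‖TP S c z‖ ≤ ∑ ν ∈ S, ‖c ν‖ := by
  refine (norm_sum_le _ _).trans (Finset.sum_le_sum fun ν _ => ?_)
  rw [norm_mul, norm_ch, mul_one]

theorem TP_per (S : Finset GaussianInt) (c : GaussianInt → ℂ) (s : ℝ)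
    (h : ∀ ν ∈ S, Per s (ch ν)) : Per s (TP S c) := by
  constructor
  · intro z
    exact Finset.sum_congr rfl fun ν hν => by rw [(h ν hν).1 z]
  · intro z
    exact Finset.sum_congr rfl fun ν hν => by rw [(h ν hν).2 z]

theorem Per.mul {s : ℝ} {f g : ℂ → ℂ} (hf : Per s f) (hg : Per s g) : Per s fun z => f z * g z :=
  ⟨fun z => by show f _ * g _ = _; rw [hf.1, hg.1], fun z => by show f _ * g _ = _; rw [hf.2, hg.2]⟩

theorem TP_ip (S : Finset GaussianInt) (hS : ∀ ν ∈ S, -ν ∈ S) (b a : GaussianInt → ℂ) :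
    ∫ z in cell 2, TP S b z * TP S a z = 4 * ∑ ν ∈ S, b ν * a (-ν) := by
  classical
  have h1 : ∀ z, TP S b z * TP S a z = ∑ ν ∈ S, ∑ ν' ∈ S, (b ν * a ν') * ch (ν + ν') z := by
    intro z
    unfold TP
    rw [Finset.sum_mul_sum]
    refine Finset.sum_congr rfl fun ν _ => Finset.sum_congr rfl fun ν' _ => ?_
    rw [ch_add]
    ring
  simp_rw [h1]
  rw [csum S (fun ν z => ∑ ν' ∈ S, (b ν * a ν') * ch (ν + ν') z)
    (fun ν _ => continuous_finsetSum _ fun ν' _ => continuous_const.mul (ch_cont _)),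
    Finset.mul_sum]
  refine Finset.sum_congr rfl fun ν hν => ?_
  rw [csum S (fun ν' z => (b ν * a ν') * ch (ν + ν') z)
    (fun ν' _ => continuous_const.mul (ch_cont _)), Finset.sum_eq_single (-ν)]
  · rw [integral_const_mul, int_ch, if_pos (add_neg_cancel ν)]
    ring
  · intro ν' _ hne
    rw [integral_const_mul, int_ch, if_neg, mul_zero]
    intro h2
    exact hne (eq_neg_of_add_eq_zero_right h2)
  · intro h2
    exact absurd (hS ν hν) h2

theorem young (ε x y : ℝ) (hε : 0 < ε) : x * y ≤ (ε⁻¹ * x ^ 2 + ε * y ^ 2) / 2 := by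
  have h7 : 0 ≤ ε⁻¹ * (x - ε * y) ^ 2 := by positivity
  have h8 : ε⁻¹ * (x - ε * y) ^ 2 = ε⁻¹ * x ^ 2 - 2 * (x * y) + ε * y ^ 2 := by
    field_simp
    ring
  linarith

/-- limits of quadratic functionals -/
theorem bil {p : ℕ} {ϖ : GaussianInt} (h : Spl p ϖ) (hp1 : 1 < p) (m : ℕ)
    (k : ℕ → ℕ) (b a : ℕ → GaussianInt → ℂ)
    (hb : ∀ n, ∑ ν ∈ V (m * p ^ k n), ‖b n ν‖ ^ 2 ≤ 1)
    (ha : ∀ n, ∑ ν ∈ V (m * p ^ k n), ‖a n ν‖ ^ 2 ≤ 1)
    (hsm : ∀ ε : ℝ, 0 < ε → ∀ᶠ n in atTop, ∀ ν ∈ V (m * p ^ k n), ‖b n ν‖ ≤ ε ∧ ‖a n ν‖ ≤ ε)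
    (L : ℂ) (hL : Tendsto (fun n => ∑ ν ∈ V (m * p ^ k n), b n ν * a n (-ν)) atTop (𝓝 L))
    (φ : ℂ → ℝ) (hφ : Continuous φ) (hc : HasCompactSupport φ) :
    Tendsto (fun n => ∫ z, (φ z : ℂ) * (TP (V (m * p ^ k n)) (b n) z * TP (V (m * p ^ k n)) (a n) z))
      atTop (𝓝 (((∫ z, φ z : ℝ) : ℂ) * L)) := by
  classical
  obtain ⟨R, hR⟩ := (IsCompact.isBounded hc).subset_ball 0
  set S : Set ℂ := Metric.ball 0 R with hS
  have hSb : Bornology.IsBounded S := Metric.isBounded_ball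
  have hSm : MeasurableSet S := Metric.isOpen_ball.measurableSet
  obtain ⟨C, hC0, hC⟩ := per_bound S hSb
  obtain ⟨B, hB⟩ : ∃ B : ℝ, ∀ z, ‖φ z‖ ≤ B := hc.exists_bound_of_continuous hφ
  have hB0 : 0 ≤ B := (norm_nonneg _).trans (hB 0)
  have hSi : ∀ g : ℂ → ℝ, Continuous g → Integrable g (volume.restrict S) := fun g hg =>
    (hg.continuousOn.integrableOn_compact (isCompact_closedBall 0 R)).mono_set
      Metric.ball_subset_closedBall
  set I0 : ℝ := ∫ z, φ z with hI0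
  suffices hmain : ∀ ε : ℝ, 0 < ε → ε ≤ 1 → ∀ᶠ n in atTop,
      ‖(∫ z, (φ z : ℂ) * (TP (V (m * p ^ k n)) (b n) z * TP (V (m * p ^ k n)) (a n) z)) -
        (I0 : ℂ) * L‖ ≤ (8 * C * B + 4 + 2 * |I0|) * ε by
    rw [Metric.tendsto_nhds]
    intro ε hε
    set K : ℝ := 8 * C * B + 4 + 2 * |I0| with hK
    have hK0 : 0 < K := by positivity
    refine (hmain (min 1 (ε / (2 * K))) (by positivity) (min_le_left _ _)).mono fun n hn => ?_
    rw [dist_eq_norm]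
    refine hn.trans_lt ?_
    calc K * min 1 (ε / (2 * K)) ≤ K * (ε / (2 * K)) :=
          mul_le_mul_of_nonneg_left (min_le_right _ _) hK0.le
      _ = ε / 2 := by field_simp
      _ < ε := by linarith
  intro ε hε hε1
  obtain ⟨s0, hs0, hloc⟩ := loc2 φ hφ hc ε hε
  obtain ⟨A, hA⟩ : ∃ A : ℕ, (2 : ℝ) / ((p ^ A : ℕ) : ℝ) ≤ s0 := by
    obtain ⟨A, hA⟩ := pow_unbounded_of_one_lt (2 / s0) (by exact_mod_cast hp1 : (1:ℝ) < p)
    refine ⟨A, ?_⟩
    have hpA : (0:ℝ) < (p:ℝ) ^ A := by positivity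
    rw [div_lt_iff₀ hs0] at hA
    push_cast
    rw [div_le_iff₀ hpA]
    linarith
  set q : ℕ := (V m).card with hq
  obtain ⟨κ, hκ0, hκ⟩ : ∃ κ : ℝ, 0 < κ ∧ (q * (2 * A) : ℝ) * κ ^ 2 ≤ ε ^ 2 := by
    refine ⟨ε / (q * (2 * A) + 1), by positivity, ?_⟩
    have h1 : (0:ℝ) ≤ q * (2 * A) := by positivity
    rw [div_pow, mul_div_assoc', div_le_iff₀ (by positivity)]
    have h2 : (q * (2 * A) : ℝ) ≤ (q * (2 * A) + 1) ^ 2 := by nlinarith
    nlinarith [sq_nonneg ε]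
  have hn3 : ∀ᶠ n in atTop, ‖∑ ν ∈ V (m * p ^ k n), b n ν * a n (-ν) - L‖ ≤ ε := by
    rw [Metric.tendsto_nhds] at hL
    exact (hL ε hε).mono fun n hn => by rw [dist_eq_norm] at hn; exact hn.le
  filter_upwards [hsm κ hκ0, hn3] with n hn1 hn3
  set Vn := V (m * p ^ k n) with hVn
  set G := Vn.filter fun ν => A ≤ idx ϖ (k n) ν ∧ idx ϖ (k n) ν + A ≤ k n with hG
  set Bad := Vn.filter fun ν => ¬ (A ≤ idx ϖ (k n) ν ∧ idx ϖ (k n) ν + A ≤ k n) with hBad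
  have hGsym : ∀ ν ∈ G, -ν ∈ G := by
    intro ν hν
    rw [hG, Finset.mem_filter] at hν ⊢
    rw [idx_neg]
    exact ⟨neg_mem_V hν.1, hν.2⟩
  have hBsym : ∀ ν ∈ Bad, -ν ∈ Bad := by
    intro ν hν
    rw [hBad, Finset.mem_filter] at hν ⊢
    rw [idx_neg]
    exact ⟨neg_mem_V hν.1, hν.2⟩
  have hGV : G ⊆ Vn := Finset.filter_subset _ _
  have hBV : Bad ⊆ Vn := Finset.filter_subset _ _
  have hmass : ∀ f : GaussianInt → ℂ, (∀ ν ∈ Vn, ‖f ν‖ ≤ κ) → ∑ ν ∈ Bad, ‖f ν‖ ^ 2 ≤ ε ^ 2 := by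
    intro f hf
    calc ∑ ν ∈ Bad, ‖f ν‖ ^ 2 ≤ ∑ ν ∈ Bad, κ ^ 2 := Finset.sum_le_sum fun ν hν =>
          pow_le_pow_left₀ (norm_nonneg _) (hf ν (hBV hν)) 2
      _ = (Bad.card : ℝ) * κ ^ 2 := by rw [Finset.sum_const, nsmul_eq_mul]
      _ ≤ (q * (2 * A) : ℝ) * κ ^ 2 := by
          refine mul_le_mul_of_nonneg_right ?_ (sq_nonneg _)
          exact_mod_cast h.card_ext m (k n) A
      _ ≤ ε ^ 2 := hκ
  have hbb := hmass (b n) fun ν hν => (hn1 ν hν).1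
  have hab := hmass (a n) fun ν hν => (hn1 ν hν).2
  have hsub : ∀ f : GaussianInt → ℂ, ∑ ν ∈ Vn, ‖f ν‖ ^ 2 ≤ 1 → ∑ ν ∈ G, ‖f ν‖ ^ 2 ≤ 1 := fun f hf =>
    (Finset.sum_le_sum_of_subset_of_nonneg hGV fun _ _ _ => by positivity).trans hf
  have hbg := hsub _ (hb n)
  have hag := hsub _ (ha n)
  have hsplit : ∀ (f : GaussianInt → ℂ) z, TP Vn f z = TP G f z + TP Bad f z := fun f z => by
    unfold TP
    exact (Finset.sum_filter_add_sum_filter_not Vn _ _).symm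
  -- `L²` bounds on the ball
  have hper2 : ∀ (T : Finset GaussianInt) (f : GaussianInt → ℂ), Per 2 (TP T f) := fun T f =>
    TP_per T f 2 fun ν _ => ch_per2 ν
  have hL2 : ∀ (T : Finset GaussianInt) (f : GaussianInt → ℂ),
      ∫ z in S, ‖TP T f z‖ ^ 2 ≤ C * (4 * ∑ ν ∈ T, ‖f ν‖ ^ 2) := by
    intro T f
    have h1 := hC (fun z => ‖TP T f z‖ ^ 2) ((TP_cont T f).norm.pow 2) (fun z => by positivity)
      (fun z => by show ‖TP T f (z + (2:ℝ))‖ ^ 2 = _; rw [(hper2 T f).1 z])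
      (fun z => by show ‖TP T f (z + (2:ℝ) * I)‖ ^ 2 = _; rw [(hper2 T f).2 z])
    have h2 := parseval T f
    unfold TP at h1 ⊢
    rw [h2] at h1
    exact h1
  -- removal of the extreme frequencies
  have hrem : ‖(∫ z, (φ z : ℂ) * (TP Vn (b n) z * TP Vn (a n) z)) -
      ∫ z, (φ z : ℂ) * (TP G (b n) z * TP G (a n) z)‖ ≤ 8 * C * B * ε := by
    have hi : ∀ T T' : Finset GaussianInt, Integrable fun z =>
        (φ z : ℂ) * (TP T (b n) z * TP T' (a n) z) := fun T T' =>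
      ((Complex.continuous_ofReal.comp hφ).mul
        ((TP_cont T _).mul (TP_cont T' _))).integrable_of_hasCompactSupport
        (HasCompactSupport.mul_right (hc.comp_left (g := fun x : ℝ => (x : ℂ)) (by simp)))
    rw [← integral_sub (hi Vn Vn) (hi G G)]
    have h1 : ∀ z, ‖(φ z : ℂ) * (TP Vn (b n) z * TP Vn (a n) z) -
        (φ z : ℂ) * (TP G (b n) z * TP G (a n) z)‖ ≤
        S.indicator (fun z => B * ((ε⁻¹ * ‖TP Bad (b n) z‖ ^ 2 + ε * ‖TP Vn (a n) z‖ ^ 2) / 2 +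
          (ε⁻¹ * ‖TP Bad (a n) z‖ ^ 2 + ε * ‖TP G (b n) z‖ ^ 2) / 2)) z := by
      intro z
      by_cases hz : z ∈ S
      · rw [indicator_of_mem hz]
        have h2 : (φ z : ℂ) * (TP Vn (b n) z * TP Vn (a n) z) -
            (φ z : ℂ) * (TP G (b n) z * TP G (a n) z) =
            (φ z : ℂ) * (TP Bad (b n) z * TP Vn (a n) z + TP Bad (a n) z * TP G (b n) z) := by
          rw [hsplit (b n) z]
          have h3 := hsplit (a n) z
          rw [h3]
          ring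
        rw [h2, norm_mul, Complex.norm_real]
        refine mul_le_mul (hB z) ?_ (norm_nonneg _) hB0
        refine (norm_add_le _ _).trans (add_le_add ?_ ?_)
        · rw [norm_mul]; exact young ε _ _ hε
        · rw [norm_mul]; exact young ε _ _ hε
      · have h2 : φ z = 0 := by
          by_contra h
          exact hz (hR (subset_tsupport _ h))
        rw [h2, indicator_of_notMem hz]
        simp
    have hg : Continuous fun z => B * ((ε⁻¹ * ‖TP Bad (b n) z‖ ^ 2 + ε * ‖TP Vn (a n) z‖ ^ 2) / 2 +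
          (ε⁻¹ * ‖TP Bad (a n) z‖ ^ 2 + ε * ‖TP G (b n) z‖ ^ 2) / 2) := by
      fun_prop
    calc _ ≤ ∫ z, ‖(φ z : ℂ) * (TP Vn (b n) z * TP Vn (a n) z) -
          (φ z : ℂ) * (TP G (b n) z * TP G (a n) z)‖ := norm_integral_le_integral_norm _
      _ ≤ ∫ z, S.indicator (fun z => B * ((ε⁻¹ * ‖TP Bad (b n) z‖ ^ 2 +
          ε * ‖TP Vn (a n) z‖ ^ 2) / 2 +
          (ε⁻¹ * ‖TP Bad (a n) z‖ ^ 2 + ε * ‖TP G (b n) z‖ ^ 2) / 2)) z := by
          refine integral_mono ((hi Vn Vn).sub (hi G G)).norm ?_ h1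
          rw [integrable_indicator_iff hSm]
          exact hSi _ hg
      _ = B * ((ε⁻¹ * (∫ z in S, ‖TP Bad (b n) z‖ ^ 2) + ε * ∫ z in S, ‖TP Vn (a n) z‖ ^ 2) / 2 +
          (ε⁻¹ * (∫ z in S, ‖TP Bad (a n) z‖ ^ 2) + ε * ∫ z in S, ‖TP G (b n) z‖ ^ 2) / 2) := by
          rw [integral_indicator hSm, integral_const_mul,
            integral_add (hSi _ (by fun_prop)) (hSi _ (by fun_prop)), integral_div, integral_div,
            integral_add (hSi _ (by fun_prop)) (hSi _ (by fun_prop)),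
            integral_add (hSi _ (by fun_prop)) (hSi _ (by fun_prop)),
            integral_const_mul, integral_const_mul, integral_const_mul, integral_const_mul]
      _ ≤ B * ((ε⁻¹ * (C * (4 * ε ^ 2)) + ε * (C * (4 * 1))) / 2 +
          (ε⁻¹ * (C * (4 * ε ^ 2)) + ε * (C * (4 * 1))) / 2) := by
          have h1 := (hL2 Bad (b n)).trans (mul_le_mul_of_nonneg_left
            (mul_le_mul_of_nonneg_left hbb (by norm_num : (0:ℝ) ≤ 4)) hC0)
          have h2 := (hL2 Vn (a n)).trans (mul_le_mul_of_nonneg_left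
            (mul_le_mul_of_nonneg_left (ha n) (by norm_num : (0:ℝ) ≤ 4)) hC0)
          have h3 := (hL2 Bad (a n)).trans (mul_le_mul_of_nonneg_left
            (mul_le_mul_of_nonneg_left hab (by norm_num : (0:ℝ) ≤ 4)) hC0)
          have h4 := (hL2 G (b n)).trans (mul_le_mul_of_nonneg_left
            (mul_le_mul_of_nonneg_left hbg (by norm_num : (0:ℝ) ≤ 4)) hC0)
          gcongr
      _ = 8 * C * B * ε := by
          field_simp
          ring
  -- localisation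
  set F : ℂ → ℂ := fun z => TP G (b n) z * TP G (a n) z with hF
  have hP0 : 0 < p ^ A := pow_pos h.p_pos A
  have hPerG : ∀ ν ∈ G, Per (2 / ((p ^ A : ℕ) : ℝ)) (ch ν) := by
    intro ν hν
    rw [hG, Finset.mem_filter] at hν
    refine ch_per ν (p ^ A) hP0 ?_
    have h4 := h.both A A ν ((pow_dvd_pow _ hν.2.1).trans (idx_dvd ϖ (k n) ν))
      ((pow_dvd_pow _ (by omega)).trans (h.idx_star m (k n) ν hν.1))
    rwa [← mul_pow, h.mul_star, ← Nat.cast_pow] at h4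
  have hFper : Per (2 / ((p ^ A : ℕ) : ℝ)) F := (TP_per G _ _ hPerG).mul (TP_per G _ _ hPerG)
  have hFc : Continuous F := (TP_cont G _).mul (TP_cont G _)
  have hsA : (0:ℝ) < 2 / ((p ^ A : ℕ) : ℝ) := by
    have : (0:ℝ) < ((p ^ A : ℕ) : ℝ) := by exact_mod_cast hP0
    positivity
  have hl := hloc _ hsA hA F hFc ⟨(∑ ν ∈ G, ‖b n ν‖) * ∑ ν ∈ G, ‖a n ν‖, fun z => by
    rw [hF]
    show ‖TP G (b n) z * TP G (a n) z‖ ≤ _
    rw [norm_mul]
    exact mul_le_mul (TP_bound _ _ _) (TP_bound _ _ _) (norm_nonneg _)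
      (Finset.sum_nonneg fun _ _ => norm_nonneg _)⟩ hFper ((hper2 _ _).mul (hper2 _ _))
  have hscale : sq (2 / ((p ^ A : ℕ) : ℝ)) F / (((2 / ((p ^ A : ℕ) : ℝ) : ℝ)) : ℂ) ^ 2 =
      ∑ ν ∈ G, b n ν * a n (-ν) := by
    have h1 := sq_mul (2 / ((p ^ A : ℕ) : ℝ)) F hFc hFper (p ^ A)
    have h2 : ((p ^ A : ℕ) : ℝ) * (2 / ((p ^ A : ℕ) : ℝ)) = 2 := by
      have : ((p ^ A : ℕ) : ℝ) ≠ 0 := by exact_mod_cast hP0.ne'
      field_simp
    rw [h2, ← cell_int 2 (by norm_num) F hFc] at h1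
    have h4 := TP_ip G hGsym (b n) (a n)
    have h5 : ∫ z in cell 2, F z = 4 * ∑ ν ∈ G, b n ν * a n (-ν) := h4
    rw [h5] at h1
    have h3 : ((p ^ A : ℕ) : ℂ) ≠ 0 := by exact_mod_cast hP0.ne'
    have h6 : sq (2 / ((p ^ A : ℕ) : ℝ)) F = 4 * (∑ ν ∈ G, b n ν * a n (-ν)) /
        ((p ^ A : ℕ) : ℂ) ^ 2 := by
      rw [eq_div_iff (pow_ne_zero 2 h3), h1]
      ring
    rw [h6]
    push_cast at h3 ⊢
    field_simp
    norm_num
    ring
  have hF1 : ∫ z in cell 2, ‖F z‖ ≤ 4 := by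
    have h1 : ∀ z, ‖F z‖ ≤ (‖TP G (b n) z‖ ^ 2 + ‖TP G (a n) z‖ ^ 2) / 2 := by
      intro z
      show ‖TP G (b n) z * TP G (a n) z‖ ≤ _
      rw [norm_mul]
      nlinarith [sq_nonneg (‖TP G (b n) z‖ - ‖TP G (a n) z‖)]
    have c1 : Continuous fun z => ‖TP G (b n) z‖ ^ 2 := by fun_prop
    have c2 : Continuous fun z => ‖TP G (a n) z‖ ^ 2 := by fun_prop
    calc ∫ z in cell 2, ‖F z‖ ≤ ∫ z in cell 2, (‖TP G (b n) z‖ ^ 2 + ‖TP G (a n) z‖ ^ 2) / 2 :=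
          integral_mono (cell_integrable 2 hFc.norm) (cell_integrable 2 (by fun_prop)) h1
      _ = ((∫ z in cell 2, ‖TP G (b n) z‖ ^ 2) + ∫ z in cell 2, ‖TP G (a n) z‖ ^ 2) / 2 := by
          rw [integral_div, integral_add (cell_integrable 2 c1) (cell_integrable 2 c2)]
      _ = (4 * ∑ ν ∈ G, ‖b n ν‖ ^ 2 + 4 * ∑ ν ∈ G, ‖a n ν‖ ^ 2) / 2 := by
          have h2 := parseval G (b n)
          have h3 := parseval G (a n)
          unfold TP
          rw [h2, h3]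
      _ ≤ 4 := by linarith
  rw [hscale] at hl
  have hl2 := hl.trans (mul_le_mul_of_nonneg_left hF1 hε.le)
  -- the sums
  have hsum : ‖∑ ν ∈ G, b n ν * a n (-ν) - L‖ ≤ 2 * ε := by
    have h1 : ∑ ν ∈ Vn, b n ν * a n (-ν) = ∑ ν ∈ G, b n ν * a n (-ν) +
        ∑ ν ∈ Bad, b n ν * a n (-ν) := (Finset.sum_filter_add_sum_filter_not Vn _ _).symm
    have h2 : ‖∑ ν ∈ Bad, b n ν * a n (-ν)‖ ≤ ε := by
      calc ‖∑ ν ∈ Bad, b n ν * a n (-ν)‖ ≤ ∑ ν ∈ Bad, ‖b n ν * a n (-ν)‖ := norm_sum_le _ _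
        _ ≤ ∑ ν ∈ Bad, (‖b n ν‖ ^ 2 + ‖a n (-ν)‖ ^ 2) / 2 := by
            refine Finset.sum_le_sum fun ν _ => ?_
            rw [norm_mul]
            nlinarith [sq_nonneg (‖b n ν‖ - ‖a n (-ν)‖)]
        _ = (∑ ν ∈ Bad, ‖b n ν‖ ^ 2 + ∑ ν ∈ Bad, ‖a n ν‖ ^ 2) / 2 := by
            rw [← Finset.sum_div, Finset.sum_add_distrib]
            congr 2
            exact Finset.sum_bij' (fun ν _ => -ν) (fun ν _ => -ν) (fun ν hν => hBsym ν hν)
              (fun ν hν => hBsym ν hν) (fun ν _ => neg_neg ν) (fun ν _ => neg_neg ν)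
              fun ν _ => rfl
        _ ≤ ε ^ 2 := by linarith
        _ ≤ ε := by nlinarith
    have h3 : ∑ ν ∈ G, b n ν * a n (-ν) - L = (∑ ν ∈ Vn, b n ν * a n (-ν) - L) -
        ∑ ν ∈ Bad, b n ν * a n (-ν) := by
      rw [h1]; ring
    rw [h3]
    refine (norm_sub_le _ _).trans ?_
    linarith
  calc _ = ‖((∫ z, (φ z : ℂ) * (TP Vn (b n) z * TP Vn (a n) z)) -
      ∫ z, (φ z : ℂ) * (TP G (b n) z * TP G (a n) z)) +
      ((∫ z, (φ z : ℂ) * F z) - (I0 : ℂ) * ∑ ν ∈ G, b n ν * a n (-ν)) +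
      (I0 : ℂ) * (∑ ν ∈ G, b n ν * a n (-ν) - L)‖ := by
        congr 1
        simp only [hF]
        ring
    _ ≤ 8 * C * B * ε + ε * 4 + |I0| * (2 * ε) := by
        refine (norm_add_le _ _).trans (add_le_add ((norm_add_le _ _).trans
          (add_le_add hrem hl2)) ?_)
        rw [norm_mul, Complex.norm_real, Real.norm_eq_abs]
        exact mul_le_mul_of_nonneg_left hsum (abs_nonneg _)
    _ = _ := by ring

/-- **Equidistribution of the directions implies quantum ergodicity.** -/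
theorem ang_qe (p : ℕ) (hp : p.Prime) (h4 : p % 4 = 1) (m : ℕ) (hm : 0 < m) (k : ℕ → ℕ)
    (σ : ℝ) (b : ℕ → GaussianInt → ℝ) (u : ℕ → ℂ → ℝ)
    (hr : ∀ n, Rep σ (m * p ^ k n) (b n) (u n)) (hb1 : ∀ n, ∑ ν ∈ V (m * p ^ k n), b n ν ^ 2 = 1)
    (hA : ∀ q : ℤ, q ≠ 0 → Tendsto (fun n => ∑ ν ∈ V (m * p ^ k n), ((‖(b n ν : ℂ)‖ ^ 2 : ℝ) : ℂ) *
      Complex.exp (I * (q * dirn ν : ℝ))) atTop (𝓝 0)) (Ω : Set ℂ) :
    IsQuantumErgodic Ω (fun n => lamE (m * p ^ k n)) u := by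
  obtain ⟨ϖ, hϖ⟩ := spl_exists p hp h4
  have hE : ∀ n, 0 < m * p ^ k n := fun n => Nat.mul_pos hm (pow_pos hp.pos _)
  have hb2 : ∀ n ν, ‖(b n ν : ℂ)‖ ^ 2 = b n ν ^ 2 := fun n ν => by
    rw [Complex.norm_real, Real.norm_eq_abs, sq_abs]
  have hb1' : ∀ n, ∑ ν ∈ V (m * p ^ k n), ‖(b n ν : ℂ)‖ ^ 2 = 1 := fun n => by
    rw [← hb1 n]
    exact Finset.sum_congr rfl fun ν _ => hb2 n ν
  intro φ hφ K
  set a : ℕ → GaussianInt → ℂ := fun n ν =>
    (b n ν : ℂ) * (I * (starRingEnd ℂ) (uE (m * p ^ k n) ν)) ^ K with ha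
  have han : ∀ n, ∀ ν ∈ V (m * p ^ k n), ‖a n ν‖ = ‖(b n ν : ℂ)‖ := by
    intro n ν hν
    simp only [ha]
    rw [norm_mul, norm_pow, norm_mul, Complex.norm_I, RCLike.norm_conj,
      uE_norm _ (hE n) ν hν, mul_one, one_pow, mul_one]
  have hsm : ∀ ε : ℝ, 0 < ε → ∀ᶠ n in atTop, ∀ ν ∈ V (m * p ^ k n),
      ‖(b n ν : ℂ)‖ ≤ ε ∧ ‖a n ν‖ ≤ ε := by
    intro ε hε
    have h1 := weyl_small (fun n => V (m * p ^ k n)) (fun n ν => ‖(b n ν : ℂ)‖ ^ 2)
      (fun n ν _ => by positivity) hb1' hA (ε ^ 2) (by positivity)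
    refine h1.mono fun n hn ν hν => ?_
    have h2 : ‖(b n ν : ℂ)‖ ≤ ε := le_of_sq_le_sq (hn ν hν) hε.le
    exact ⟨h2, (han n ν hν).le.trans h2⟩
  have hL : Tendsto (fun n => ∑ ν ∈ V (m * p ^ k n), (b n ν : ℂ) * a n (-ν)) atTop
      (𝓝 (if K = 0 then 1 else 0)) := by
    have h1 : ∀ n, ∑ ν ∈ V (m * p ^ k n), (b n ν : ℂ) * a n (-ν) =
        (-I) ^ K * (starRingEnd ℂ) (∑ ν ∈ V (m * p ^ k n), ((‖(b n ν : ℂ)‖ ^ 2 : ℝ) : ℂ) *
          Complex.exp (I * ((K : ℤ) * dirn ν : ℝ))) := by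
      intro n
      rw [map_sum, Finset.mul_sum]
      refine Finset.sum_congr rfl fun ν hν => ?_
      simp only [ha]
      rw [exp_int_mul', uE_exp _ (hE n) ν hν, zpow_natCast, map_mul, Complex.conj_ofReal, map_pow,
        (hr n).neg, uE_neg, map_neg, hb2]
      have h2 : I * -(starRingEnd ℂ) (uE (m * p ^ k n) ν) =
          -I * (starRingEnd ℂ) (uE (m * p ^ k n) ν) := by ring
      rw [h2, mul_pow]
      push_cast
      ring
    simp_rw [h1]
    by_cases hK : K = 0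
    · subst hK
      simp only [pow_zero, one_mul, if_true]
      refine tendsto_const_nhds.congr fun n => ?_
      have h3 : ∑ ν ∈ V (m * p ^ k n), ((‖(b n ν : ℂ)‖ ^ 2 : ℝ) : ℂ) *
          Complex.exp (I * (((0 : ℕ) : ℤ) * dirn ν : ℝ)) = 1 := by
        simp only [Nat.cast_zero, Int.cast_zero, zero_mul, Complex.ofReal_zero, mul_zero,
          Complex.exp_zero, mul_one]
        rw [← Complex.ofReal_sum, hb1' n, Complex.ofReal_one]
      rw [h3, map_one]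
    · rw [if_neg hK]
      have h2 := ((Complex.continuous_conj.tendsto _).comp (hA K (by exact_mod_cast hK))).const_mul
        ((-I) ^ K)
      rw [map_zero, mul_zero] at h2
      exact h2
  have hmain := bil hϖ hp.one_lt m k (fun n ν => (b n ν : ℂ)) a (fun n => (hb1' n).le)
    (fun n => by
      rw [Finset.sum_congr rfl fun ν hν => by rw [han n ν hν]]
      exact (hb1' n).le) hsm _ hL φ hφ.1.continuous hφ.2.1
  have hgoal : ∀ n, ∫ z, (φ z : ℂ) * ((u n z : ℂ) *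
      (Dp (1 / √(lamE (m * p ^ k n))))^[K] (fun w => (u n w : ℂ)) z) =
      ∫ z, (φ z : ℂ) * (TP (V (m * p ^ k n)) (fun ν => (b n ν : ℂ)) z *
        TP (V (m * p ^ k n)) (a n) z) := by
    intro n
    have h1 : (fun w => (u n w : ℂ)) = fun z => ∑ ν ∈ V (m * p ^ k n), (b n ν : ℂ) * ch ν z :=
      funext (hr n).eq
    have h2 : (Dp (1 / √(lamE (m * p ^ k n))))^[K] (fun w => (u n w : ℂ)) =
        TP (V (m * p ^ k n)) (a n) := by
      rw [h1, Dp_trig_iter]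
      funext z
      unfold TP
      refine Finset.sum_congr rfl fun ν _ => ?_
      rw [factor]
    rw [h2]
    refine integral_congr_ae (Eventually.of_forall fun z => ?_)
    show (φ z : ℂ) * ((u n z : ℂ) * _) = _
    rw [(hr n).eq]
    rfl
  refine Tendsto.congr (fun n => (hgoal n).symm) ?_
  convert hmain using 2
  split_ifs <;> simp

end

end Pool.Agent.L0h56.BQ
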