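import Pool.Agent.L0h56.BQ.Ang

/-! MP_6b977f_mp: local limits of torus eigenfunctions -/

set_option autoImplicit false
open MeasureTheory Filter Topology Complex Set

namespace Pool.Agent.L0h56.BQ

open Pool.Agent.N661.BR (J0 resc IsCutoff)

noncomputable section

theorem gauss_lim' {p : ℕ} {ϖ : GaussianInt} (h : Spl p ϖ) (hp1 : 1 < p) (m : ℕ) (hm : 0 < m)
    (k : ℕ → ℕ) (c : ℕ → GaussianInt → ℂ)
    (hc : ∀ n ν, c n (-ν) = (starRingEnd ℂ) (c n ν))
    (hcκ : ∀ ε : ℝ, 0 < ε → ∀ᶠ n in atTop, ∀ ν ∈ V (m * p ^ k n), ‖c n ν‖ ≤ ε)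
    (v : ℝ) (hv : Tendsto (fun n => ∑ ν ∈ V (m * p ^ k n), ‖c n ν‖ ^ 2) atTop (𝓝 v))
    (Ω : Set ℂ) (ho : IsOpen Ω) (hb : Bornology.IsBounded Ω) :
    Tendsto (fun n => ∫ z in Ω, Complex.exp (I * ∑ ν ∈ V (m * p ^ k n), c n ν * ch ν z)) atTop
      (𝓝 ((volume.real Ω : ℂ) * Complex.exp ((-v / 2 : ℝ)))) := by
  refine gauss_lim h hp1 m hm k c hc
    (fun n => (((V (m * p ^ k n)).sup fun ν => ‖c n ν‖₊ : NNReal) : ℝ)) ?_ ?_ v hv Ω ho hb
  · rw [Metric.tendsto_nhds]
    intro ε hε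
    refine (hcκ (ε / 2) (by positivity)).mono fun n hn => ?_
    rw [Real.dist_eq, sub_zero, abs_of_nonneg (NNReal.coe_nonneg _)]
    have h1 : ((V (m * p ^ k n)).sup fun ν => ‖c n ν‖₊) ≤ Real.toNNReal (ε / 2) := by
      refine Finset.sup_le fun ν hν => ?_
      rw [← NNReal.coe_le_coe, Real.coe_toNNReal _ (by positivity)]
      exact hn ν hν
    have h2 : ((((V (m * p ^ k n)).sup fun ν => ‖c n ν‖₊ : NNReal)) : ℝ) ≤ ε / 2 := by
      have := NNReal.coe_le_coe.2 h1
      rwa [Real.coe_toNNReal _ (by positivity)] at this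
    linarith
  · intro n ν hν
    have h1 := Finset.le_sup (f := fun ν => ‖c n ν‖₊) hν
    exact_mod_cast NNReal.coe_le_coe.2 h1

/-- removal of the cut-off -/
theorem cutoff (Ω₀ : Set ℂ) (ho₀ : IsOpen Ω₀) (Ω : Set ℂ) (ho : IsOpen Ω)
    (hb : Bornology.IsBounded Ω) (hsub : Ω ⊆ Ω₀) (χ : ℝ → ℝ)
    (hχ : IsCutoff χ) (lam : ℕ → ℝ) (hlam : Tendsto lam atTop atTop) (u : ℕ → ℂ → ℝ)
    (hu : ∀ n, Continuous (u n)) (K : ℕ) (w : Fin K → ℂ) (t : Fin K → ℝ) (L : ℂ)
    (hL : Tendsto (fun n => ∫ z in Ω, Complex.exp (I *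
      ((∑ j, t j * u n (z + w j / (√(lam n) : ℝ)) : ℝ) : ℂ))) atTop (𝓝 L)) :
    Tendsto (fun n => ∫ z in Ω, Complex.exp (I *
      ((∑ j, t j * resc χ Ω₀ (lam n) (u n) z (w j) : ℝ) : ℂ))) atTop (𝓝 L) := by
  have hvol : volume Ω ≠ ⊤ := hb.measure_lt_top.ne
  have : IsFiniteMeasure (volume.restrict Ω) := ⟨by simpa using hvol.lt_top⟩
  have hχc : Continuous fun s : ℝ => χ (max s 0) :=
    hχ.smooth.continuousOn.comp_continuous (by fun_prop) fun s => Set.mem_Ici.2 (le_max_right _ _)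
  have hmeas : ∀ n j, Measurable fun z => resc χ Ω₀ (lam n) (u n) z (w j) := by
    intro n j
    have h1 : (fun z => resc χ Ω₀ (lam n) (u n) z (w j)) = fun z =>
        u n (z + w j / (√(lam n) : ℝ)) *
          χ (max (‖w j‖ / (√(lam n) * Metric.infDist z (frontier Ω₀))) 0) := by
      funext z
      unfold resc
      rw [max_eq_left]
      exact div_nonneg (norm_nonneg _) (mul_nonneg (Real.sqrt_nonneg _) Metric.infDist_nonneg)
    rw [h1]
    refine Measurable.mul ?_ ?_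
    · have := hu n
      exact Continuous.measurable (by fun_prop)
    · refine hχc.measurable.comp ?_
      refine measurable_const.div ?_
      exact measurable_const.mul (Metric.continuous_infDist_pt _).measurable
  have hcont : ∀ n, Continuous fun z => ∑ j, t j * u n (z + w j / (√(lam n) : ℝ)) := fun n => by
    have := hu n
    fun_prop
  have hn1 : ∀ x : ℝ, ‖Complex.exp (I * (x : ℂ))‖ = 1 := fun x => by
    rw [mul_comm, Complex.norm_exp_ofReal_mul_I]
  have hm1 : ∀ n, AEStronglyMeasurable (fun z => Complex.exp (I *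
      ((∑ j, t j * resc χ Ω₀ (lam n) (u n) z (w j) : ℝ) : ℂ))) (volume.restrict Ω) := by
    intro n
    refine Measurable.aestronglyMeasurable ?_
    refine Complex.measurable_exp.comp (measurable_const.mul (Complex.measurable_ofReal.comp ?_))
    exact Finset.measurable_sum _ fun j _ => measurable_const.mul (hmeas n j)
  have hm2 : ∀ n, AEStronglyMeasurable (fun z => Complex.exp (I *
      ((∑ j, t j * u n (z + w j / (√(lam n) : ℝ)) : ℝ) : ℂ))) (volume.restrict Ω) := by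
    intro n
    refine Continuous.aestronglyMeasurable ?_
    exact (continuous_const.mul (Complex.continuous_ofReal.comp (hcont n))).cexp
  have hdiff : Tendsto (fun n => ∫ z in Ω, (Complex.exp (I *
      ((∑ j, t j * resc χ Ω₀ (lam n) (u n) z (w j) : ℝ) : ℂ)) - Complex.exp (I *
      ((∑ j, t j * u n (z + w j / (√(lam n) : ℝ)) : ℝ) : ℂ)))) atTop (𝓝 (∫ _z in Ω, (0:ℂ))) := by
    refine tendsto_integral_of_dominated_convergence (fun _ => (2:ℝ))
      (fun n => (hm1 n).sub (hm2 n)) (integrable_const _) ?_ ?_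
    · refine fun n => Eventually.of_forall fun z => ?_
      refine (norm_sub_le _ _).trans ?_
      rw [hn1, hn1]
      norm_num
    · refine (ae_restrict_mem ho.measurableSet).mono fun z hz => ?_
      have hev : ∀ᶠ n in atTop, ∀ j : Fin K,
          χ (‖w j‖ / (√(lam n) * Metric.infDist z (frontier Ω₀))) = 1 := by
        rw [eventually_all]
        intro j
        obtain ⟨δ, hδ, hχ1⟩ := hχ.one
        rcases (frontier Ω₀).eq_empty_or_nonempty with hf | hf
        · refine Eventually.of_forall fun n => ?_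
          rw [hf, Metric.infDist_empty, mul_zero, div_zero]
          exact hχ1 0 le_rfl hδ.le
        · have hd : 0 < Metric.infDist z (frontier Ω₀) := by
            refine (isClosed_frontier.notMem_iff_infDist_pos hf).1 fun h1 => ?_
            rw [ho₀.frontier_eq] at h1
            exact h1.2 (hsub hz)
          have h2 : Tendsto (fun n => ‖w j‖ / (√(lam n) * Metric.infDist z (frontier Ω₀))) atTop
              (𝓝 0) := by
            refine Tendsto.div_atTop tendsto_const_nhds ?_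
            exact (Real.tendsto_sqrt_atTop.comp hlam).atTop_mul_const hd
          refine (h2.eventually (eventually_le_nhds hδ)).mono fun n hn => ?_
          exact hχ1 _ (div_nonneg (norm_nonneg _)
            (mul_nonneg (Real.sqrt_nonneg _) Metric.infDist_nonneg)) hn
      refine (tendsto_congr' (hev.mono fun n hn => ?_)).2 tendsto_const_nhds
      have h3 : (∑ j, t j * resc χ Ω₀ (lam n) (u n) z (w j)) =
          ∑ j, t j * u n (z + w j / (√(lam n) : ℝ)) := by
        refine Finset.sum_congr rfl fun j _ => ?_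
        unfold resc
        rw [hn j, mul_one]
      simp only [h3, sub_self]
  rw [integral_zero] at hdiff
  have h5 := hdiff.add hL
  rw [zero_add] at h5
  refine h5.congr fun n => ?_
  rw [integral_sub]
  · ring
  · exact Integrable.of_bound (hm1 n) 1 (Eventually.of_forall fun z => (hn1 _).le)
  · exact Integrable.of_bound (hm2 n) 1 (Eventually.of_forall fun z => (hn1 _).le)

/-- the eigenvalue of the functions with frequencies of norm `E` -/
def lamE (E : ℕ) : ℝ := Real.pi ^ 2 * E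

theorem sqrt_lamE (E : ℕ) : √(lamE E) = Real.pi * √E := by
  unfold lamE
  rw [Real.sqrt_mul (by positivity), Real.sqrt_sq Real.pi_pos.le]

/-- the phase of `ν` at `w` -/
def ph (E : ℕ) (w : ℂ) (ν : GaussianInt) : ℝ := (ν.re * w.re + ν.im * w.im) / √E

theorem ch_shift (E : ℕ) (ν : GaussianInt) (z w : ℂ) :
    ch ν (z + w / (√(lamE E) : ℝ)) = ch ν z * Complex.exp (I * (ph E w ν : ℝ)) := by
  unfold ch ph
  rw [← Complex.exp_add]
  congr 1
  rw [sqrt_lamE]
  have hp : Real.pi ≠ 0 := Real.pi_ne_zero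
  have h1 : (w / ((Real.pi * √E : ℝ) : ℂ)).re = w.re / (Real.pi * √E) := by
    rw [Complex.div_ofReal_re]
  have h2 : (w / ((Real.pi * √E : ℝ) : ℂ)).im = w.im / (Real.pi * √E) := by
    rw [Complex.div_ofReal_im]
  rw [Complex.add_re, Complex.add_im, h1, h2]
  have h3 : (Real.pi * (ν.re * (z.re + w.re / (Real.pi * √E)) +
      ν.im * (z.im + w.im / (Real.pi * √E)))) =
      Real.pi * (ν.re * z.re + ν.im * z.im) + (ν.re * w.re + ν.im * w.im) / √E := by
    by_cases hE : √(E:ℝ) = 0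
    · rw [hE]; simp
    · field_simp
      ring
  rw [h3]
  push_cast
  ring

theorem ph_dirn (E : ℕ) (hE : 0 < E) (w : ℂ) (ν : GaussianInt) (h : ν ∈ V E) :
    ph E w ν = w.re * Real.cos (dirn ν) + w.im * Real.sin (dirn ν) := by
  rw [mem_V] at h
  have h0 : √(E:ℝ) ≠ 0 := (Real.sqrt_pos.2 (by exact_mod_cast hE)).ne'
  unfold ph
  rw [← cos_dirn ν E h, ← sin_dirn ν E h]
  field_simp

theorem ph_neg (E : ℕ) (w : ℂ) (ν : GaussianInt) : ph E w (-ν) = -ph E w ν := by
  unfold ph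
  simp only [Zsqrtd.re_neg, Zsqrtd.im_neg]
  push_cast
  ring

/-- the sum of the phases -/
def TT {K : ℕ} (E : ℕ) (w : Fin K → ℂ) (t : Fin K → ℝ) (ν : GaussianInt) : ℂ :=
  ∑ j, (t j : ℂ) * Complex.exp (I * (ph E (w j) ν : ℝ))

theorem TT_neg {K : ℕ} (E : ℕ) (w : Fin K → ℂ) (t : Fin K → ℝ) (ν : GaussianInt) :
    TT E w t (-ν) = (starRingEnd ℂ) (TT E w t ν) := by
  unfold TT
  rw [map_sum]
  refine Finset.sum_congr rfl fun j _ => ?_
  rw [map_mul, Complex.conj_ofReal, ← Complex.exp_conj, map_mul, Complex.conj_I,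
    Complex.conj_ofReal, ph_neg]
  congr 2
  push_cast
  ring

theorem TT_norm {K : ℕ} (E : ℕ) (w : Fin K → ℂ) (t : Fin K → ℝ) (ν : GaussianInt) :
    ‖TT E w t ν‖ ≤ ∑ j, |t j| := by
  unfold TT
  refine (norm_sum_le _ _).trans (Finset.sum_le_sum fun j _ => ?_)
  rw [norm_mul, Complex.norm_real, Real.norm_eq_abs, mul_comm I, Complex.norm_exp_ofReal_mul_I,
    mul_one]

theorem TT_sq {K : ℕ} (E : ℕ) (hE : 0 < E) (w : Fin K → ℂ) (t : Fin K → ℝ) (ν : GaussianInt)
    (h : ν ∈ V E) :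
    ‖TT E w t ν‖ ^ 2 = ∑ i, ∑ j, t i * t j *
      Real.cos ((w i - w j).re * Real.cos (dirn ν) + (w i - w j).im * Real.sin (dirn ν)) := by
  have h1 : ((‖TT E w t ν‖ ^ 2 : ℝ) : ℂ) = ∑ i, ∑ j, (t i * t j : ℂ) *
      Complex.exp (((ph E (w i) ν - ph E (w j) ν : ℝ) : ℂ) * I) := by
    rw [← Complex.normSq_eq_norm_sq, ← Complex.mul_conj]
    unfold TT
    rw [map_sum, Finset.sum_mul_sum]
    refine Finset.sum_congr rfl fun i _ => Finset.sum_congr rfl fun j _ => ?_
    rw [map_mul, Complex.conj_ofReal, ← Complex.exp_conj, map_mul, Complex.conj_I,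
      Complex.conj_ofReal]
    have h2 : ((ph E (w i) ν - ph E (w j) ν : ℝ) : ℂ) * I =
        I * (ph E (w i) ν : ℝ) + -I * (ph E (w j) ν : ℝ) := by push_cast; ring
    rw [h2, Complex.exp_add]
    ring
  have h3 := congrArg Complex.re h1
  rw [Complex.ofReal_re, Complex.re_sum] at h3
  rw [h3]
  refine Finset.sum_congr rfl fun i _ => ?_
  rw [Complex.re_sum]
  refine Finset.sum_congr rfl fun j _ => ?_
  rw [← Complex.ofReal_mul, Complex.re_ofReal_mul, Complex.exp_ofReal_mul_I_re,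
    ph_dirn E hE (w i) ν h, ph_dirn E hE (w j) ν h, Complex.sub_re, Complex.sub_im]
  congr 2
  ring

/-- **Local limits of torus eigenfunctions with equidistributed directions.** -/
theorem torus_lim (p : ℕ) (hp : p.Prime) (h4 : p % 4 = 1) (m : ℕ) (hm : 0 < m) (k : ℕ → ℕ)
    (hk : Tendsto k atTop atTop) (b : ℕ → GaussianInt → ℂ)
    (hb : ∀ n ν, b n (-ν) = (starRingEnd ℂ) (b n ν))
    (hb1 : ∀ n, ∑ ν ∈ V (m * p ^ k n), ‖b n ν‖ ^ 2 = 1)
    (hA : ∀ q : ℤ, q ≠ 0 → Tendsto (fun n => ∑ ν ∈ V (m * p ^ k n), ((‖b n ν‖ ^ 2 : ℝ) : ℂ) *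
      Complex.exp (I * (q * dirn ν : ℝ))) atTop (𝓝 0))
    (u : ℕ → ℂ → ℝ) (hu : ∀ n z, (u n z : ℂ) = ∑ ν ∈ V (m * p ^ k n), b n ν * ch ν z)
    (Ω₀ : Set ℂ) (ho₀ : IsOpen Ω₀)
    (Ω : Set ℂ) (ho : IsOpen Ω) (hbd : Bornology.IsBounded Ω) (hne : Ω.Nonempty) (hsub : Ω ⊆ Ω₀)
    (χ : ℝ → ℝ) (hχ : IsCutoff χ) (K : ℕ) (w : Fin K → ℂ) (t : Fin K → ℝ) :
    Tendsto (fun n => (1 / volume.real Ω : ℝ) * ∫ z in Ω,
      Complex.exp (I * ((∑ j, t j * resc χ Ω₀ (lamE (m * p ^ k n)) (u n) z (w j) : ℝ) : ℂ))) atTop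
      (𝓝 (Complex.exp ((-(∑ i, ∑ j, t i * t j * J0 ‖w i - w j‖) / 2 : ℝ)))) := by
  obtain ⟨ϖ, hϖ⟩ := spl_exists p hp h4
  have hvol : volume Ω ≠ ⊤ := hbd.measure_lt_top.ne
  have hvr : volume.real Ω ≠ 0 := by
    rw [measureReal_def]
    exact (ENNReal.toReal_pos (ho.measure_pos volume hne).ne' hvol).ne'
  have hE : ∀ n, 0 < m * p ^ k n := fun n => Nat.mul_pos hm (pow_pos hp.pos _)
  have huc : ∀ n, Continuous (u n) := by
    intro n
    have h1 : Continuous fun z => (u n z : ℂ) := by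
      simp_rw [hu n]
      exact continuous_finsetSum _ fun ν _ => continuous_const.mul (ch_cont ν)
    have h2 := Complex.continuous_re.comp h1
    refine h2.congr fun z => ?_
    simp
  have hlam : Tendsto (fun n => lamE (m * p ^ k n)) atTop atTop := by
    unfold lamE
    refine Tendsto.const_mul_atTop (by positivity) ?_
    have h1 : Tendsto (fun n => (m * p ^ k n : ℕ)) atTop atTop := by
      refine tendsto_atTop_mono (fun n => ?_) hk
      calc k n ≤ p ^ k n := (Nat.lt_pow_self hp.one_lt).le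
        _ ≤ m * p ^ k n := Nat.le_mul_of_pos_left _ hm
    exact tendsto_natCast_atTop_atTop.comp h1
  set c : ℕ → GaussianInt → ℂ := fun n ν => b n ν * TT (m * p ^ k n) w t ν with hc
  have hcs : ∀ n ν, c n (-ν) = (starRingEnd ℂ) (c n ν) := fun n ν => by
    simp only [hc]
    rw [hb, TT_neg, map_mul]
  set T0 : ℝ := ∑ j, |t j| with hT0
  have hT00 : 0 ≤ T0 := Finset.sum_nonneg fun _ _ => abs_nonneg _
  have hcκ : ∀ ε : ℝ, 0 < ε → ∀ᶠ n in atTop, ∀ ν ∈ V (m * p ^ k n), ‖c n ν‖ ≤ ε := by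
    intro ε hε
    have h1 := weyl_small (fun n => V (m * p ^ k n)) (fun n ν => ‖b n ν‖ ^ 2)
      (fun n ν _ => by positivity) hb1 hA ((ε / (T0 + 1)) ^ 2) (by positivity)
    refine h1.mono fun n hn ν hν => ?_
    have h2 : ‖b n ν‖ ≤ ε / (T0 + 1) := le_of_sq_le_sq (hn ν hν) (by positivity)
    simp only [hc]
    rw [norm_mul]
    calc ‖b n ν‖ * ‖TT (m * p ^ k n) w t ν‖ ≤ ε / (T0 + 1) * T0 :=
          mul_le_mul h2 (TT_norm _ w t ν) (norm_nonneg _) (by positivity)
      _ ≤ ε / (T0 + 1) * (T0 + 1) := mul_le_mul_of_nonneg_left (by linarith) (by positivity)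
      _ = ε := by field_simp
  have hv : Tendsto (fun n => ∑ ν ∈ V (m * p ^ k n), ‖c n ν‖ ^ 2) atTop
      (𝓝 (∑ i, ∑ j, t i * t j * J0 ‖w i - w j‖)) := by
    have h1 : ∀ n, ∑ ν ∈ V (m * p ^ k n), ‖c n ν‖ ^ 2 = ∑ i, ∑ j, t i * t j *
        ∑ ν ∈ V (m * p ^ k n), ‖b n ν‖ ^ 2 * Real.cos ((w i - w j).re * Real.cos (dirn ν) +
          (w i - w j).im * Real.sin (dirn ν)) := by
      intro n
      have h2 : ∀ ν ∈ V (m * p ^ k n), ‖c n ν‖ ^ 2 = ∑ i, ∑ j, t i * t j *
          (‖b n ν‖ ^ 2 * Real.cos ((w i - w j).re * Real.cos (dirn ν) +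
          (w i - w j).im * Real.sin (dirn ν))) := by
        intro ν hν
        simp only [hc]
        rw [norm_mul, mul_pow, TT_sq _ (hE n) w t ν hν, Finset.mul_sum]
        refine Finset.sum_congr rfl fun i _ => ?_
        rw [Finset.mul_sum]
        refine Finset.sum_congr rfl fun j _ => ?_
        ring
      rw [Finset.sum_congr rfl h2, Finset.sum_comm]
      refine Finset.sum_congr rfl fun i _ => ?_
      rw [Finset.sum_comm]
      refine Finset.sum_congr rfl fun j _ => ?_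
      rw [Finset.mul_sum]
    simp_rw [h1]
    refine tendsto_finsetSum _ fun i _ => tendsto_finsetSum _ fun j _ => ?_
    exact (weyl_cov (fun n => V (m * p ^ k n)) (fun n ν => ‖b n ν‖ ^ 2)
      (fun n ν _ => by positivity) hb1 hA (w i - w j)).const_mul _
  have hg := gauss_lim' hϖ hp.one_lt m hm k c hcs hcκ _ hv Ω ho hbd
  have hlin : ∀ n z, ((∑ j, t j * u n (z + w j / (√(lamE (m * p ^ k n)) : ℝ)) : ℝ) : ℂ) =
      ∑ ν ∈ V (m * p ^ k n), c n ν * ch ν z := by
    intro n z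
    push_cast
    simp_rw [hu, ch_shift]
    have h1 : ∀ j : Fin K, (t j : ℂ) * ∑ ν ∈ V (m * p ^ k n),
        b n ν * (ch ν z * Complex.exp (I * (ph (m * p ^ k n) (w j) ν : ℝ))) =
        ∑ ν ∈ V (m * p ^ k n), b n ν * ((t j : ℂ) *
          Complex.exp (I * (ph (m * p ^ k n) (w j) ν : ℝ))) * ch ν z := by
      intro j
      rw [Finset.mul_sum]
      exact Finset.sum_congr rfl fun ν _ => by ring
    rw [Finset.sum_congr rfl fun j _ => h1 j, Finset.sum_comm]
    refine Finset.sum_congr rfl fun ν _ => ?_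
    simp only [hc]
    unfold TT
    rw [Finset.mul_sum, Finset.sum_mul]
  have hg2 := cutoff Ω₀ ho₀ Ω ho hbd hsub χ hχ (fun n => lamE (m * p ^ k n)) hlam u huc K w t _
    (hg.congr fun n => by simp_rw [hlin])
  have hg3 := hg2.const_mul ((1 / volume.real Ω : ℝ) : ℂ)
  convert hg3 using 2
  have : (volume.real Ω : ℂ) ≠ 0 := by exact_mod_cast hvr
  push_cast
  field_simp

end

end Pool.Agent.L0h56.BQ
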