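import Pool.Agent.L0h56.BQ.Loc

/-! MP_6b977f_mp: trigonometric polynomials with frequencies in the Gaussian integers -/

set_option autoImplicit false
open MeasureTheory Filter Topology Complex Set

namespace Pool.Agent.L0h56.BQ

noncomputable section

/-- the character `z ↦ exp (iπ (ν · z))` of the plane -/
def ch (ν : GaussianInt) (z : ℂ) : ℂ :=
  Complex.exp ((Real.pi * (ν.re * z.re + ν.im * z.im) : ℝ) * I)

theorem ch_zero (z : ℂ) : ch 0 z = 1 := by simp [ch]

theorem ch_add (ν ν' : GaussianInt) (z : ℂ) : ch (ν + ν') z = ch ν z * ch ν' z := by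
  unfold ch
  rw [← Complex.exp_add]
  congr 1
  simp only [Zsqrtd.re_add, Zsqrtd.im_add]
  push_cast
  ring

theorem norm_ch (ν : GaussianInt) (z : ℂ) : ‖ch ν z‖ = 1 := Complex.norm_exp_ofReal_mul_I _

theorem ch_neg (ν : GaussianInt) (z : ℂ) : ch (-ν) z = (starRingEnd ℂ) (ch ν z) := by
  unfold ch
  rw [← Complex.exp_conj]
  congr 1
  simp only [Zsqrtd.re_neg, Zsqrtd.im_neg, map_mul, Complex.conj_ofReal, Complex.conj_I]
  push_cast
  ring

theorem ch_cont (ν : GaussianInt) : Continuous (ch ν) := by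
  unfold ch
  fun_prop

theorem ch_per (ν : GaussianInt) (N : ℕ) (hN : 0 < N) (h : (N : GaussianInt) ∣ ν) :
    Per (2 / N) (ch ν) := by
  have hN' : (N : ℝ) ≠ 0 := by positivity
  have hd : (N : ℤ) ∣ ν.re ∧ (N : ℤ) ∣ ν.im := by
    have h1 : (((N : ℤ)) : GaussianInt) ∣ ν := by simpa using h
    exact (Zsqrtd.intCast_dvd _ _).1 h1
  obtain ⟨⟨a, ha⟩, b, hb⟩ := hd
  constructor
  · intro z
    unfold ch
    have h1 : ((Real.pi * (ν.re * (z + (2 / N : ℝ)).re + ν.im * (z + (2 / N : ℝ)).im) : ℝ) : ℂ) * I =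
        ((Real.pi * (ν.re * z.re + ν.im * z.im) : ℝ) : ℂ) * I + a * (2 * Real.pi * I) := by
      rw [ha]
      simp only [Complex.add_re, Complex.add_im, Complex.ofReal_re, Complex.ofReal_im]
      push_cast
      have : (N : ℂ) ≠ 0 := by exact_mod_cast hN.ne'
      field_simp
      ring
    rw [h1, Complex.exp_add, Complex.exp_int_mul_two_pi_mul_I, mul_one]
  · intro z
    unfold ch
    have h1 : ((Real.pi * (ν.re * (z + (2 / N : ℝ) * I).re + ν.im * (z + (2 / N : ℝ) * I).im) : ℝ) :
        ℂ) * I =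
        ((Real.pi * (ν.re * z.re + ν.im * z.im) : ℝ) : ℂ) * I + b * (2 * Real.pi * I) := by
      rw [hb]
      simp only [Complex.add_re, Complex.add_im, Complex.mul_re, Complex.mul_im, Complex.ofReal_re,
        Complex.ofReal_im, Complex.I_re, Complex.I_im]
      push_cast
      have : (N : ℂ) ≠ 0 := by exact_mod_cast hN.ne'
      field_simp
      ring
    rw [h1, Complex.exp_add, Complex.exp_int_mul_two_pi_mul_I, mul_one]

theorem cell_sub (s : ℝ) : cell s ⊆ Metric.closedBall 0 (2 * |s|) := by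
  intro w hw
  rw [mem_closedBall_zero_iff]
  obtain ⟨⟨h1, h2⟩, h3, h4⟩ := hw
  calc ‖w‖ ≤ |w.re| + |w.im| := Complex.norm_le_abs_re_add_abs_im w
    _ ≤ |s| + |s| := by
      rw [abs_of_pos h1, abs_of_pos h3]
      exact add_le_add (h2.trans (le_abs_self s)) (h4.trans (le_abs_self s))
    _ = 2 * |s| := by ring

theorem cell_integrable {E : Type*} [NormedAddCommGroup E] [NormedSpace ℝ E] (s : ℝ) {f : ℂ → E}
    (hf : Continuous f) : Integrable f (volume.restrict (cell s)) :=
  (hf.continuousOn.integrableOn_compact (isCompact_closedBall 0 (2 * |s|))).mono_set (cell_sub s)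

theorem csum {κ : Type*} (t : Finset κ) (g : κ → ℂ → ℂ) (hg : ∀ i ∈ t, Continuous (g i)) :
    ∫ z in cell 2, ∑ i ∈ t, g i z = ∑ i ∈ t, ∫ z in cell 2, g i z :=
  integral_finsetSum _ fun i hi => cell_integrable 2 (hg i hi)

theorem cadd (f g : ℂ → ℂ) (hf : Continuous f) (hg : Continuous g) :
    ∫ z in cell 2, (f z + g z) = (∫ z in cell 2, f z) + ∫ z in cell 2, g z :=
  integral_add (cell_integrable 2 hf) (cell_integrable 2 hg)

theorem exp_int (a : ℤ) : ∫ x in (0:ℝ)..2, Complex.exp ((Real.pi * (a * x) : ℝ) * I) =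
    if a = 0 then 2 else 0 := by
  split_ifs with h
  · subst h
    simp
  · have hc : ((Real.pi * a : ℝ) : ℂ) * I ≠ 0 :=
      mul_ne_zero (by
        rw [Complex.ofReal_ne_zero]
        exact mul_ne_zero Real.pi_ne_zero (by exact_mod_cast h)) I_ne_zero
    have h1 : ∀ x : ℝ, Complex.exp ((Real.pi * (a * x) : ℝ) * I) =
        Complex.exp (((Real.pi * a : ℝ) : ℂ) * I * x) := fun x => by
      congr 1; push_cast; ring
    simp_rw [h1]
    rw [integral_exp_mul_complex hc]
    have h2 : Complex.exp (((Real.pi * a : ℝ) : ℂ) * I * (2 : ℝ)) = 1 := by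
      rw [show ((Real.pi * a : ℝ) : ℂ) * I * (2 : ℝ) = a * (2 * Real.pi * I) by push_cast; ring]
      exact Complex.exp_int_mul_two_pi_mul_I a
    rw [h2]
    simp

/-- orthogonality -/
theorem int_ch (ν : GaussianInt) : ∫ z in cell 2, ch ν z = if ν = 0 then 4 else 0 := by
  rw [cell_int 2 (by norm_num) _ (ch_cont ν)]
  unfold sq
  have h1 : ∀ x y : ℝ, ch ν (x + y * I) = Complex.exp ((Real.pi * (ν.re * x) : ℝ) * I) *
      Complex.exp ((Real.pi * (ν.im * y) : ℝ) * I) := by
    intro x y
    unfold ch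
    rw [← Complex.exp_add]
    congr 1
    simp only [Complex.add_re, Complex.add_im, Complex.mul_re, Complex.mul_im, Complex.ofReal_re,
        Complex.ofReal_im, Complex.I_re, Complex.I_im]
    push_cast
    ring
  simp_rw [h1, intervalIntegral.integral_const_mul, exp_int, intervalIntegral.integral_mul_const,
    exp_int]
  by_cases ha : ν.re = 0
  · by_cases hb : ν.im = 0
    · have : ν = 0 := Zsqrtd.ext ha hb
      rw [if_pos ha, if_pos hb, if_pos this]
      norm_num
    · have : ν ≠ 0 := fun h => hb (by rw [h]; rfl)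
      rw [if_neg hb, if_neg this, mul_zero]
  · have : ν ≠ 0 := fun h => ha (by rw [h]; rfl)
    rw [if_neg ha, if_neg this, zero_mul]

section Blocks

variable {ι : Type*} (B : ι → Finset GaussianInt) (c : GaussianInt → ℂ)

/-- the trigonometric polynomial of a block -/
def Y (b : ι) (z : ℂ) : ℂ := ∑ ν ∈ B b, c ν * ch ν z

theorem Y_cont (b : ι) : Continuous (Y B c b) := by
  unfold Y
  exact continuous_finsetSum _ fun ν _ => continuous_const.mul (ch_cont ν)

theorem Y_conj (hsym : ∀ b, ∀ ν ∈ B b, -ν ∈ B b) (hc : ∀ ν, c (-ν) = (starRingEnd ℂ) (c ν))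
    (b : ι) (z : ℂ) : (starRingEnd ℂ) (Y B c b z) = Y B c b z := by
  unfold Y
  rw [map_sum]
  refine Finset.sum_bij' (fun ν _ => -ν) (fun ν _ => -ν) (fun ν h => hsym b ν h)
    (fun ν h => hsym b ν h) (fun ν _ => neg_neg ν) (fun ν _ => neg_neg ν) fun ν _ => ?_
  rw [map_mul, hc, ch_neg]

theorem Y_re (hsym : ∀ b, ∀ ν ∈ B b, -ν ∈ B b) (hc : ∀ ν, c (-ν) = (starRingEnd ℂ) (c ν))
    (b : ι) (z : ℂ) : ((Y B c b z).re : ℂ) = Y B c b z :=
  Complex.conj_eq_iff_re.1 (Y_conj B c hsym hc b z)

theorem prod_zero (s : Finset ι) : ∀ l : GaussianInt,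
    (∀ N : ι → GaussianInt, (∀ b ∈ s, N b = 0 ∨ N b ∈ B b) → l + ∑ b ∈ s, N b ≠ 0) →
    ∫ z in cell 2, ch l z * ∏ b ∈ s, (1 + I * Y B c b z) = 0 := by
  classical
  induction s using Finset.induction_on with
  | empty =>
    intro l h
    have h1 := h (fun _ => 0) (by simp)
    simp only [Finset.sum_empty, add_zero] at h1
    simp only [Finset.prod_empty, mul_one]
    rw [int_ch, if_neg h1]
  | insert b s hb ih =>
    intro l h
    have h1 : ∀ z, ch l z * ∏ b' ∈ insert b s, (1 + I * Y B c b' z) =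
        ch l z * ∏ b' ∈ s, (1 + I * Y B c b' z) +
        ∑ ν ∈ B b, (I * c ν) * (ch (l + ν) z * ∏ b' ∈ s, (1 + I * Y B c b' z)) := by
      intro z
      rw [Finset.prod_insert hb]
      unfold Y
      rw [Finset.mul_sum, add_mul, one_mul, mul_add, Finset.sum_mul, Finset.mul_sum]
      congr 1
      refine Finset.sum_congr rfl fun ν _ => ?_
      rw [ch_add]
      ring
    have hpc : Continuous fun z => ∏ b' ∈ s, (1 + I * Y B c b' z) :=
      continuous_finsetProd _ fun b' _ => continuous_const.add (continuous_const.mul (Y_cont B c b'))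
    simp_rw [h1]
    rw [cadd (fun z => ch l z * ∏ b' ∈ s, (1 + I * Y B c b' z))
      (fun z => ∑ ν ∈ B b, (I * c ν) * (ch (l + ν) z * ∏ b' ∈ s, (1 + I * Y B c b' z)))
      ((ch_cont l).mul hpc)
      (continuous_finsetSum _ fun ν _ => continuous_const.mul ((ch_cont _).mul hpc)),
      csum (B b) (fun ν z => (I * c ν) * (ch (l + ν) z * ∏ b' ∈ s, (1 + I * Y B c b' z)))
      (fun ν _ => continuous_const.mul ((ch_cont _).mul hpc))]
    rw [ih l, zero_add]
    · refine Finset.sum_eq_zero fun ν hν => ?_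
      rw [integral_const_mul, ih (l + ν), mul_zero]
      intro N hN hs
      refine h (Function.update N b ν) ?_ ?_
      · intro b' hb'
        rcases Finset.mem_insert.1 hb' with rfl | hb'
        · right
          simpa using hν
        · have : b' ≠ b := fun h => hb (h ▸ hb')
          rw [Function.update_of_ne this]
          exact hN b' hb'
      · have h5 : ∑ b' ∈ s, Function.update N b ν b' = ∑ b' ∈ s, N b' := by
          refine Finset.sum_congr rfl fun b' hb' => ?_
          have : b' ≠ b := fun h => hb (h ▸ hb')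
          rw [Function.update_of_ne this]
        rw [Finset.sum_insert hb, Function.update_self, h5, ← add_assoc, hs]
    · intro N hN hs
      refine h (Function.update N b 0) ?_ ?_
      · intro b' hb'
        rcases Finset.mem_insert.1 hb' with rfl | hb'
        · left
          simp
        · have : b' ≠ b := fun h => hb (h ▸ hb')
          rw [Function.update_of_ne this]
          exact hN b' hb'
      · have h5 : ∑ b' ∈ s, Function.update N b 0 b' = ∑ b' ∈ s, N b' := by
          refine Finset.sum_congr rfl fun b' hb' => ?_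
          have : b' ≠ b := fun h => hb (h ▸ hb')
          rw [Function.update_of_ne this]
        rw [Finset.sum_insert hb, Function.update_self, h5, zero_add, hs]

/-- the second-order dissociation of the blocks -/
def Diss (s : Finset ι) : Prop := ∀ N : ι → GaussianInt,
  (∀ b ∈ s, N b = 0 ∨ N b ∈ B b ∨ ∃ ν ∈ B b, ∃ ν' ∈ B b, N b = ν + ν') →
  ∑ b ∈ s, N b = 0 → ∀ b ∈ s, N b = 0

theorem prod_one (s : Finset ι) (h0 : ∀ b ∈ s, (0 : GaussianInt) ∉ B b) (hD : Diss B s) :
    ∫ z in cell 2, ∏ b ∈ s, (1 + I * Y B c b z) = 4 := by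
  classical
  revert h0 hD
  induction s using Finset.induction_on with
  | empty =>
    intro _ _
    have := int_ch 0
    simp only [ch_zero, if_true] at this
    simpa using this
  | insert b s hb ih =>
    intro h0 hD
    have h1 : ∀ z, ∏ b' ∈ insert b s, (1 + I * Y B c b' z) =
        ∏ b' ∈ s, (1 + I * Y B c b' z) +
        ∑ ν ∈ B b, (I * c ν) * (ch ν z * ∏ b' ∈ s, (1 + I * Y B c b' z)) := by
      intro z
      rw [Finset.prod_insert hb]
      unfold Y
      rw [Finset.mul_sum, add_mul, one_mul, Finset.sum_mul]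
      congr 1
      refine Finset.sum_congr rfl fun ν _ => ?_
      ring
    have hpc : Continuous fun z => ∏ b' ∈ s, (1 + I * Y B c b' z) :=
      continuous_finsetProd _ fun b' _ => continuous_const.add (continuous_const.mul (Y_cont B c b'))
    simp_rw [h1]
    rw [cadd (fun z => ∏ b' ∈ s, (1 + I * Y B c b' z))
      (fun z => ∑ ν ∈ B b, (I * c ν) * (ch ν z * ∏ b' ∈ s, (1 + I * Y B c b' z))) hpc
      (continuous_finsetSum _ fun ν _ => continuous_const.mul ((ch_cont _).mul hpc)),
      csum (B b) (fun ν z => (I * c ν) * (ch ν z * ∏ b' ∈ s, (1 + I * Y B c b' z)))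
      (fun ν _ => continuous_const.mul ((ch_cont _).mul hpc))]
    have hD' : Diss B s := by
      intro N hN hs b' hb'
      have h2 := hD (Function.update N b 0) ?_ ?_ b' (Finset.mem_insert_of_mem hb')
      · have : b' ≠ b := fun h => hb (h ▸ hb')
        rwa [Function.update_of_ne this] at h2
      · intro b'' hb''
        rcases Finset.mem_insert.1 hb'' with rfl | hb''
        · left
          simp
        · have : b'' ≠ b := fun h => hb (h ▸ hb'')
          rw [Function.update_of_ne this]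
          exact hN b'' hb''
      · rw [Finset.sum_insert hb, Function.update_self, zero_add]
        rw [← hs]
        refine Finset.sum_congr rfl fun b'' hb'' => ?_
        have : b'' ≠ b := fun h => hb (h ▸ hb'')
        rw [Function.update_of_ne this]
    rw [ih (fun b' hb' => h0 b' (Finset.mem_insert_of_mem hb')) hD']
    rw [Finset.sum_eq_zero, add_zero]
    intro ν hν
    rw [integral_const_mul, prod_zero B c s ν, mul_zero]
    intro N hN hs
    have h2 := hD (Function.update N b ν) ?_ ?_ b (Finset.mem_insert_self _ _)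
    · rw [Function.update_self] at h2
      exact h0 b (Finset.mem_insert_self _ _) (h2 ▸ hν)
    · intro b'' hb''
      rcases Finset.mem_insert.1 hb'' with rfl | hb''
      · right; left
        simpa using hν
      · have : b'' ≠ b := fun h => hb (h ▸ hb'')
        rw [Function.update_of_ne this]
        rcases hN b'' hb'' with h | h
        · exact Or.inl h
        · exact Or.inr (Or.inl h)
    · rw [Finset.sum_insert hb, Function.update_self]
      rw [← hs]
      congr 1
      refine Finset.sum_congr rfl fun b'' hb'' => ?_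
      have : b'' ≠ b := fun h => hb (h ▸ hb'')
      rw [Function.update_of_ne this]

/-- the variance of a block -/
def vb (b : ι) : ℝ := ∑ ν ∈ B b, ‖c ν‖ ^ 2

theorem vb_nonneg (b : ι) : 0 ≤ vb B c b := Finset.sum_nonneg fun _ _ => by positivity

theorem vb_eq (hsym : ∀ b, ∀ ν ∈ B b, -ν ∈ B b) (hc : ∀ ν, c (-ν) = (starRingEnd ℂ) (c ν)) (b : ι) :
    ∑ ν ∈ B b, ∑ ν' ∈ B b, (if ν + ν' = 0 then c ν * c ν' else 0) = (vb B c b : ℂ) := by
  classical
  unfold vb
  push_cast
  refine Finset.sum_congr rfl fun ν hν => ?_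
  rw [Finset.sum_eq_single (-ν)]
  · rw [if_pos (add_neg_cancel ν), hc, Complex.mul_conj, Complex.normSq_eq_norm_sq]
    push_cast
    rfl
  · intro ν' _ h
    rw [if_neg]
    intro h'
    exact h (eq_neg_of_add_eq_zero_right h')
  · intro h
    exact absurd (hsym b ν hν) h

theorem Ysq (b : ι) (z : ℂ) : Y B c b z ^ 2 =
    ∑ ν ∈ B b, ∑ ν' ∈ B b, (c ν * c ν') * ch (ν + ν') z := by
  unfold Y
  rw [pow_two, Finset.sum_mul_sum]
  refine Finset.sum_congr rfl fun ν _ => Finset.sum_congr rfl fun ν' _ => ?_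
  rw [ch_add]
  ring

theorem int_Ysq (hsym : ∀ b, ∀ ν ∈ B b, -ν ∈ B b) (hc : ∀ ν, c (-ν) = (starRingEnd ℂ) (c ν))
    (b : ι) : ∫ z in cell 2, Y B c b z ^ 2 = 4 * (vb B c b : ℂ) := by
  simp_rw [Ysq]
  rw [csum (B b) (fun ν z => ∑ ν' ∈ B b, (c ν * c ν') * ch (ν + ν') z)
    (fun ν _ => continuous_finsetSum _ fun ν' _ => continuous_const.mul (ch_cont _))]
  rw [← vb_eq B c hsym hc b, Finset.mul_sum]
  refine Finset.sum_congr rfl fun ν _ => ?_
  rw [csum (B b) (fun ν' z => (c ν * c ν') * ch (ν + ν') z)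
    (fun ν' _ => continuous_const.mul (ch_cont _)), Finset.mul_sum]
  refine Finset.sum_congr rfl fun ν' _ => ?_
  rw [integral_const_mul, int_ch]
  split_ifs <;> ring

theorem int_Ysq_mul (hsym : ∀ b, ∀ ν ∈ B b, -ν ∈ B b)
    (hc : ∀ ν, c (-ν) = (starRingEnd ℂ) (c ν)) (s : Finset ι) (hD : Diss B s) (b b' : ι)
    (hb : b ∈ s) (hb' : b' ∈ s) (hne : b ≠ b') :
    ∫ z in cell 2, Y B c b z ^ 2 * Y B c b' z ^ 2 = 4 * ((vb B c b : ℂ) * (vb B c b' : ℂ)) := by
  classical
  have key : ∀ ν ∈ B b, ∀ ν' ∈ B b, ∀ η ∈ B b', ∀ η' ∈ B b',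
      (ν + ν' + (η + η') = 0 ↔ ν + ν' = 0 ∧ η + η' = 0) := by
    intro ν hν ν' hν' η hη η' hη'
    constructor
    · intro h
      set N : ι → GaussianInt := Function.update (Function.update (fun _ => 0) b (ν + ν')) b' (η + η')
        with hN
      have hNb : N b = ν + ν' := by
        rw [hN, Function.update_of_ne hne, Function.update_self]
      have hNb' : N b' = η + η' := by rw [hN, Function.update_self]
      have hN0 : ∀ x, x ≠ b → x ≠ b' → N x = 0 := by
        intro x h1 h2
        rw [hN, Function.update_of_ne h2, Function.update_of_ne h1]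
      have h1 := hD N ?_ ?_
      · exact ⟨hNb ▸ h1 b hb, hNb' ▸ h1 b' hb'⟩
      · intro x _
        by_cases h1 : x = b
        · subst h1
          exact Or.inr (Or.inr ⟨ν, hν, ν', hν', hNb⟩)
        by_cases h2 : x = b'
        · subst h2
          exact Or.inr (Or.inr ⟨η, hη, η', hη', hNb'⟩)
        exact Or.inl (hN0 x h1 h2)
      · rw [Finset.sum_eq_add_of_mem b b' hb hb' hne, hNb, hNb', h]
        intro x _ hx
        exact hN0 x hx.1 hx.2
    · rintro ⟨h1, h2⟩
      rw [h1, h2, add_zero]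
  have h1 : ∀ z, Y B c b z ^ 2 * Y B c b' z ^ 2 =
      ∑ ν ∈ B b, ∑ ν' ∈ B b, ∑ η ∈ B b', ∑ η' ∈ B b',
        (c ν * c ν' * (c η * c η')) * ch (ν + ν' + (η + η')) z := by
    intro z
    rw [Ysq, Ysq, Finset.sum_mul]
    refine Finset.sum_congr rfl fun ν _ => ?_
    rw [Finset.sum_mul]
    refine Finset.sum_congr rfl fun ν' _ => ?_
    rw [Finset.mul_sum]
    refine Finset.sum_congr rfl fun η _ => ?_
    rw [Finset.mul_sum]
    refine Finset.sum_congr rfl fun η' _ => ?_
    rw [ch_add (ν + ν')]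
    ring
  have hct : ∀ ν ν' η η' : GaussianInt, Continuous fun z =>
      (c ν * c ν' * (c η * c η')) * ch (ν + ν' + (η + η')) z :=
    fun ν ν' η η' => continuous_const.mul (ch_cont _)
  simp_rw [h1]
  rw [csum _ _ (fun ν _ => continuous_finsetSum _ fun ν' _ =>
    continuous_finsetSum _ fun η _ => continuous_finsetSum _ fun η' _ => hct ν ν' η η')]
  rw [← vb_eq B c hsym hc b, ← vb_eq B c hsym hc b', Finset.sum_mul, Finset.mul_sum]
  refine Finset.sum_congr rfl fun ν hν => ?_
  rw [csum _ _ (fun ν' _ =>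
    continuous_finsetSum _ fun η _ => continuous_finsetSum _ fun η' _ => hct ν ν' η η'),
    Finset.sum_mul, Finset.mul_sum]
  refine Finset.sum_congr rfl fun ν' hν' => ?_
  rw [csum _ _ (fun η _ => continuous_finsetSum _ fun η' _ => hct ν ν' η η'),
    Finset.mul_sum, Finset.mul_sum]
  refine Finset.sum_congr rfl fun η hη => ?_
  rw [csum _ _ (fun η' _ => hct ν ν' η η'),
    Finset.mul_sum, Finset.mul_sum]
  refine Finset.sum_congr rfl fun η' hη' => ?_
  rw [integral_const_mul, int_ch]
  have hk := key ν hν ν' hν' η hη η' hη'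
  by_cases h2 : ν + ν' = 0
  · by_cases h3 : η + η' = 0
    · rw [if_pos (hk.2 ⟨h2, h3⟩), if_pos h2, if_pos h3]
      ring
    · rw [if_neg (fun h => h3 (hk.1 h).2), if_neg h3]
      ring
  · rw [if_neg (fun h => h2 (hk.1 h).1), if_neg h2]
    ring

end Blocks

end

end Pool.Agent.L0h56.BQ
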